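import Pool.Agent.TH299.LV.L4
import Pool.Agent.H313R3.TK.J

/-!
# Linear combinations and windows
-/

open Complex MeasureTheory Filter Topology Set Metric H313.TK

set_option linter.unusedSectionVars false
set_option linter.unusedVariables false
set_option autoImplicit false

namespace TH299.LV

noncomputable section

/-- the normalising constant -/
def Lam (α β : ℝ) : ℝ := |α| + |β| * (1 + 1 / |zh|) + 1

theorem Lam_pos (α β : ℝ) : 0 < Lam α β := by
  unfold Lam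
  have := abs_nonneg zh
  positivity

/-- the combination, not normalised -/
def SS (α β y : ℝ) : ℝ := α * MM y + β * (LL y - EE y / zh)

/-- the combination, normalised -/
def CC (α β : ℝ) (y : ℝ) : ℝ := SS α β y / Lam α β

theorem SS_meas (α β : ℝ) : Measurable (SS α β) := by
  have h1 := MM_meas
  have h2 := LL_meas
  have h3 := EE_meas
  unfold SS
  fun_prop

theorem SS_bd (α β u : ℝ) : |SS α β (Real.exp u)| ≤ Lam α β * Real.exp u := by
  have h1 := MM_PP.bd u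
  have h2 := LL_PP.bd u
  have h3 := EE_PP.bd u
  unfold ff at h1 h2 h3
  have hz := abs_pos.2 zh_ne
  unfold SS Lam
  have e := Real.exp_pos u
  calc |α * MM (Real.exp u) + β * (LL (Real.exp u) - EE (Real.exp u) / zh)| ≤
        |α| * |MM (Real.exp u)| + |β| * (|LL (Real.exp u)| + |EE (Real.exp u)| / |zh|) := by
        refine (abs_add_le _ _).trans ?_
        rw [abs_mul, abs_mul]
        refine add_le_add le_rfl (mul_le_mul_of_nonneg_left ?_ (abs_nonneg _))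
        refine (abs_sub _ _).trans ?_
        rw [abs_div]
    _ ≤ |α| * Real.exp u + |β| * (Real.exp u + Real.exp u / |zh|) := by
        refine add_le_add (mul_le_mul_of_nonneg_left h1 (abs_nonneg _)) (mul_le_mul_of_nonneg_left ?_ (abs_nonneg _))
        exact add_le_add h2 (div_le_div_of_nonneg_right h3 hz.le)
    _ = (|α| + |β| * (1 + 1 / |zh|)) * Real.exp u := by ring
    _ ≤ _ := mul_le_mul_of_nonneg_right (by linarith) e.le

theorem CC_PP (α β : ℝ) : PP (CC α β) := by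
  have hL := Lam_pos α β
  refine ⟨(SS_meas α β).div_const _, fun u => ?_, fun u hu => ?_⟩
  · unfold ff CC
    rw [abs_div, abs_of_pos hL, div_le_iff₀ hL, mul_comm]
    exact SS_bd α β u
  · have h1 := MM_PP.zero u hu
    have h2 := LL_PP.zero u hu
    have h3 := EE_PP.zero u hu
    unfold ff at h1 h2 h3
    unfold ff CC SS
    rw [h1, h2, h3]
    simp

theorem av_CC (α β t : ℝ) : av (CC α β) kc t = (1 / (Lam α β : ℂ)) * (α * av MM kc t + β * BB t) := by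
  have i1 := av_int MM_PP kc_DK t
  have i2 := av_int LL_PP kc_DK t
  have i3 := av_int EE_PP kc_DK t
  have i4 : Integrable (fun v : ℝ => (β : ℂ) * ((ff LL (t - v) : ℂ) * kc v - 1 / (zh : ℂ) * ((ff EE (t - v) : ℂ) * kc v))) :=
    (i2.sub (i3.const_mul _)).const_mul _
  unfold BB av
  rw [← integral_const_mul, ← integral_const_mul, ← integral_sub i2 (i3.const_mul _), ← integral_const_mul,
    ← integral_add (i1.const_mul _) i4, ← integral_const_mul]
  refine integral_congr_ae (ae_of_all _ fun v => ?_)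
  simp only [Pi.add_apply, Pi.sub_apply]
  unfold ff CC SS
  push_cast
  ring

theorem MM_bd : ∃ C : ℝ, 0 ≤ C ∧ ∀ t, ‖av MM kc t‖ ≤ C := by
  refine ⟨48 * ∫ x : ℝ, Real.exp (-(2 * |x|)), ?_, fun t => ?_⟩
  · have : 0 ≤ ∫ x : ℝ, Real.exp (-(2 * |x|)) := integral_nonneg fun x => (Real.exp_pos _).le
    positivity
  · rw [av_kp, Complex.norm_real, Real.norm_eq_abs]
    exact avg_mm t

theorem CC_bd (α β : ℝ) : ∃ E : ℝ, 0 ≤ E ∧ ∀ t, ‖av (CC α β) kc t‖ ≤ E := by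
  obtain ⟨C1, hC1, h1⟩ := MM_bd
  obtain ⟨C2, hC2, h2⟩ := BB_bd
  have hL := Lam_pos α β
  refine ⟨1 / Lam α β * (|α| * C1 + |β| * C2), by positivity, fun t => ?_⟩
  rw [av_CC, norm_mul, norm_div, norm_one, Complex.norm_real, Real.norm_eq_abs, abs_of_pos hL]
  refine mul_le_mul_of_nonneg_left ?_ (by positivity)
  refine (norm_add_le _ _).trans ?_
  rw [norm_mul, norm_mul, Complex.norm_real, Complex.norm_real, Real.norm_eq_abs, Real.norm_eq_abs]
  exact add_le_add (mul_le_mul_of_nonneg_left (h1 t) (abs_nonneg _)) (mul_le_mul_of_nonneg_left (h2 t) (abs_nonneg _))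

theorem BB_int (ρ : ℂ) (h0 : 0 < ρ.re) (h1 : ρ.re < 2) : Integrable (fun t : ℝ => cexp (-ρ * t) * BB t) := by
  obtain ⟨C1, hC1, hb⟩ := BB_bd
  obtain ⟨C2, hC2, hd⟩ := BB_decay
  refine int_tw BB_meas (max C1 C2) (fun t _ => (hb t).trans (le_max_left _ _)) (fun t ht => ?_) ρ h0 h1
  exact (hd t ht).trans (mul_le_mul_of_nonneg_right (le_max_right _ _) (Real.exp_pos _).le)

theorem CC_tr (α β : ℝ) (ρ : ℂ) (hz : riemannZeta ρ = 0) (h0 : 1 / 2 ≤ ρ.re) (h1 : ρ.re < 1) :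
    ∫ z : ℝ, cexp (-ρ * z) * av (CC α β) kc z =
      (1 / (Lam α β : ℂ)) * (qh ρ / ρ * (α + β * riemannZeta (2 * ρ))) := by
  obtain ⟨i1, e1⟩ := T_M ρ (by linarith) (by linarith)
  have i2 := BB_int ρ (by linarith) (by linarith)
  have e2 := BB_zero ρ hz h0 h1
  have e : (fun z : ℝ => cexp (-ρ * z) * av (CC α β) kc z) = fun z : ℝ =>
      (1 / (Lam α β : ℂ)) * (α * (cexp (-ρ * z) * av MM kc z) + β * (cexp (-ρ * z) * BB z)) := by
    funext z
    rw [av_CC]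
    ring
  rw [e, integral_const_mul, integral_add (i1.const_mul _) (i2.const_mul _), integral_const_mul,
    integral_const_mul, e1, e2]
  ring

theorem CC_tr_ne (α β : ℝ) (ρ : ℂ) (hz : riemannZeta ρ = 0) (h0 : 1 / 2 ≤ ρ.re) (h1 : ρ.re < 1)
    (hne : (α : ℂ) + β * riemannZeta (2 * ρ) ≠ 0) : ∫ z : ℝ, cexp (-ρ * z) * av (CC α β) kc z ≠ 0 := by
  rw [CC_tr α β ρ hz h0 h1]
  have hρ : ρ ≠ 0 := by rintro rfl; simp at h0; linarith
  have hL : (Lam α β : ℂ) ≠ 0 := by exact_mod_cast (Lam_pos α β).ne'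
  exact mul_ne_zero (one_div_ne_zero hL) (mul_ne_zero (div_ne_zero (qh_ne ρ (by linarith) h1) hρ) hne)

/-- windows, simple form -/
theorem signsC (α β : ℝ) (ρ : ℂ) (hz : riemannZeta ρ = 0) (h0 : 1 / 2 ≤ ρ.re) (h1 : ρ.re < 1)
    (hne : (α : ℂ) + β * riemannZeta (2 * ρ) ≠ 0) :
    ∃ c : ℝ, 0 < c ∧ ∀ᶠ x : ℝ in atTop, ∀ s : ℝ, s = 1 ∨ s = -1 →
      ∃ y ∈ Icc x (x * Real.log x), c * y ^ ρ.re ≤ s * SS α β y := by
  obtain ⟨E, hE0, hE⟩ := CC_bd α β
  have hL := Lam_pos α β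
  have hP := CC_PP α β
  have hcore := core1 hP E hE ρ hz (by linarith) h1 (CC_tr_ne α β ρ hz h0 h1 hne)
  have hw := win_sup (CC α β) hP.meas hP.bd ρ.re h0 h1.le (fun _ => 1) (Eventually.of_forall fun _ => le_rfl) hcore
  obtain ⟨c, hc, h⟩ := sup_log (CC α β) (β := ρ.re) (Lf := fun _ => 1) hw
  refine ⟨c * Lam α β, by positivity, ?_⟩
  filter_upwards [h] with x hx s hs
  obtain ⟨y, hy, hy2⟩ := hx s hs
  refine ⟨y, hy, ?_⟩
  unfold CC at hy2
  rw [one_mul, mul_div_assoc', le_div_iff₀ hL] at hy2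
  calc c * Lam α β * y ^ ρ.re = c * y ^ ρ.re * Lam α β := by ring
    _ ≤ _ := hy2

theorem signsC2 (α β : ℝ) (ρ : ℂ) (hz : riemannZeta ρ = 0) (hz' : deriv riemannZeta ρ = 0) (h0 : 1 / 2 ≤ ρ.re) (h1 : ρ.re < 1)
    (hne : (α : ℂ) + β * riemannZeta (2 * ρ) ≠ 0) :
    ∃ c : ℝ, 0 < c ∧ ∀ᶠ x : ℝ in atTop, ∀ s : ℝ, s = 1 ∨ s = -1 →
      ∃ y ∈ Icc x (x * Real.log x), c * (y ^ ρ.re * Real.log y) ≤ s * SS α β y := by
  obtain ⟨E, hE0, hE⟩ := CC_bd α β
  have hL := Lam_pos α β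
  have hP := CC_PP α β
  have hcore := core2 hP E hE ρ hz hz' (by linarith) h1 (CC_tr_ne α β ρ hz h0 h1 hne)
  have hw := win_sup (CC α β) hP.meas hP.bd ρ.re h0 h1.le (fun t => t) (eventually_ge_atTop 1) hcore
  obtain ⟨c, hc, h⟩ := sup_log (CC α β) (β := ρ.re) (Lf := fun t => t) hw
  refine ⟨c * Lam α β / 2, by positivity, ?_⟩
  filter_upwards [h, eventually_ge_atTop (Real.exp 1)] with x hx hx1 s hs
  have hx0 : 0 < x := (Real.exp_pos 1).trans_le hx1
  have hl1 : 1 ≤ Real.log x := by rwa [Real.le_log_iff_exp_le hx0]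
  obtain ⟨y, hy, hy2⟩ := hx s hs
  refine ⟨y, hy, ?_⟩
  have hy0 : 0 < y := hx0.trans_le hy.1
  have h5 : Real.log y ≤ 2 * ct (Real.log x) := by
    have h6 : Real.log y ≤ Real.log x + Real.log (Real.log x) := by
      rw [← Real.log_mul hx0.ne' (by linarith)]
      exact Real.log_le_log hy0 hy.2
    have h7 : Real.log (Real.log x) ≤ Real.log x := (Real.log_le_sub_one_of_pos (by linarith)).trans (by linarith)
    have h8 : 0 ≤ Real.log (Real.log x) := Real.log_nonneg hl1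
    unfold ct
    linarith
  have h6 : 0 < y ^ ρ.re := Real.rpow_pos_of_pos hy0 _
  unfold CC at hy2
  rw [mul_div_assoc', le_div_iff₀ hL] at hy2
  calc c * Lam α β / 2 * (y ^ ρ.re * Real.log y) ≤ c * Lam α β / 2 * (y ^ ρ.re * (2 * ct (Real.log x))) :=
        mul_le_mul_of_nonneg_left (mul_le_mul_of_nonneg_left h5 h6.le) (by positivity)
    _ = c * (ct (Real.log x) * y ^ ρ.re) * Lam α β := by ring
    _ ≤ _ := hy2

theorem max_CC (α β s y : ℝ) : (max (s * CC α β y) 0 / y) ^ 2 = (1 / Lam α β ^ 2) * (max (s * SS α β y) 0 / y) ^ 2 := by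
  have hL := Lam_pos α β
  have h1 : max (s * CC α β y) 0 = max (s * SS α β y) 0 / Lam α β := by
    unfold CC
    rw [mul_div_assoc']
    have h2 := max_div_div_right hL.le (s * SS α β y) 0
    rwa [zero_div] at h2
  rw [h1]
  field_simp

theorem sqC1 (α β : ℝ) (ρ : ℂ) (hz : riemannZeta ρ = 0) (h0 : 1 / 2 ≤ ρ.re) (h1 : ρ.re < 1)
    (hne : (α : ℂ) + β * riemannZeta (2 * ρ) ≠ 0) :
    ∃ c : ℝ, 0 < c ∧ ∀ᶠ x : ℝ in atTop, ∀ s : ℝ, s = 1 ∨ s = -1 →
      c * x ^ (2 * ρ.re - 1) ≤ ∫ y in x..(x * Real.log x), (max (s * SS α β y) 0 / y) ^ 2 := by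
  obtain ⟨E, hE0, hE⟩ := CC_bd α β
  have hL := Lam_pos α β
  have hP := CC_PP α β
  have hcore := core1 hP E hE ρ hz (by linarith) h1 (CC_tr_ne α β ρ hz h0 h1 hne)
  have hw := win_sq (CC α β) hP.meas hP.bd ρ.re h0 h1.le (fun _ => 1) (Eventually.of_forall fun _ => le_rfl) hcore
  obtain ⟨c, hc, h⟩ := sq_low (CC α β) hP.meas hP.bd (β := ρ.re) h0 (Lf := fun _ => 1) hw
  refine ⟨c * Lam α β ^ 2, by positivity, ?_⟩
  filter_upwards [h] with x hx s hs
  have h3 := hx s hs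
  simp only [max_CC] at h3
  rw [intervalIntegral.integral_const_mul, one_pow, one_mul, one_div_mul_eq_div, le_div_iff₀ (by positivity)] at h3
  calc c * Lam α β ^ 2 * x ^ (2 * ρ.re - 1) = c * x ^ (2 * ρ.re - 1) * Lam α β ^ 2 := by ring
    _ ≤ _ := h3

theorem sqC2 (α β : ℝ) (ρ : ℂ) (hz : riemannZeta ρ = 0) (hz' : deriv riemannZeta ρ = 0) (h0 : 1 / 2 ≤ ρ.re) (h1 : ρ.re < 1)
    (hne : (α : ℂ) + β * riemannZeta (2 * ρ) ≠ 0) :
    ∃ c : ℝ, 0 < c ∧ ∀ᶠ x : ℝ in atTop, ∀ s : ℝ, s = 1 ∨ s = -1 →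
      c * ((Real.log x) ^ 2 * x ^ (2 * ρ.re - 1)) ≤ ∫ y in x..(x * Real.log x), (max (s * SS α β y) 0 / y) ^ 2 := by
  obtain ⟨E, hE0, hE⟩ := CC_bd α β
  have hL := Lam_pos α β
  have hP := CC_PP α β
  have hcore := core2 hP E hE ρ hz hz' (by linarith) h1 (CC_tr_ne α β ρ hz h0 h1 hne)
  have hw := win_sq (CC α β) hP.meas hP.bd ρ.re h0 h1.le (fun t => t) (eventually_ge_atTop 1) hcore
  obtain ⟨c, hc, h⟩ := sq_low (CC α β) hP.meas hP.bd (β := ρ.re) h0 (Lf := fun t => t) hw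
  refine ⟨c * Lam α β ^ 2, by positivity, ?_⟩
  filter_upwards [h, eventually_ge_atTop (Real.exp 1)] with x hx hx1 s hs
  have hx0 : 0 < x := (Real.exp_pos 1).trans_le hx1
  have hl1 : 1 ≤ Real.log x := by rwa [Real.le_log_iff_exp_le hx0]
  have h3 := hx s hs
  simp only [max_CC] at h3
  rw [intervalIntegral.integral_const_mul, one_div_mul_eq_div, le_div_iff₀ (by positivity)] at h3
  refine le_trans ?_ h3
  have h4 : (Real.log x) ^ 2 ≤ (ct (Real.log x)) ^ 2 := by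
    refine pow_le_pow_left₀ (by linarith) ?_ 2
    unfold ct
    have h8 : 0 ≤ Real.log (Real.log x) := Real.log_nonneg hl1
    linarith
  have h5 : (Real.log x) ^ 2 * x ^ (2 * ρ.re - 1) ≤ (ct (Real.log x)) ^ 2 * x ^ (2 * ρ.re - 1) :=
    mul_le_mul_of_nonneg_right h4 (Real.rpow_nonneg hx0.le _)
  calc c * Lam α β ^ 2 * ((Real.log x) ^ 2 * x ^ (2 * ρ.re - 1)) ≤
        c * Lam α β ^ 2 * ((ct (Real.log x)) ^ 2 * x ^ (2 * ρ.re - 1)) := mul_le_mul_of_nonneg_left h5 (by positivity)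
    _ = _ := by ring

end

end TH299.LV
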