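import Pool.Agent.TH299.LV.W

/-!
# Averages against kernels, general function
-/

open Complex MeasureTheory Filter Topology Set Metric H313.TK

set_option linter.unusedSectionVars false
set_option linter.unusedVariables false
set_option autoImplicit false

namespace TH299.LV

noncomputable section

/-- admissible functions -/
structure PP (Ph : ℝ → ℝ) : Prop where
  meas : Measurable Ph
  bd : ∀ u, |ff Ph u| ≤ Real.exp u
  zero : ∀ u, u < 0 → ff Ph u = 0

/-- average against a kernel -/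
def av (Ph : ℝ → ℝ) (k : ℝ → ℂ) (t : ℝ) : ℂ := ∫ v : ℝ, (ff Ph (t - v) : ℂ) * k v

theorem DK_bd3 {k : ℝ → ℂ} (hk : DK k) : ∃ C : ℝ, 0 ≤ C ∧ ∀ v, ‖k v‖ ≤ C * Real.exp (-(3 * |v|)) := by
  obtain ⟨C, hC, hb⟩ := hk.bd
  refine ⟨C * 4, by positivity, fun v => (hb v).trans ?_⟩
  rw [mul_assoc]
  refine mul_le_mul_of_nonneg_left ?_ hC
  have h1 := W_decay v
  have h2 : Real.exp (-(3 * |v|)) = Real.exp (-|v|) * Real.exp (-(2 * |v|)) := by
    rw [← Real.exp_add]; congr 1; ring
  rw [h2, ← mul_assoc]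
  have h3 : W v = W v * Real.exp (2 * |v|) * Real.exp (-(2 * |v|)) := by
    rw [mul_assoc, ← Real.exp_add, add_neg_cancel, Real.exp_zero, mul_one]
  rw [h3]
  exact mul_le_mul_of_nonneg_right h1 (Real.exp_pos _).le

theorem av_int {Ph : ℝ → ℝ} (h : PP Ph) {k : ℝ → ℂ} (hk : DK k) (t : ℝ) :
    Integrable (fun v : ℝ => (ff Ph (t - v) : ℂ) * k v) := by
  obtain ⟨C, hC, hb⟩ := hk.bd
  refine ((int_exp_abs 1 one_pos).const_mul (C * (4 * Real.exp t))).mono' ?_ (ae_of_all _ fun v => ?_)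
  · have h1 := ff_meas h.meas
    have h2 := hk.cont.measurable
    exact (by fun_prop : Measurable fun v : ℝ => (ff Ph (t - v) : ℂ) * k v).aestronglyMeasurable
  · rw [norm_mul, Complex.norm_real, Real.norm_eq_abs]
    calc |ff Ph (t - v)| * ‖k v‖ ≤ Real.exp (t - v) * (C * W v) :=
          mul_le_mul (h.bd _) (hb v) (norm_nonneg _) (Real.exp_pos _).le
      _ = C * (Real.exp (t - v) * W v) := by ring
      _ ≤ C * (4 * Real.exp t * Real.exp (-(1 * |v|))) := mul_le_mul_of_nonneg_left (kpW t v) hC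
      _ = _ := by ring

theorem av_meas {Ph : ℝ → ℝ} (h : PP Ph) {k : ℝ → ℂ} (hk : Continuous k) : Measurable (av Ph k) := by
  have h1 := ff_meas h.meas
  have h3 := hk.measurable
  have h2 : StronglyMeasurable (fun p : ℝ × ℝ => (ff Ph (p.1 - p.2) : ℂ) * k p.2) :=
    (by fun_prop : Measurable fun p : ℝ × ℝ => (ff Ph (p.1 - p.2) : ℂ) * k p.2).stronglyMeasurable
  exact h2.integral_prod_right'.measurable

theorem av_decay {Ph : ℝ → ℝ} (h : PP Ph) {k : ℝ → ℂ} (hk : DK k) :
    ∃ C : ℝ, 0 ≤ C ∧ ∀ t ≤ 0, ‖av Ph k t‖ ≤ C * Real.exp (2 * t) := by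
  obtain ⟨C, hC, hb⟩ := DK_bd3 hk
  refine ⟨C, hC, fun t ht => ?_⟩
  have h1 : ‖av Ph k t‖ ≤ ∫ v, (Iic t).indicator (fun v => C * Real.exp t * Real.exp (2 * v)) v := by
    refine norm_integral_le_of_norm_le ?_ (ae_of_all _ fun v => ?_)
    · rw [integrable_indicator_iff measurableSet_Iic]
      exact (integrableOn_exp_mul_Iic (by norm_num) t).const_mul _
    · by_cases hv : v ≤ t
      · rw [indicator_of_mem (show v ∈ Iic t from hv), norm_mul, Complex.norm_real, Real.norm_eq_abs]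
        have h2 := hb v
        rw [abs_of_nonpos (hv.trans ht)] at h2
        calc |ff Ph (t - v)| * ‖k v‖ ≤ Real.exp (t - v) * (C * Real.exp (-(3 * -v))) :=
              mul_le_mul (h.bd _) h2 (norm_nonneg _) (Real.exp_pos _).le
          _ = C * (Real.exp (t - v) * Real.exp (-(3 * -v))) := by ring
          _ = C * (Real.exp t * Real.exp (2 * v)) := by rw [← Real.exp_add, ← Real.exp_add]; congr 2; ring
          _ = _ := by ring
      · rw [indicator_of_notMem (show v ∉ Iic t from hv), h.zero (t - v) (by linarith [not_le.1 hv])]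
        simp
  rw [integral_indicator measurableSet_Iic, integral_const_mul, integral_exp_mul_Iic (by norm_num)] at h1
  refine h1.trans ?_
  have h3 : Real.exp t ≤ 1 := Real.exp_le_one_iff.2 ht
  have h4 : 0 ≤ C * Real.exp (2 * t) := by positivity
  calc C * Real.exp t * (Real.exp (2 * t) / 2) = (C * Real.exp (2 * t)) * (Real.exp t / 2) := by ring
    _ ≤ (C * Real.exp (2 * t)) * 1 := mul_le_mul_of_nonneg_left (by linarith) h4
    _ = _ := mul_one _

theorem Ist_conv (ρ : ℂ) (g : ℝ → ℂ) (v : ℝ) :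
    Ist ρ g v = ∫ w : ℝ, (Ici (0:ℝ)).indicator (fun w : ℝ => cexp (ρ * w)) w * g (v - w) := by
  have h := integral_sub_left_eq_self (fun z => (Iic v).indicator (fun z : ℝ => cexp (ρ * v) * (cexp (-ρ * z) * g z)) z) volume v
  unfold Ist
  rw [← integral_const_mul, ← integral_indicator measurableSet_Iic, ← h]
  refine integral_congr_ae (ae_of_all _ fun w => ?_)
  simp only
  by_cases hw : 0 ≤ w
  · rw [indicator_of_mem (show v - w ∈ Iic v by show v - w ≤ v; linarith),
      indicator_of_mem (show w ∈ Ici (0:ℝ) from hw), ← mul_assoc, ← Complex.exp_add]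
    congr 2
    push_cast
    ring
  · rw [indicator_of_notMem (show v - w ∉ Iic v by
      intro h2
      have : v - w ≤ v := h2
      exact hw (by linarith)), indicator_of_notMem (show w ∉ Ici (0:ℝ) from hw), zero_mul]

/-- averages commute with the operator -/
theorem av_Ist {Ph : ℝ → ℝ} (h : PP Ph) {k : ℝ → ℂ} (hk : DK k) (ρ : ℂ) (hρ : ρ.re < 2) (t : ℝ) :
    av Ph (Ist ρ k) t = Ist ρ (av Ph k) t := by
  obtain ⟨C, hC, hb⟩ := DK_bd3 hk
  set F : ℝ → ℝ → ℂ := fun v w => (ff Ph (t - v) : ℂ) *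
    ((Ici (0:ℝ)).indicator (fun w : ℝ => cexp (ρ * w)) w * k (v - w)) with hF
  have hFi : Integrable (Function.uncurry F) (volume.prod volume) := by
    refine Integrable.mono' (g := fun p : ℝ × ℝ => ((Iic t).indicator (fun v => Real.exp t * Real.exp (2 * v)) p.1) *
      ((Ici (0:ℝ)).indicator (fun w => C * Real.exp ((ρ.re - 3) * w)) p.2)) ?_ ?_ (ae_of_all _ fun p => ?_)
    · refine Integrable.mul_prod ?_ ?_
      · rw [integrable_indicator_iff measurableSet_Iic]
        exact (integrableOn_exp_mul_Iic (by norm_num) t).const_mul _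
      · rw [integrable_indicator_iff measurableSet_Ici, integrableOn_Ici_iff_integrableOn_Ioi]
        exact (integrableOn_exp_mul_Ioi (by linarith) 0).const_mul _
    · have h1 := ff_meas h.meas
      have h2 := hk.cont.measurable
      have h3 : Measurable ((Ici (0:ℝ)).indicator (fun w : ℝ => cexp (ρ * w))) :=
        (by fun_prop : Measurable fun w : ℝ => cexp (ρ * w)).indicator measurableSet_Ici
      exact (by fun_prop : Measurable fun p : ℝ × ℝ => (ff Ph (t - p.1) : ℂ) *
        ((Ici (0:ℝ)).indicator (fun w : ℝ => cexp (ρ * w)) p.2 * k (p.1 - p.2))).aestronglyMeasurable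
    · obtain ⟨v, w⟩ := p
      simp only [Function.uncurry, hF]
      by_cases hv : v ≤ t
      · by_cases hw : 0 ≤ w
        · rw [indicator_of_mem (show v ∈ Iic t from hv), indicator_of_mem (show w ∈ Ici (0:ℝ) from hw),
            indicator_of_mem (show w ∈ Ici (0:ℝ) from hw), norm_mul, norm_mul, Complex.norm_real, Real.norm_eq_abs,
            norm_tw']
          have h2 : ‖k (v - w)‖ ≤ C * Real.exp (3 * (v - w)) := by
            refine (hb _).trans (mul_le_mul_of_nonneg_left (Real.exp_le_exp.2 ?_) hC)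
            have := neg_abs_le (v - w)
            linarith
          calc |ff Ph (t - v)| * (Real.exp (ρ.re * w) * ‖k (v - w)‖) ≤
                Real.exp (t - v) * (Real.exp (ρ.re * w) * (C * Real.exp (3 * (v - w)))) :=
                mul_le_mul (h.bd _) (mul_le_mul_of_nonneg_left h2 (Real.exp_pos _).le) (by positivity)
                  (Real.exp_pos _).le
            _ = C * (Real.exp (t - v) * (Real.exp (ρ.re * w) * Real.exp (3 * (v - w)))) := by ring
            _ = C * ((Real.exp t * Real.exp (2 * v)) * Real.exp ((ρ.re - 3) * w)) := by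
                rw [← Real.exp_add, ← Real.exp_add, ← Real.exp_add, ← Real.exp_add]
                congr 2
                ring
            _ = _ := by ring
        · rw [indicator_of_notMem (show w ∉ Ici (0:ℝ) from hw), indicator_of_notMem (show w ∉ Ici (0:ℝ) from hw)]
          simp
      · rw [indicator_of_notMem (show v ∉ Iic t from hv), h.zero (t - v) (by linarith [not_le.1 hv])]
        simp
  have e1 : av Ph (Ist ρ k) t = ∫ v, ∫ w, F v w := by
    unfold av
    refine integral_congr_ae (ae_of_all _ fun v => ?_)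
    simp only [hF]
    rw [Ist_conv, ← integral_const_mul]
  have e2 : Ist ρ (av Ph k) t = ∫ w, ∫ v, F v w := by
    rw [Ist_conv]
    refine integral_congr_ae (ae_of_all _ fun w => ?_)
    simp only [hF]
    unfold av
    rw [← integral_const_mul, ← integral_sub_right_eq_self (fun v => (Ici (0:ℝ)).indicator
      (fun w : ℝ => cexp (ρ * w)) w * ((ff Ph (t - w - v) : ℂ) * k v)) w]
    refine integral_congr_ae (ae_of_all _ fun v => ?_)
    simp only
    rw [show t - w - (v - w) = t - v by ring]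
    ring
  rw [e1, e2, integral_integral_swap hFi]

theorem int_tw {a : ℝ → ℂ} (ham : Measurable a) (C : ℝ) (hb : ∀ t, 0 ≤ t → ‖a t‖ ≤ C)
    (hd : ∀ t ≤ 0, ‖a t‖ ≤ C * Real.exp (2 * t)) (ρ : ℂ) (h0 : 0 < ρ.re) (h1 : ρ.re < 2) :
    Integrable (fun z : ℝ => cexp (-ρ * z) * a z) := by
  rw [← integrableOn_univ, ← Iic_union_Ioi (a := (0:ℝ)), integrableOn_union]
  constructor
  · refine Integrable.mono' ((integrableOn_exp_mul_Iic (sub_pos.2 h1) 0).const_mul C) ?_ ?_
    · exact (by fun_prop : Measurable fun z : ℝ => cexp (-ρ * z) * a z).aestronglyMeasurable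
    · refine (ae_restrict_iff' measurableSet_Iic).2 (ae_of_all _ fun z hz => ?_)
      rw [norm_mul, norm_tw]
      calc Real.exp (-ρ.re * z) * ‖a z‖ ≤ Real.exp (-ρ.re * z) * (C * Real.exp (2 * z)) :=
            mul_le_mul_of_nonneg_left (hd z hz) (Real.exp_pos _).le
        _ = C * (Real.exp (-ρ.re * z) * Real.exp (2 * z)) := by ring
        _ = _ := by rw [← Real.exp_add]; congr 2; ring
  · refine Integrable.mono' ((integrableOn_exp_mul_Ioi (neg_lt_zero.2 h0) 0).const_mul C) ?_ ?_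
    · exact (by fun_prop : Measurable fun z : ℝ => cexp (-ρ * z) * a z).aestronglyMeasurable
    · refine (ae_restrict_iff' measurableSet_Ioi).2 (ae_of_all _ fun z hz => ?_)
      rw [norm_mul, norm_tw, mul_comm]
      exact mul_le_mul_of_nonneg_right (hb z (le_of_lt hz)) (Real.exp_pos _).le

/-- one application of the operator -/
theorem asy1 {a : ℝ → ℂ} (ham : Measurable a) (C : ℝ) (hC : 0 ≤ C) (hb : ∀ t, ‖a t‖ ≤ C)
    (hd : ∀ t ≤ 0, ‖a t‖ ≤ C * Real.exp (2 * t)) (ρ : ℂ) (h0 : 0 < ρ.re) (h1 : ρ.re < 2) (t : ℝ) :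
    ‖Ist ρ a t - (∫ z : ℝ, cexp (-ρ * z) * a z) * cexp (ρ * t)‖ ≤ C / ρ.re := by
  have hi := int_tw ham C (fun t _ => hb t) hd ρ h0 h1
  have e2 := intervalIntegral.integral_Iic_add_Ioi (b := t) hi.integrableOn hi.integrableOn
  have e3 : Ist ρ a t - (∫ z : ℝ, cexp (-ρ * z) * a z) * cexp (ρ * t) =
      -(cexp (ρ * t) * ∫ z in Ioi t, cexp (-ρ * z) * a z) := by
    unfold Ist
    rw [← e2]
    ring
  rw [e3, norm_neg, norm_mul, norm_tw']
  have e4 : ‖∫ y in Ioi t, cexp (-ρ * y) * a y‖ ≤ ∫ y in Ioi t, C * Real.exp (-ρ.re * y) := by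
    refine norm_integral_le_of_norm_le ((integrableOn_exp_mul_Ioi (neg_lt_zero.2 h0) t).const_mul C) ?_
    refine (ae_restrict_iff' measurableSet_Ioi).2 (ae_of_all _ fun y hy => ?_)
    rw [norm_mul, norm_tw, mul_comm]
    exact mul_le_mul_of_nonneg_right (hb y) (Real.exp_pos _).le
  rw [integral_const_mul, integral_exp_mul_Ioi (neg_lt_zero.2 h0)] at e4
  refine (mul_le_mul_of_nonneg_left e4 (Real.exp_pos _).le).trans (le_of_eq ?_)
  have e5 : Real.exp (ρ.re * t) * Real.exp (-ρ.re * t) = 1 := by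
    rw [← Real.exp_add, show ρ.re * t + -ρ.re * t = 0 by ring, Real.exp_zero]
  rw [neg_div_neg_eq]
  calc Real.exp (ρ.re * t) * (C * (Real.exp (-ρ.re * t) / ρ.re)) =
        (Real.exp (ρ.re * t) * Real.exp (-ρ.re * t)) * (C / ρ.re) := by ring
    _ = _ := by rw [e5, one_mul]

/-- two applications of the operator -/
theorem asy2 {a : ℝ → ℂ} (ham : Measurable a) (C1 C2 : ℝ) (A : ℂ) (hC2 : 0 ≤ C2) (ρ : ℂ) (h0 : 0 < ρ.re) (h1 : ρ.re < 2)
    (hb : ∀ t, 0 ≤ t → ‖a t - A * cexp (ρ * t)‖ ≤ C2) (hd : ∀ t ≤ 0, ‖a t‖ ≤ C1 * Real.exp (2 * t)) :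
    ∃ C3 : ℝ, 0 ≤ C3 ∧ ∀ t, 0 ≤ t → ‖Ist ρ a t - A * (t * cexp (ρ * t))‖ ≤ C3 * Real.exp (ρ.re * t) := by
  have hm : Measurable fun z : ℝ => cexp (-ρ * z) * a z := by fun_prop
  have hpt : ∀ z : ℝ, 0 ≤ z → ‖cexp (-ρ * z) * a z - A‖ ≤ C2 * Real.exp (-ρ.re * z) := by
    intro z hz
    have h2 : cexp (-ρ * z) * a z - A = cexp (-ρ * z) * (a z - A * cexp (ρ * z)) := by
      have h3 : cexp (-ρ * z) * cexp (ρ * z) = 1 := by
        rw [← Complex.exp_add, show -ρ * (z:ℂ) + ρ * z = 0 by ring, Complex.exp_zero]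
      linear_combination A * h3
    rw [h2, norm_mul, norm_tw, mul_comm]
    exact mul_le_mul_of_nonneg_right (hb z hz) (Real.exp_pos _).le
  have hI0 : IntegrableOn (fun z : ℝ => cexp (-ρ * z) * a z) (Iic 0) := by
    refine Integrable.mono' ((integrableOn_exp_mul_Iic (sub_pos.2 h1) 0).const_mul C1) hm.aestronglyMeasurable ?_
    refine (ae_restrict_iff' measurableSet_Iic).2 (ae_of_all _ fun z hz => ?_)
    rw [norm_mul, norm_tw]
    calc Real.exp (-ρ.re * z) * ‖a z‖ ≤ Real.exp (-ρ.re * z) * (C1 * Real.exp (2 * z)) :=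
          mul_le_mul_of_nonneg_left (hd z hz) (Real.exp_pos _).le
      _ = C1 * (Real.exp (-ρ.re * z) * Real.exp (2 * z)) := by ring
      _ = _ := by rw [← Real.exp_add]; congr 2; ring
  have hII : ∀ t : ℝ, 0 ≤ t → IntegrableOn (fun z : ℝ => cexp (-ρ * z) * a z) (Ioc 0 t) := by
    intro t ht
    refine Measure.integrableOn_of_bounded (M := ‖A‖ + C2) (by simp) hm.aestronglyMeasurable ?_
    refine (ae_restrict_iff' measurableSet_Ioc).2 (ae_of_all _ fun z hz => ?_)
    have h2 := hpt z hz.1.le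
    have h3 : Real.exp (-ρ.re * z) ≤ 1 := Real.exp_le_one_iff.2 (by nlinarith [hz.1])
    calc ‖cexp (-ρ * z) * a z‖ = ‖A + (cexp (-ρ * z) * a z - A)‖ := by congr 1; ring
      _ ≤ ‖A‖ + ‖cexp (-ρ * z) * a z - A‖ := norm_add_le _ _
      _ ≤ ‖A‖ + C2 := by nlinarith
  set I0 : ℂ := ∫ z in Iic (0:ℝ), cexp (-ρ * z) * a z with hI0'
  refine ⟨‖I0‖ + C2 / ρ.re, by positivity, fun t ht => ?_⟩
  have hIt : IntegrableOn (fun z : ℝ => cexp (-ρ * z) * a z) (Iic t) := by
    rw [← Iic_union_Ioc_eq_Iic ht]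
    exact hI0.union (hII t ht)
  have e1 := intervalIntegral.integral_Iic_sub_Iic hI0 hIt
  have hii : IntervalIntegrable (fun z : ℝ => cexp (-ρ * z) * a z) volume 0 t := by
    rw [intervalIntegrable_iff_integrableOn_Ioc_of_le ht]
    exact hII t ht
  have e3 : ‖∫ y in (0:ℝ)..t, (cexp (-ρ * y) * a y - A)‖ ≤ ∫ y in (0:ℝ)..t, C2 * Real.exp (-ρ.re * y) := by
    refine intervalIntegral.norm_integral_le_of_norm_le ht (ae_of_all _ fun y hy => hpt y hy.1.le)
      ((by fun_prop : Continuous fun y : ℝ => C2 * Real.exp (-ρ.re * y)).intervalIntegrable _ _)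
  have e4 : ∫ y in (0:ℝ)..t, C2 * Real.exp (-ρ.re * y) ≤ C2 / ρ.re := by
    rw [intervalIntegral.integral_const_mul]
    have h5 : ∫ y in (0:ℝ)..t, Real.exp (-ρ.re * y) = 1 / ρ.re - Real.exp (-ρ.re * t) / ρ.re := by
      have h : ∀ z : ℝ, HasDerivAt (fun z : ℝ => -(Real.exp (-ρ.re * z) / ρ.re)) (Real.exp (-ρ.re * z)) z := by
        intro z
        have h1 : HasDerivAt (fun z : ℝ => -ρ.re * z) (-ρ.re * 1) z := (hasDerivAt_id z).const_mul (-ρ.re)
        refine ((h1.exp.div_const ρ.re).neg).congr_deriv ?_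
        field_simp
      rw [intervalIntegral.integral_eq_sub_of_hasDerivAt (fun z _ => h z)
        ((by fun_prop : Continuous fun y : ℝ => Real.exp (-ρ.re * y)).intervalIntegrable _ _)]
      simp
      ring
    rw [h5]
    have h6 : 0 ≤ Real.exp (-ρ.re * t) / ρ.re := by positivity
    calc C2 * (1 / ρ.re - Real.exp (-ρ.re * t) / ρ.re) ≤ C2 * (1 / ρ.re) :=
          mul_le_mul_of_nonneg_left (by linarith) hC2
      _ = _ := by ring
  rw [intervalIntegral.integral_sub hii intervalIntegrable_const, intervalIntegral.integral_const] at e3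
  have e5 : Ist ρ a t - A * (t * cexp (ρ * t)) = cexp (ρ * t) * (I0 +
      ((∫ y in (0:ℝ)..t, cexp (-ρ * y) * a y) - (t - 0) • A)) := by
    unfold Ist
    rw [← e1, hI0', sub_zero, Complex.real_smul]
    ring
  rw [e5, norm_mul, norm_tw', mul_comm]
  refine mul_le_mul_of_nonneg_right ?_ (Real.exp_pos _).le
  exact (norm_add_le _ _).trans (add_le_add le_rfl (e3.trans e4))

end

end TH299.LV
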