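import Pool.Agent.TH299.LV.F

/-!
# Core inequality, general function
-/

open Complex MeasureTheory Filter Topology Set Metric H313.TK

set_option linter.unusedSectionVars false
set_option linter.unusedVariables false
set_option autoImplicit false

namespace TH299.LV

noncomputable section

theorem av_kp {Ph : ℝ → ℝ} (t : ℝ) : av Ph kc t = ((∫ v : ℝ, ff Ph (t - v) * kp v : ℝ) : ℂ) := by
  unfold av
  rw [← integral_complex_ofReal]
  refine integral_congr_ae (ae_of_all _ fun v => ?_)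
  simp [kc]

/-- from a twisted average to both parts -/
theorem parts {Ph : ℝ → ℝ} (h : PP Ph) (E : ℝ) (hE : ∀ t, ‖av Ph kc t‖ ≤ E) {k : ℝ → ℂ} (hD : DK k) :
    ∃ c : ℝ, 0 < c ∧ ∃ C : ℝ, ∀ t : ℝ, ∀ s : ℝ, s = 1 ∨ s = -1 →
    c * ‖av Ph k t‖ - C ≤ ∫ v : ℝ, max (s * ff Ph (t - v)) 0 * kp v := by
  obtain ⟨B, hB, hb⟩ := hD.bd
  refine ⟨1 / (4 * (B + 1)), by positivity, E / 2, fun t s hs => ?_⟩
  have hm := ff_meas h.meas
  have i1 := avg_int (ff Ph) hm h.bd t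
  have i2 : Integrable (fun v => |ff Ph (t - v)| * kp v) :=
    avg_int (fun u => |ff Ph u|) (by fun_prop) (fun u => by rw [abs_abs]; exact h.bd u) t
  have i3 : Integrable (fun v => max (s * ff Ph (t - v)) 0 * kp v) :=
    avg_int (fun u => max (s * ff Ph u) 0) (by fun_prop) (fun u => (part_le s hs _).trans (h.bd u)) t
  have e1 : ∫ v, |ff Ph (t - v)| * kp v = 2 * (∫ v, max (s * ff Ph (t - v)) 0 * kp v) - s * ∫ v, ff Ph (t - v) * kp v := by
    rw [← integral_const_mul, ← integral_const_mul, ← integral_sub (i3.const_mul 2) (i1.const_mul s)]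
    refine integral_congr_ae (ae_of_all _ fun v => ?_)
    simp only
    rw [part_id s hs (ff Ph (t - v))]
    ring
  have e2 := hE t
  rw [av_kp, Complex.norm_real, Real.norm_eq_abs] at e2
  have e3 : |s * ∫ v, ff Ph (t - v) * kp v| ≤ E := by
    rw [abs_mul]
    have : |s| = 1 := by rcases hs with h | h <;> rw [h] <;> simp
    rw [this, one_mul]
    exact e2
  have e4 : ‖av Ph k t‖ ≤ (2 * (B + 1)) * ∫ v, |ff Ph (t - v)| * kp v := by
    unfold av
    rw [← integral_const_mul]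
    refine norm_integral_le_of_norm_le (i2.const_mul _) (ae_of_all _ fun v => ?_)
    rw [norm_mul, Complex.norm_real, Real.norm_eq_abs]
    have h5 : ‖k v‖ ≤ 2 * (B + 1) * kp v := by
      refine (hb v).trans ?_
      have h6 := (kp_bounds v).1
      have h7 := W_pos v
      nlinarith
    calc |ff Ph (t - v)| * ‖k v‖ ≤ |ff Ph (t - v)| * (2 * (B + 1) * kp v) :=
          mul_le_mul_of_nonneg_left h5 (abs_nonneg _)
      _ = _ := by ring
  have e5 := (abs_le.1 e3).1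
  have hB1 : 0 < B + 1 := by linarith
  rw [e1] at e4
  have e6 : 1 / (4 * (B + 1)) * ‖av Ph k t‖ ≤
      1 / (4 * (B + 1)) * (2 * (B + 1) * (2 * (∫ v, max (s * ff Ph (t - v)) 0 * kp v) - s * ∫ v, ff Ph (t - v) * kp v)) :=
    mul_le_mul_of_nonneg_left e4 (by positivity)
  have e7 : 1 / (4 * (B + 1)) * (2 * (B + 1) * (2 * (∫ v, max (s * ff Ph (t - v)) 0 * kp v) - s * ∫ v, ff Ph (t - v) * kp v))
      = (∫ v, max (s * ff Ph (t - v)) 0 * kp v) - (s * ∫ v, ff Ph (t - v) * kp v) / 2 := by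
    field_simp
    ring
  rw [e7] at e6
  linarith

/-- **Core inequality.** -/
theorem core1 {Ph : ℝ → ℝ} (h : PP Ph) (E : ℝ) (hE : ∀ t, ‖av Ph kc t‖ ≤ E)
    (ρ : ℂ) (hz : riemannZeta ρ = 0) (h0 : 0 < ρ.re) (h1 : ρ.re < 1)
    (hA : ∫ z : ℝ, cexp (-ρ * z) * av Ph kc z ≠ 0) :
    ∃ c : ℝ, 0 < c ∧ ∀ᶠ t : ℝ in atTop, ∀ s : ℝ, s = 1 ∨ s = -1 →
      c * ((fun _ : ℝ => (1:ℝ)) t * Real.exp (ρ.re * t)) ≤ ∫ v : ℝ, max (s * ff Ph (t - v)) 0 * kp v := by
  have hρ : ρ ≠ 0 := by rintro rfl; simp at h0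
  have hre : |ρ.re| ≤ 2 := by rw [abs_of_pos h0]; linarith
  have hD : DK (Ist ρ kc) := Ist_DK kc_DK ρ hre (Kh_zero ρ hz h0 h1)
  obtain ⟨c, hc, C, hcore⟩ := parts h E hE hD
  obtain ⟨C1, hC1, hdec⟩ := av_decay h kc_DK
  have hE0 : 0 ≤ E := (norm_nonneg _).trans (hE 0)
  set M : ℝ := max E C1 with hM
  have hasy := asy1 (av_meas h kc_DK.cont) M (hE0.trans (le_max_left _ _)) (fun t => (hE t).trans (le_max_left _ _))
    (fun t ht => (hdec t ht).trans (mul_le_mul_of_nonneg_right (le_max_right _ _) (Real.exp_pos _).le)) ρ h0 (by linarith)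
  set A : ℂ := ∫ z : ℝ, cexp (-ρ * z) * av Ph kc z with hA'
  have hA0 : 0 < ‖A‖ := norm_pos_iff.2 hA
  refine ⟨c * ‖A‖ / 2, by positivity, ?_⟩
  have hlim : Tendsto (fun t : ℝ => c * ‖A‖ / 2 * Real.exp (ρ.re * t)) atTop atTop := by
    have h3 : Tendsto (fun t : ℝ => ρ.re * t) atTop atTop := Tendsto.const_mul_atTop h0 tendsto_id
    exact Tendsto.const_mul_atTop (by positivity) (Real.tendsto_exp_atTop.comp h3)
  filter_upwards [hlim.eventually_ge_atTop (c * (M / ρ.re) + |C|)] with t ht1 s hs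
  have k1 := hcore t s hs
  rw [av_Ist h kc_DK ρ (by linarith)] at k1
  have k2 := hasy t
  have k3 : ‖A‖ * Real.exp (ρ.re * t) - M / ρ.re ≤ ‖Ist ρ (av Ph kc) t‖ := by
    have k4 : ‖A * cexp (ρ * t)‖ = ‖A‖ * Real.exp (ρ.re * t) := by rw [norm_mul, norm_tw']
    have k5 : ‖A * cexp (ρ * t)‖ ≤ ‖Ist ρ (av Ph kc) t‖ + ‖Ist ρ (av Ph kc) t - A * cexp (ρ * t)‖ := by
      rw [← norm_neg (Ist ρ (av Ph kc) t - A * cexp (ρ * t))]
      refine le_trans (le_of_eq ?_) (norm_add_le _ _)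
      congr 1
      ring
    rw [k4] at k5
    linarith
  have k6 := mul_le_mul_of_nonneg_left k3 hc.le
  have k8 := le_abs_self C
  simp only [one_mul]
  nlinarith

/-- **Core inequality for multiple zeros.** -/
theorem core2 {Ph : ℝ → ℝ} (h : PP Ph) (E : ℝ) (hE : ∀ t, ‖av Ph kc t‖ ≤ E)
    (ρ : ℂ) (hz : riemannZeta ρ = 0) (hz' : deriv riemannZeta ρ = 0) (h0 : 0 < ρ.re) (h1 : ρ.re < 1)
    (hA : ∫ z : ℝ, cexp (-ρ * z) * av Ph kc z ≠ 0) :
    ∃ c : ℝ, 0 < c ∧ ∀ᶠ t : ℝ in atTop, ∀ s : ℝ, s = 1 ∨ s = -1 →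
      c * (t * Real.exp (ρ.re * t)) ≤ ∫ v : ℝ, max (s * ff Ph (t - v)) 0 * kp v := by
  have hρ : ρ ≠ 0 := by rintro rfl; simp at h0
  have hre : |ρ.re| ≤ 2 := by rw [abs_of_pos h0]; linarith
  have hre1 : |ρ.re| ≤ 1 := by rw [abs_of_pos h0]; linarith
  have hK0 := Kh_zero ρ hz h0 h1
  have hD1 : DK (Ist ρ kc) := Ist_DK kc_DK ρ hre hK0
  have hm := Ist_moment kc_DK ρ hre1 hK0 (Kh_double ρ hz hz' h0 h1)
  have hD : DK (Ist ρ (Ist ρ kc)) := Ist_DK hD1 ρ hre hm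
  obtain ⟨c, hc, C, hcore⟩ := parts h E hE hD
  obtain ⟨C1, hC1, hdec⟩ := av_decay h kc_DK
  obtain ⟨C2, hC2, hdec2⟩ := av_decay h hD1
  have hE0 : 0 ≤ E := (norm_nonneg _).trans (hE 0)
  set M : ℝ := max E C1 with hM
  have hM0 : 0 ≤ M := hE0.trans (le_max_left _ _)
  have hasy := asy1 (av_meas h kc_DK.cont) M hM0 (fun t => (hE t).trans (le_max_left _ _))
    (fun t ht => (hdec t ht).trans (mul_le_mul_of_nonneg_right (le_max_right _ _) (Real.exp_pos _).le)) ρ h0 (by linarith)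
  set A : ℂ := ∫ z : ℝ, cexp (-ρ * z) * av Ph kc z with hA'
  have hA0 : 0 < ‖A‖ := norm_pos_iff.2 hA
  have heq : ∀ t, av Ph (Ist ρ kc) t = Ist ρ (av Ph kc) t := fun t => av_Ist h kc_DK ρ (by linarith) t
  obtain ⟨C3, hC3, hasy2⟩ := asy2 (av_meas h hD1.cont) C2 (M / ρ.re) A (by positivity) ρ h0 (by linarith)
    (fun t _ => by rw [heq]; exact hasy t) hdec2
  refine ⟨c * ‖A‖ / 2, by positivity, ?_⟩
  filter_upwards [eventually_ge_atTop ((c * C3 + |C|) / (c * ‖A‖ / 2)), eventually_ge_atTop (1:ℝ)]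
    with t ht1 ht2 s hs
  have ht0 : 0 < t := by linarith
  rw [div_le_iff₀ (by positivity)] at ht1
  have k1 := hcore t s hs
  rw [av_Ist h hD1 ρ (by linarith)] at k1
  have k2 := hasy2 t ht0.le
  set X : ℂ := Ist ρ (av Ph (Ist ρ kc)) t with hX
  have hEx : 1 ≤ Real.exp (ρ.re * t) := Real.one_le_exp (by positivity)
  have k3 : ‖A‖ * (t * Real.exp (ρ.re * t)) - C3 * Real.exp (ρ.re * t) ≤ ‖X‖ := by
    have k4 : ‖A * (t * cexp (ρ * t))‖ = ‖A‖ * (t * Real.exp (ρ.re * t)) := by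
      rw [norm_mul, norm_mul, norm_tw', Complex.norm_real, Real.norm_eq_abs, abs_of_pos ht0]
    have k5 : ‖A * (t * cexp (ρ * t))‖ ≤ ‖X‖ + ‖X - A * (t * cexp (ρ * t))‖ := by
      rw [← norm_neg (X - A * (t * cexp (ρ * t)))]
      refine le_trans (le_of_eq ?_) (norm_add_le _ _)
      congr 1
      ring
    rw [k4] at k5
    linarith
  have k6 := mul_le_mul_of_nonneg_left k3 hc.le
  have k8 := le_abs_self C
  have k9 : (c * C3 + |C|) * Real.exp (ρ.re * t) ≤ t * (c * ‖A‖ / 2) * Real.exp (ρ.re * t) :=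
    mul_le_mul_of_nonneg_right ht1 (by linarith)
  have k10 : |C| ≤ |C| * Real.exp (ρ.re * t) := le_mul_of_one_le_right (abs_nonneg _) hEx
  nlinarith

end

end TH299.LV
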