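import Pool.Agent.TH299.LV.C

/-!
# Wide kernels
-/

open Complex MeasureTheory Filter Topology Set Metric H313.TK

set_option linter.unusedSectionVars false
set_option linter.unusedVariables false
set_option autoImplicit false

namespace TH299.LV

noncomputable section

/-- truncated superposition of translates of a kernel -/
def Hk (B : ℝ) (σ : ℂ) (k : ℝ → ℂ) (v : ℝ) : ℂ := ∫ w in Icc (-B) B, cexp (σ * w) * k (v - w)

/-- the positive version -/
def PB (B : ℝ) (v : ℝ) : ℝ := ∫ w in Icc (-B) B, Real.exp (w / 2) * kp (v - w)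

/-- the edge terms -/
def Eg (B : ℝ) (v : ℝ) : ℝ := Real.exp (B / 2) * kp (v - B) + Real.exp (-(B / 2)) * kp (v + B)

/-- the mass -/
def P1 : ℝ := ∫ z : ℝ, Real.exp (-(1 / 2 * z)) * kp z

theorem kp_pos (v : ℝ) : 0 < kp v := by
  have h1 := (kp_bounds v).1
  have h2 := W_pos v
  linarith

theorem P1_int : Integrable (fun z : ℝ => Real.exp (-(1 / 2 * z)) * kp z) := (mass_le (1 / 2) (by norm_num) (by norm_num)).1

theorem P1_nonneg : 0 ≤ P1 := integral_nonneg fun z => mul_nonneg (Real.exp_pos _).le (kp_nonneg z)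

theorem P1_eq : (P1 : ℂ) = Kh (1 / 2) := by
  unfold P1 Kh
  rw [← integral_complex_ofReal]
  refine integral_congr_ae (ae_of_all _ fun v => ?_)
  simp only
  push_cast
  congr 2
  ring

theorem P1_pos : 0 < P1 := by
  refine lt_of_le_of_ne P1_nonneg fun h => Kh_half ?_
  rw [← P1_eq, ← h]
  simp

theorem Eg_nonneg (B v : ℝ) : 0 ≤ Eg B v := by
  unfold Eg
  have h1 := kp_nonneg (v - B)
  have h2 := kp_nonneg (v + B)
  positivity

theorem refl_IccC {F : Type*} [NormedAddCommGroup F] [NormedSpace ℝ F] (G : ℝ → F) (v B : ℝ) :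
    ∫ w in Icc (-B) B, G (v - w) = ∫ z in Icc (v - B) (v + B), G z := by
  rw [← integral_indicator measurableSet_Icc, ← integral_indicator measurableSet_Icc,
    ← integral_sub_left_eq_self (fun u => (Icc (v - B) (v + B)).indicator G u) volume v]
  refine integral_congr_ae (ae_of_all _ fun w => ?_)
  simp only
  by_cases h : w ∈ Icc (-B) B
  · rw [indicator_of_mem h, indicator_of_mem (show v - w ∈ Icc (v - B) (v + B) by
      constructor <;> linarith [h.1, h.2])]
  · rw [indicator_of_notMem h, indicator_of_notMem (show v - w ∉ Icc (v - B) (v + B) by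
      intro h2
      exact h ⟨by linarith [h2.2], by linarith [h2.1]⟩)]

theorem Hk_eq (B : ℝ) (σ : ℂ) (k : ℝ → ℂ) (v : ℝ) :
    Hk B σ k v = cexp (σ * v) * ∫ z in Icc (v - B) (v + B), cexp (-σ * z) * k z := by
  unfold Hk
  rw [← refl_IccC (fun z : ℝ => cexp (-σ * z) * k z) v B, ← integral_const_mul]
  refine integral_congr_ae (ae_of_all _ fun w => ?_)
  simp only
  rw [← mul_assoc, ← Complex.exp_add]
  congr 2
  push_cast
  ring

theorem PB_eq (B v : ℝ) : PB B v = Real.exp (v / 2) * ∫ z in Icc (v - B) (v + B), Real.exp (-(1 / 2 * z)) * kp z := by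
  unfold PB
  rw [← refl_IccC (fun z : ℝ => Real.exp (-(1 / 2 * z)) * kp z) v B, ← integral_const_mul]
  refine integral_congr_ae (ae_of_all _ fun w => ?_)
  simp only
  rw [← mul_assoc, ← Real.exp_add]
  congr 2
  ring

theorem PB_le (B v : ℝ) : PB B v ≤ Real.exp (v / 2) * P1 := by
  rw [PB_eq]
  refine mul_le_mul_of_nonneg_left ?_ (Real.exp_pos _).le
  exact setIntegral_le_integral P1_int (ae_of_all _ fun z => mul_nonneg (Real.exp_pos _).le (kp_nonneg z))

theorem Hk_le (B : ℝ) (σ : ℂ) (hσ : σ.re = 1 / 2) (k : ℝ → ℂ) (C : ℝ) (hb : ∀ v, ‖k v‖ ≤ C * kp v) (v : ℝ) :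
    ‖Hk B σ k v‖ ≤ C * PB B v := by
  unfold Hk PB
  rw [← integral_const_mul]
  have hc := kp_cont
  refine norm_integral_le_of_norm_le ?_ (ae_of_all _ fun w => ?_)
  · exact (by fun_prop : Continuous fun w => C * (Real.exp (w / 2) * kp (v - w))).continuousOn.integrableOn_compact isCompact_Icc
  · rw [norm_mul, norm_tw', hσ]
    calc Real.exp (1 / 2 * w) * ‖k (v - w)‖ ≤ Real.exp (1 / 2 * w) * (C * kp (v - w)) :=
          mul_le_mul_of_nonneg_left (hb _) (Real.exp_pos _).le
      _ = C * (Real.exp (w / 2) * kp (v - w)) := by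
          rw [show 1 / 2 * w = w / 2 by ring]
          ring

/-- approximation inside -/
theorem Hk_approx (σ : ℂ) (hσ : σ.re = 1 / 2) (k : ℝ → ℂ) (hk : DK k) (C : ℝ) (hC : 0 ≤ C)
    (hb : ∀ v, ‖k v‖ ≤ C * Real.exp (-(3 * |v|))) (B R v : ℝ) (hv : |v| ≤ B - R) (hR : 0 ≤ R) :
    ‖Hk B σ k v - cexp (σ * v) * ∫ z : ℝ, cexp (-σ * z) * k z‖ ≤ Real.exp (v / 2) * (C * D1 * Real.exp (-R)) := by
  have hi := tw_int hk σ (by rw [hσ]; norm_num)
  have h1 := integral_add_compl (measurableSet_Icc (a := v - B) (b := v + B)) hi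
  rw [Hk_eq, ← h1]
  have e : cexp (σ * v) * (∫ z in Icc (v - B) (v + B), cexp (-σ * z) * k z) -
      cexp (σ * v) * ((∫ z in Icc (v - B) (v + B), cexp (-σ * z) * k z) + ∫ z in (Icc (v - B) (v + B))ᶜ, cexp (-σ * z) * k z) =
      -(cexp (σ * v) * ∫ z in (Icc (v - B) (v + B))ᶜ, cexp (-σ * z) * k z) := by ring
  rw [e, norm_neg, norm_mul, norm_tw', hσ, show 1 / 2 * v = v / 2 by ring]
  refine mul_le_mul_of_nonneg_left ?_ (Real.exp_pos _).le
  have hj : Integrable (fun z : ℝ => C * Real.exp (-R) * Real.exp (-(1 * |z|))) := (int_exp_abs 1 one_pos).const_mul _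
  have h2 : ‖∫ z in (Icc (v - B) (v + B))ᶜ, cexp (-σ * z) * k z‖ ≤
      ∫ z in (Icc (v - B) (v + B))ᶜ, C * Real.exp (-R) * Real.exp (-(1 * |z|)) := by
    refine norm_integral_le_of_norm_le hj.integrableOn ?_
    refine (ae_restrict_iff' measurableSet_Icc.compl).2 (ae_of_all _ fun z hz => ?_)
    have hzR : R ≤ |z| := by
      by_contra hcon
      push Not at hcon
      apply hz
      have h3 := abs_le.1 hv
      have h4 := abs_lt.1 hcon
      constructor <;> linarith [h3.1, h3.2, h4.1, h4.2]
    rw [norm_mul, norm_tw, hσ]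
    have h5 : Real.exp (-(1 / 2) * z) ≤ Real.exp (1 / 2 * |z|) := by
      refine Real.exp_le_exp.2 ?_
      have := neg_abs_le z
      linarith
    calc Real.exp (-(1 / 2) * z) * ‖k z‖ ≤ Real.exp (1 / 2 * |z|) * (C * Real.exp (-(3 * |z|))) :=
          mul_le_mul h5 (hb z) (norm_nonneg _) (Real.exp_pos _).le
      _ = C * (Real.exp (1 / 2 * |z|) * Real.exp (-(3 * |z|))) := by ring
      _ ≤ C * (Real.exp (-R) * Real.exp (-(1 * |z|))) := by
          refine mul_le_mul_of_nonneg_left ?_ hC
          rw [← Real.exp_add, ← Real.exp_add]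
          refine Real.exp_le_exp.2 ?_
          linarith
      _ = _ := by ring
  refine h2.trans ?_
  refine (setIntegral_le_integral hj (ae_of_all _ fun z => ?_)).trans (le_of_eq ?_)
  · show 0 ≤ C * Real.exp (-R) * Real.exp (-(1 * |z|))
    positivity
  · rw [integral_const_mul]
    unfold D1
    ring

/-- domination at the edges -/
theorem edge (R : ℝ) (hR : 0 ≤ R) : ∃ C : ℝ, 0 ≤ C ∧ ∀ B : ℝ, 0 ≤ B → ∀ v : ℝ, B - R ≤ |v| → PB B v ≤ C * Eg B v := by
  have hC0 := C0_nonneg
  have hP1 := P1_nonneg
  have hWR := W_pos (-R)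
  refine ⟨8 * C0 + 2 * Real.exp (R / 2) * P1 / W (-R), by positivity, fun B hB v hv => ?_⟩
  have hk1 := kp_nonneg (v - B)
  have hk2 := kp_nonneg (v + B)
  have hc := kp_cont
  have hint : IntegrableOn (fun w => Real.exp (w / 2) * kp (v - w)) (Icc (-B) B) :=
    (by fun_prop : Continuous fun w => Real.exp (w / 2) * kp (v - w)).continuousOn.integrableOn_compact isCompact_Icc
  have hE1 : Real.exp (B / 2) * kp (v - B) ≤ Eg B v := by
    unfold Eg
    have : 0 ≤ Real.exp (-(B / 2)) * kp (v + B) := by positivity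
    linarith
  have hE2 : Real.exp (-(B / 2)) * kp (v + B) ≤ Eg B v := by
    unfold Eg
    have : 0 ≤ Real.exp (B / 2) * kp (v - B) := by positivity
    linarith
  have hE0 := Eg_nonneg B v
  have hfar : ∀ X : ℝ, PB B v ≤ 8 * C0 * X → X ≤ Eg B v → PB B v ≤ (8 * C0 + 2 * Real.exp (R / 2) * P1 / W (-R)) * Eg B v := by
    intro X h1 h2
    have h3 : 0 ≤ 2 * Real.exp (R / 2) * P1 / W (-R) * Eg B v := by positivity
    have h4 : 8 * C0 * X ≤ 8 * C0 * Eg B v := mul_le_mul_of_nonneg_left h2 (by positivity)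
    linarith
  have hnear : PB B v ≤ 2 * Real.exp (R / 2) * P1 / W (-R) * Eg B v → PB B v ≤ (8 * C0 + 2 * Real.exp (R / 2) * P1 / W (-R)) * Eg B v := by
    intro h1
    have h3 : 0 ≤ 8 * C0 * Eg B v := by positivity
    linarith
  rcases le_total 0 v with hv0 | hv0
  · rw [abs_of_nonneg hv0] at hv
    rcases le_total B v with hvB | hvB
    · -- v ≥ B
      refine hfar (Real.exp (B / 2) * kp (v - B)) ?_ hE1
      have hpt : ∀ w ∈ Icc (-B) B, Real.exp (w / 2) * kp (v - w) ≤ (8 * C0 * kp (v - B) * Real.exp (-(3 * B))) * Real.exp (7 / 2 * w) := by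
        intro w hw
        have h1 := W_dom (v - B) (v - w) (Or.inr ⟨by linarith, by linarith [hw.2]⟩)
        have h2 : |v - B - (v - w)| = B - w := by
          rw [show v - B - (v - w) = -(B - w) by ring, abs_neg, abs_of_nonneg (by linarith [hw.2])]
        rw [h2] at h1
        have h3 : W (v - w) ≤ 4 * W (v - B) * Real.exp (-(3 * (B - w))) := by
          have h4 : W (v - w) = W (v - w) * Real.exp (2 * (B - w)) * Real.exp (-(2 * (B - w))) := by
            rw [mul_assoc, ← Real.exp_add, add_neg_cancel, Real.exp_zero, mul_one]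
          rw [h4]
          calc W (v - w) * Real.exp (2 * (B - w)) * Real.exp (-(2 * (B - w))) ≤
                4 * W (v - B) * Real.exp (-(B - w)) * Real.exp (-(2 * (B - w))) :=
                mul_le_mul_of_nonneg_right h1 (Real.exp_pos _).le
            _ = 4 * W (v - B) * (Real.exp (-(B - w)) * Real.exp (-(2 * (B - w)))) := by ring
            _ = _ := by rw [← Real.exp_add]; congr 2; ring
        have h5 : kp (v - w) ≤ C0 * (4 * W (v - B) * Real.exp (-(3 * (B - w)))) :=
          (kp_bounds _).2.trans (mul_le_mul_of_nonneg_left h3 hC0)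
        have h6 : W (v - B) ≤ 2 * kp (v - B) := by linarith [(kp_bounds (v - B)).1]
        calc Real.exp (w / 2) * kp (v - w) ≤ Real.exp (w / 2) * (C0 * (4 * W (v - B) * Real.exp (-(3 * (B - w))))) :=
              mul_le_mul_of_nonneg_left h5 (Real.exp_pos _).le
          _ ≤ Real.exp (w / 2) * (C0 * (4 * (2 * kp (v - B)) * Real.exp (-(3 * (B - w))))) := by
              refine mul_le_mul_of_nonneg_left (mul_le_mul_of_nonneg_left ?_ hC0) (Real.exp_pos _).le
              exact mul_le_mul_of_nonneg_right (by linarith) (Real.exp_pos _).le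
          _ = 8 * C0 * kp (v - B) * (Real.exp (w / 2) * Real.exp (-(3 * (B - w)))) := by ring
          _ = 8 * C0 * kp (v - B) * (Real.exp (-(3 * B)) * Real.exp (7 / 2 * w)) := by
              rw [← Real.exp_add, ← Real.exp_add]; congr 2; ring
          _ = _ := by ring
      have hI : IntegrableOn (fun w => Real.exp (7 / 2 * w)) (Iic B) := integrableOn_exp_mul_Iic (by norm_num) B
      calc PB B v ≤ ∫ w in Icc (-B) B, (8 * C0 * kp (v - B) * Real.exp (-(3 * B))) * Real.exp (7 / 2 * w) :=
            setIntegral_mono_on hint ((hI.mono_set (fun w hw => hw.2)).const_mul _) measurableSet_Icc hpt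
        _ ≤ ∫ w in Iic B, (8 * C0 * kp (v - B) * Real.exp (-(3 * B))) * Real.exp (7 / 2 * w) := by
            refine setIntegral_mono_set (hI.const_mul _) (ae_of_all _ fun w => ?_) (LE.le.eventuallyLE (fun w hw => hw.2))
            show 0 ≤ (8 * C0 * kp (v - B) * Real.exp (-(3 * B))) * Real.exp (7 / 2 * w)
            positivity
        _ = 8 * C0 * kp (v - B) * (Real.exp (-(3 * B)) * Real.exp (7 / 2 * B)) / (7 / 2) := by
            rw [integral_const_mul, integral_exp_mul_Iic (by norm_num)]
            ring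
        _ = 8 * C0 * kp (v - B) * Real.exp (B / 2) / (7 / 2) := by
            rw [← Real.exp_add]
            congr 3
            ring
        _ ≤ 8 * C0 * kp (v - B) * Real.exp (B / 2) / 1 :=
            div_le_div_of_nonneg_left (by positivity) one_pos (by norm_num)
        _ = _ := by ring
    · -- B - R ≤ v ≤ B
      refine hnear ?_
      have h1 := PB_le B v
      have h2 : Real.exp (v / 2) ≤ Real.exp (B / 2) := Real.exp_le_exp.2 (by linarith)
      have h3 : W (-R) ≤ W (v - B) := by
        unfold W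
        refine Real.exp_le_exp.2 ?_
        rw [max_eq_right (by linarith), max_eq_right (by linarith), abs_neg, abs_of_nonneg hR,
          abs_of_nonpos (by linarith)]
        have h4 : Real.exp (2 * -(v - B)) ≤ Real.exp (2 * R) := Real.exp_le_exp.2 (by linarith)
        have := mul_le_mul_of_nonneg_left h4 (by have := Real.pi_pos; positivity : 0 ≤ Real.pi / 4)
        linarith
      have h5 : W (-R) ≤ 2 * kp (v - B) := by linarith [(kp_bounds (v - B)).1]
      have h6 : 1 ≤ Real.exp (R / 2) := Real.one_le_exp (by linarith)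
      rw [div_mul_eq_mul_div, le_div_iff₀ hWR]
      have hA : 0 ≤ Real.exp (B / 2) * P1 := by positivity
      calc PB B v * W (-R) ≤ (Real.exp (B / 2) * P1) * (2 * kp (v - B)) :=
            mul_le_mul (h1.trans (mul_le_mul_of_nonneg_right h2 hP1)) h5 hWR.le hA
        _ = 2 * 1 * P1 * (Real.exp (B / 2) * kp (v - B)) := by ring
        _ ≤ 2 * Real.exp (R / 2) * P1 * Eg B v := by
            refine mul_le_mul ?_ hE1 (by positivity) (by positivity)
            exact mul_le_mul_of_nonneg_right (by linarith) hP1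
  · rw [abs_of_nonpos hv0] at hv
    rcases le_total v (-B) with hvB | hvB
    · -- v ≤ -B
      refine hfar (Real.exp (-(B / 2)) * kp (v + B)) ?_ hE2
      have hpt : ∀ w ∈ Icc (-B) B, Real.exp (w / 2) * kp (v - w) ≤ (8 * C0 * kp (v + B) * Real.exp (-(3 * B))) * Real.exp (-(5 / 2) * w) := by
        intro w hw
        have h1 := W_dom (v + B) (v - w) (Or.inl ⟨by linarith [hw.1], by linarith⟩)
        have h2 : |v + B - (v - w)| = B + w := by
          rw [show v + B - (v - w) = B + w by ring, abs_of_nonneg (by linarith [hw.1])]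
        rw [h2] at h1
        have h3 : W (v - w) ≤ 4 * W (v + B) * Real.exp (-(3 * (B + w))) := by
          have h4 : W (v - w) = W (v - w) * Real.exp (2 * (B + w)) * Real.exp (-(2 * (B + w))) := by
            rw [mul_assoc, ← Real.exp_add, add_neg_cancel, Real.exp_zero, mul_one]
          rw [h4]
          calc W (v - w) * Real.exp (2 * (B + w)) * Real.exp (-(2 * (B + w))) ≤
                4 * W (v + B) * Real.exp (-(B + w)) * Real.exp (-(2 * (B + w))) :=
                mul_le_mul_of_nonneg_right h1 (Real.exp_pos _).le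
            _ = 4 * W (v + B) * (Real.exp (-(B + w)) * Real.exp (-(2 * (B + w)))) := by ring
            _ = _ := by rw [← Real.exp_add]; congr 2; ring
        have h5 : kp (v - w) ≤ C0 * (4 * W (v + B) * Real.exp (-(3 * (B + w)))) :=
          (kp_bounds _).2.trans (mul_le_mul_of_nonneg_left h3 hC0)
        have h6 : W (v + B) ≤ 2 * kp (v + B) := by linarith [(kp_bounds (v + B)).1]
        calc Real.exp (w / 2) * kp (v - w) ≤ Real.exp (w / 2) * (C0 * (4 * W (v + B) * Real.exp (-(3 * (B + w))))) :=
              mul_le_mul_of_nonneg_left h5 (Real.exp_pos _).le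
          _ ≤ Real.exp (w / 2) * (C0 * (4 * (2 * kp (v + B)) * Real.exp (-(3 * (B + w))))) := by
              refine mul_le_mul_of_nonneg_left (mul_le_mul_of_nonneg_left ?_ hC0) (Real.exp_pos _).le
              exact mul_le_mul_of_nonneg_right (by linarith) (Real.exp_pos _).le
          _ = 8 * C0 * kp (v + B) * (Real.exp (w / 2) * Real.exp (-(3 * (B + w)))) := by ring
          _ = 8 * C0 * kp (v + B) * (Real.exp (-(3 * B)) * Real.exp (-(5 / 2) * w)) := by
              rw [← Real.exp_add, ← Real.exp_add]; congr 2; ring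
          _ = _ := by ring
      have hI : IntegrableOn (fun w => Real.exp (-(5 / 2) * w)) (Ici (-B)) := by
        rw [integrableOn_Ici_iff_integrableOn_Ioi]
        exact integrableOn_exp_mul_Ioi (by norm_num) (-B)
      calc PB B v ≤ ∫ w in Icc (-B) B, (8 * C0 * kp (v + B) * Real.exp (-(3 * B))) * Real.exp (-(5 / 2) * w) :=
            setIntegral_mono_on hint ((hI.mono_set (fun w hw => hw.1)).const_mul _) measurableSet_Icc hpt
        _ ≤ ∫ w in Ici (-B), (8 * C0 * kp (v + B) * Real.exp (-(3 * B))) * Real.exp (-(5 / 2) * w) := by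
            refine setIntegral_mono_set (hI.const_mul _) (ae_of_all _ fun w => ?_) (LE.le.eventuallyLE (fun w hw => hw.1))
            show 0 ≤ (8 * C0 * kp (v + B) * Real.exp (-(3 * B))) * Real.exp (-(5 / 2) * w)
            positivity
        _ = 8 * C0 * kp (v + B) * (Real.exp (-(3 * B)) * Real.exp (-(5 / 2) * -B)) / (5 / 2) := by
            rw [integral_const_mul, integral_Ici_eq_integral_Ioi, integral_exp_mul_Ioi (by norm_num), neg_div_neg_eq]
            ring
        _ = 8 * C0 * kp (v + B) * Real.exp (-(B / 2)) / (5 / 2) := by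
            rw [← Real.exp_add]
            congr 3
            ring
        _ ≤ 8 * C0 * kp (v + B) * Real.exp (-(B / 2)) / 1 :=
            div_le_div_of_nonneg_left (by positivity) one_pos (by norm_num)
        _ = _ := by ring
    · -- -B ≤ v ≤ -B + R
      refine hnear ?_
      have h1 := PB_le B v
      have h2 : Real.exp (v / 2) ≤ Real.exp (R / 2) * Real.exp (-(B / 2)) := by
        rw [← Real.exp_add]
        exact Real.exp_le_exp.2 (by linarith)
      have h3 : W (-R) ≤ W (v + B) := by
        unfold W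
        refine Real.exp_le_exp.2 ?_
        rw [max_eq_right (by linarith : -R ≤ 0), max_eq_left (by linarith : 0 ≤ v + B), abs_neg, abs_of_nonneg hR,
          abs_of_nonneg (by linarith)]
        have h4 : Real.exp (2 * (v + B)) ≤ Real.exp (2 * R) := Real.exp_le_exp.2 (by linarith)
        have := mul_le_mul_of_nonneg_left h4 (by have := Real.pi_pos; positivity : 0 ≤ Real.pi / 4)
        linarith
      have h5 : W (-R) ≤ 2 * kp (v + B) := by linarith [(kp_bounds (v + B)).1]
      rw [div_mul_eq_mul_div, le_div_iff₀ hWR]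
      calc PB B v * W (-R) ≤ (Real.exp (R / 2) * Real.exp (-(B / 2)) * P1) * (2 * kp (v + B)) :=
            mul_le_mul (h1.trans (mul_le_mul_of_nonneg_right h2 hP1)) h5 hWR.le (by positivity)
        _ = 2 * Real.exp (R / 2) * P1 * (Real.exp (-(B / 2)) * kp (v + B)) := by ring
        _ ≤ 2 * Real.exp (R / 2) * P1 * Eg B v := mul_le_mul_of_nonneg_left hE2 (by positivity)

end

end TH299.LV
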