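import Pool.Agent.TH299.LV.K1

/-!
# The total kernel is positive
-/

open Complex MeasureTheory Filter Topology Set Metric H313.TK

set_option linter.unusedSectionVars false
set_option linter.unusedVariables false
set_option autoImplicit false

namespace TH299.LV

noncomputable section

/-- the point of the critical line -/
def sg (ω : ℝ) : ℂ := 1 / 2 + ω * I

theorem sg_re (ω : ℝ) : (sg ω).re = 1 / 2 := by
  unfold sg
  simp

/-- a family of kernels -/
structure Fam (Om : Finset ℝ) (k : ℝ → ℝ → ℂ) (D : ℝ → ℂ) : Prop where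
  dk : ∀ ω ∈ Om, DK (k ω)
  dv : ∀ ω ∈ Om, ∫ z : ℝ, cexp (-(sg ω) * z) * k ω z = D ω
  ne : ∀ ω ∈ Om, D ω ≠ 0

/-- a trigonometric polynomial -/
def Tp (Om : Finset ℝ) (c : ℝ → ℂ) (v : ℝ) : ℝ := (∑ ω ∈ Om, c ω * cexp (ω * I * v)).re

/-- the complex part of the kernel -/
def KS (Om : Finset ℝ) (k : ℝ → ℝ → ℂ) (D c : ℝ → ℂ) (B v : ℝ) : ℂ :=
  ∑ ω ∈ Om, (c ω / D ω) * Hk B (sg ω) (k ω) v

/-- the total kernel -/
def KK (Om : Finset ℝ) (k : ℝ → ℝ → ℂ) (D c : ℝ → ℂ) (C4 B v : ℝ) : ℝ :=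
  (KS Om k D c B v).re + C4 * Eg B v

theorem KK_pos {Om : Finset ℝ} {k : ℝ → ℝ → ℂ} {D : ℝ → ℂ} (hF : Fam Om k D) (M e0 : ℝ) (hM : 0 ≤ M) (he : 0 < e0) :
    ∃ R : ℝ, 0 ≤ R ∧ ∃ C4 : ℝ, 0 ≤ C4 ∧ ∀ B : ℝ, R ≤ B → ∀ c : ℝ → ℂ, (∀ ω ∈ Om, ‖c ω‖ ≤ M) →
      (∀ v, e0 ≤ Tp Om c v) →
      (∀ v, 0 ≤ KK Om k D c C4 B v) ∧ (∀ v, B ≤ |v| → KK Om k D c C4 B v ≤ 2 * C4 * Eg B v) := by
  have h1 : ∀ ω, ∃ C : ℝ, 0 ≤ C ∧ (ω ∈ Om → ∀ v, ‖k ω v‖ ≤ C * kp v) := by
    intro ω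
    by_cases h : ω ∈ Om
    · obtain ⟨C, hC, hb⟩ := (hF.dk ω h).bd
      refine ⟨2 * C, by positivity, fun _ v => (hb v).trans ?_⟩
      have := (kp_bounds v).1
      nlinarith
    · exact ⟨0, le_rfl, fun h2 => absurd h2 h⟩
  choose Ca hCa0 hCa using h1
  have h2 : ∀ ω, ∃ C : ℝ, 0 ≤ C ∧ (ω ∈ Om → ∀ v, ‖k ω v‖ ≤ C * Real.exp (-(3 * |v|))) := by
    intro ω
    by_cases h : ω ∈ Om
    · obtain ⟨C, hC, hb⟩ := DK_bd3 (hF.dk ω h)
      exact ⟨C, hC, fun _ => hb⟩
    · exact ⟨0, le_rfl, fun h2 => absurd h2 h⟩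
  choose Cb hCb0 hCb using h2
  have hD1 := D1_nonneg
  set S : ℝ := ∑ ω ∈ Om, M / ‖D ω‖ * (Cb ω * D1) with hS
  have hS0 : 0 ≤ S := Finset.sum_nonneg fun ω _ => by have := hCb0 ω; positivity
  set C5 : ℝ := ∑ ω ∈ Om, M / ‖D ω‖ * Ca ω with hC5
  have hC50 : 0 ≤ C5 := Finset.sum_nonneg fun ω _ => by have := hCa0 ω; positivity
  set R : ℝ := S / e0 with hR
  have hR0 : 0 ≤ R := by positivity
  have hSR : S * Real.exp (-R) ≤ e0 := by
    have h3 : R + 1 ≤ Real.exp R := Real.add_one_le_exp R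
    rw [Real.exp_neg, ← div_eq_mul_inv, div_le_iff₀ (Real.exp_pos _)]
    have h4 : S = e0 * R := by rw [hR]; field_simp
    rw [h4]
    exact mul_le_mul_of_nonneg_left (by linarith) he.le
  obtain ⟨C6, hC60, hedge⟩ := edge R hR0
  refine ⟨R, hR0, C5 * C6, by positivity, fun B hB c hc hT => ?_⟩
  have hB0 : 0 ≤ B := hR0.trans hB
  have hout : ∀ v, B - R ≤ |v| → ‖KS Om k D c B v‖ ≤ C5 * C6 * Eg B v := by
    intro v hv
    have h3 : ‖KS Om k D c B v‖ ≤ C5 * PB B v := by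
      unfold KS
      refine (norm_sum_le _ _).trans ?_
      rw [hC5, Finset.sum_mul]
      refine Finset.sum_le_sum fun ω hω => ?_
      rw [norm_mul, norm_div]
      have h4 := Hk_le B (sg ω) (sg_re ω) (k ω) (Ca ω) (hCa ω hω) v
      calc ‖c ω‖ / ‖D ω‖ * ‖Hk B (sg ω) (k ω) v‖ ≤ M / ‖D ω‖ * (Ca ω * PB B v) :=
            mul_le_mul (div_le_div_of_nonneg_right (hc ω hω) (norm_nonneg _)) h4 (norm_nonneg _) (by positivity)
        _ = _ := by ring
    refine h3.trans ?_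
    rw [mul_assoc]
    exact mul_le_mul_of_nonneg_left (hedge B hB0 v hv) hC50
  constructor
  · intro v
    have hE := Eg_nonneg B v
    rcases le_total (|v|) (B - R) with hv | hv
    · have h3 : ‖KS Om k D c B v - ∑ ω ∈ Om, c ω * cexp (sg ω * v)‖ ≤ Real.exp (v / 2) * (S * Real.exp (-R)) := by
        unfold KS
        rw [← Finset.sum_sub_distrib]
        refine (norm_sum_le _ _).trans ?_
        rw [hS, Finset.sum_mul, Finset.mul_sum]
        refine Finset.sum_le_sum fun ω hω => ?_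
        have h4 := Hk_approx (sg ω) (sg_re ω) (k ω) (hF.dk ω hω) (Cb ω) (hCb0 ω) (hCb ω hω) B R v hv hR0
        rw [hF.dv ω hω] at h4
        have hne := hF.ne ω hω
        have e : c ω / D ω * Hk B (sg ω) (k ω) v - c ω * cexp (sg ω * v) =
            c ω / D ω * (Hk B (sg ω) (k ω) v - cexp (sg ω * v) * D ω) := by
          field_simp
        rw [e, norm_mul, norm_div]
        calc ‖c ω‖ / ‖D ω‖ * ‖Hk B (sg ω) (k ω) v - cexp (sg ω * v) * D ω‖ ≤
              M / ‖D ω‖ * (Real.exp (v / 2) * (Cb ω * D1 * Real.exp (-R))) :=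
              mul_le_mul (div_le_div_of_nonneg_right (hc ω hω) (norm_nonneg _)) h4 (norm_nonneg _) (by positivity)
          _ = _ := by ring
      have h5 : (∑ ω ∈ Om, c ω * cexp (sg ω * v)).re = Real.exp (v / 2) * Tp Om c v := by
        unfold Tp
        rw [← Complex.re_ofReal_mul, Finset.mul_sum]
        congr 1
        refine Finset.sum_congr rfl fun ω _ => ?_
        have : cexp (sg ω * v) = ((Real.exp (v / 2) : ℝ) : ℂ) * cexp (ω * I * v) := by
          rw [Complex.ofReal_exp, ← Complex.exp_add]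
          congr 1
          unfold sg
          push_cast
          ring
        rw [this]
        ring
      have h6 := Complex.abs_re_le_norm (KS Om k D c B v - ∑ ω ∈ Om, c ω * cexp (sg ω * v))
      rw [Complex.sub_re, h5] at h6
      have h7 := (abs_le.1 (h6.trans h3)).1
      have h8 := Real.exp_pos (v / 2)
      have h9 : Real.exp (v / 2) * (S * Real.exp (-R)) ≤ Real.exp (v / 2) * Tp Om c v :=
        mul_le_mul_of_nonneg_left (hSR.trans (hT v)) h8.le
      unfold KK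
      have h10 : 0 ≤ C5 * C6 * Eg B v := by positivity
      linarith
    · have h3 := (abs_le.1 ((Complex.abs_re_le_norm (KS Om k D c B v)).trans (hout v hv))).1
      unfold KK
      linarith
  · intro v hv
    have h3 := (abs_le.1 ((Complex.abs_re_le_norm (KS Om k D c B v)).trans (hout v (by linarith)))).2
    unfold KK
    linarith

end

end TH299.LV
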