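import Pool.Agent.TH299.LV.K2

/-!
# Averages against the wide kernels
-/

open Complex MeasureTheory Filter Topology Set Metric H313.TK

set_option linter.unusedSectionVars false
set_option linter.unusedVariables false
set_option autoImplicit false

namespace TH299.LV

noncomputable section

theorem Hk_ind (B : ℝ) (σ : ℂ) (k : ℝ → ℂ) (v : ℝ) :
    Hk B σ k v = ∫ w, (Icc (-B) B).indicator (fun w : ℝ => cexp (σ * w)) w * k (v - w) := by
  unfold Hk
  rw [← integral_indicator measurableSet_Icc]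
  refine integral_congr_ae (ae_of_all _ fun w => ?_)
  simp only
  by_cases h : w ∈ Icc (-B) B
  · rw [indicator_of_mem h, indicator_of_mem h]
  · rw [indicator_of_notMem h, indicator_of_notMem h, zero_mul]

/-- averages of wide kernels -/
theorem avH {g : ℝ → ℝ} (h : PP g) {k : ℝ → ℂ} (hk : DK k) (σ : ℂ) (hσ : σ.re = 1 / 2) (B : ℝ) (hB : 0 ≤ B) (t : ℝ) :
    Integrable (fun v : ℝ => (ff g (t - v) : ℂ) * Hk B σ k v) ∧
    ∫ v : ℝ, (ff g (t - v) : ℂ) * Hk B σ k v = ∫ w in Icc (-B) B, cexp (σ * w) * av g k (t - w) := by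
  obtain ⟨C, hC, hb⟩ := DK_bd3 hk
  set F : ℝ → ℝ → ℂ := fun v w => (ff g (t - v) : ℂ) *
    ((Icc (-B) B).indicator (fun w : ℝ => cexp (σ * w)) w * k (v - w)) with hF
  have hFi : Integrable (Function.uncurry F) (volume.prod volume) := by
    refine Integrable.mono' (g := fun p : ℝ × ℝ => (Real.exp t * C * Real.exp (4 * B) * Real.exp (-(2 * |p.1|))) *
      ((Icc (-B) B).indicator (fun w => (1:ℝ)) p.2)) ?_ ?_ (ae_of_all _ fun p => ?_)
    · refine Integrable.mul_prod (f := fun v : ℝ => Real.exp t * C * Real.exp (4 * B) * Real.exp (-(2 * |v|)))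
        (g := (Icc (-B) B).indicator (fun w : ℝ => (1:ℝ))) ?_ ?_
      · exact (int_exp_abs 2 (by norm_num)).const_mul _
      · rw [integrable_indicator_iff measurableSet_Icc]
        exact (continuous_const (y := (1:ℝ))).continuousOn.integrableOn_compact isCompact_Icc
    · have h1 := ff_meas h.meas
      have h2 := hk.cont.measurable
      have h3 : Measurable ((Icc (-B) B).indicator (fun w : ℝ => cexp (σ * w))) :=
        (by fun_prop : Measurable fun w : ℝ => cexp (σ * w)).indicator measurableSet_Icc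
      exact (by fun_prop : Measurable fun p : ℝ × ℝ => (ff g (t - p.1) : ℂ) *
        ((Icc (-B) B).indicator (fun w : ℝ => cexp (σ * w)) p.2 * k (p.1 - p.2))).aestronglyMeasurable
    · obtain ⟨v, w⟩ := p
      simp only [Function.uncurry, hF]
      by_cases hw : w ∈ Icc (-B) B
      · rw [indicator_of_mem hw, indicator_of_mem hw, norm_mul, norm_mul, Complex.norm_real, Real.norm_eq_abs,
          norm_tw', hσ, mul_one]
        have hw1 : |w| ≤ B := abs_le.2 hw
        have h2 : ‖k (v - w)‖ ≤ C * Real.exp (3 * B - 3 * |v|) := by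
          refine (hb _).trans (mul_le_mul_of_nonneg_left (Real.exp_le_exp.2 ?_) hC)
          have h3 : |v| ≤ |v - w| + |w| := by
            have := abs_add_le (v - w) w
            simpa using this
          linarith
        have h3 : |ff g (t - v)| ≤ Real.exp (t + |v|) := by
          refine (h.bd _).trans (Real.exp_le_exp.2 ?_)
          have := neg_abs_le v
          linarith
        have h4 : Real.exp (1 / 2 * w) ≤ Real.exp B := Real.exp_le_exp.2 (by linarith [hw.2])
        calc |ff g (t - v)| * (Real.exp (1 / 2 * w) * ‖k (v - w)‖) ≤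
              Real.exp (t + |v|) * (Real.exp B * (C * Real.exp (3 * B - 3 * |v|))) :=
              mul_le_mul h3 (mul_le_mul h4 h2 (norm_nonneg _) (Real.exp_pos _).le) (by positivity)
                (Real.exp_pos _).le
          _ = C * (Real.exp (t + |v|) * (Real.exp B * Real.exp (3 * B - 3 * |v|))) := by ring
          _ = C * (Real.exp t * (Real.exp (4 * B) * Real.exp (-(2 * |v|)))) := by
              rw [← Real.exp_add, ← Real.exp_add, ← Real.exp_add, ← Real.exp_add]
              congr 2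
              ring
          _ = _ := by ring
      · rw [indicator_of_notMem hw, indicator_of_notMem hw]
        simp
  have e1 : (fun v : ℝ => (ff g (t - v) : ℂ) * Hk B σ k v) = fun v => ∫ w, F v w := by
    funext v
    simp only [hF]
    rw [Hk_ind, ← integral_const_mul]
  have e2 : ∫ w in Icc (-B) B, cexp (σ * w) * av g k (t - w) = ∫ w, ∫ v, F v w := by
    rw [← integral_indicator measurableSet_Icc]
    refine integral_congr_ae (ae_of_all _ fun w => ?_)
    simp only [hF]
    by_cases hw : w ∈ Icc (-B) B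
    · rw [indicator_of_mem hw, indicator_of_mem hw]
      unfold av
      rw [← integral_const_mul, ← integral_sub_right_eq_self (fun v => cexp (σ * w) * ((ff g (t - w - v) : ℂ) * k v)) w]
      refine integral_congr_ae (ae_of_all _ fun v => ?_)
      simp only
      rw [show t - w - (v - w) = t - v by ring]
      ring
    · rw [indicator_of_notMem hw, indicator_of_notMem hw]
      simp
  rw [e1]
  refine ⟨hFi.integral_prod_left, ?_⟩
  rw [e2, integral_integral_swap hFi]

/-- wide kernels and an asymptotic -/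
theorem avH_asy {a : ℝ → ℂ} (ha : Measurable a) (A σ' σ : ℂ) (hσ : σ.re = 1 / 2) (C : ℝ) (hC : 0 ≤ C)
    (hb : ∀ t, ‖a t - A * cexp (σ' * t)‖ ≤ C) (B : ℝ) (hB : 0 ≤ B) (t : ℝ) :
    ‖(∫ w in Icc (-B) B, cexp (σ * w) * a (t - w)) - A * cexp (σ' * t) * ∫ w in Icc (-B) B, cexp ((σ - σ') * w)‖ ≤
      C * Real.exp B * (2 * B) := by
  have i1 : IntegrableOn (fun w : ℝ => cexp (σ * w) * (A * cexp (σ' * ((t - w : ℝ) : ℂ)))) (Icc (-B) B) :=
    (by fun_prop : Continuous fun w : ℝ => cexp (σ * w) * (A * cexp (σ' * ((t - w : ℝ) : ℂ)))).continuousOn.integrableOn_compact isCompact_Icc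
  have hpt : ∀ w ∈ Icc (-B) B, ‖cexp (σ * w) * (a (t - w) - A * cexp (σ' * ((t - w : ℝ) : ℂ)))‖ ≤ C * Real.exp B := by
    intro w hw
    rw [norm_mul, norm_tw', hσ, mul_comm]
    exact mul_le_mul (hb _) (Real.exp_le_exp.2 (by linarith [hw.2])) (Real.exp_pos _).le hC
  have i2 : IntegrableOn (fun w : ℝ => cexp (σ * w) * (a (t - w) - A * cexp (σ' * ((t - w : ℝ) : ℂ)))) (Icc (-B) B) := by
    refine Measure.integrableOn_of_bounded (M := C * Real.exp B) (by simp) ?_ ?_
    · exact (by fun_prop : Measurable fun w : ℝ => cexp (σ * w) * (a (t - w) - A * cexp (σ' * ((t - w : ℝ) : ℂ)))).aestronglyMeasurable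
    · exact (ae_restrict_iff' measurableSet_Icc).2 (ae_of_all _ hpt)
  have e1 : A * cexp (σ' * t) * ∫ w in Icc (-B) B, cexp ((σ - σ') * w) =
      ∫ w in Icc (-B) B, cexp (σ * w) * (A * cexp (σ' * ((t - w : ℝ) : ℂ))) := by
    rw [← integral_const_mul]
    refine integral_congr_ae (ae_of_all _ fun w => ?_)
    simp only
    have : cexp (σ * w) * cexp (σ' * ((t - w : ℝ) : ℂ)) = cexp (σ' * t) * cexp ((σ - σ') * w) := by
      rw [← Complex.exp_add, ← Complex.exp_add]
      congr 1
      push_cast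
      ring
    linear_combination (-A) * this
  have e2 : ∫ w in Icc (-B) B, cexp (σ * w) * a (t - w) =
      (∫ w in Icc (-B) B, cexp (σ * w) * (a (t - w) - A * cexp (σ' * ((t - w : ℝ) : ℂ)))) +
      ∫ w in Icc (-B) B, cexp (σ * w) * (A * cexp (σ' * ((t - w : ℝ) : ℂ))) := by
    rw [← integral_add i2 i1]
    refine integral_congr_ae (ae_of_all _ fun w => ?_)
    simp only
    ring
  rw [e1, e2, add_sub_cancel_right]
  refine (norm_setIntegral_le_of_norm_le_const (by simp) hpt).trans (le_of_eq ?_)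
  rw [Measure.real, Real.volume_Icc, ENNReal.toReal_ofReal (by linarith)]
  ring

theorem int_same (B : ℝ) (hB : 0 ≤ B) (σ : ℂ) : ∫ w in Icc (-B) B, cexp ((σ - σ) * w) = ((2 * B : ℝ) : ℂ) := by
  simp only [sub_self, zero_mul, Complex.exp_zero]
  rw [setIntegral_const, Measure.real, Real.volume_Icc, ENNReal.toReal_ofReal (by linarith)]
  simp
  ring

theorem int_diff (B : ℝ) (hB : 0 ≤ B) (ω : ℝ) (hω : ω ≠ 0) :
    ‖∫ w in Icc (-B) B, cexp ((sg ω - 1 / 2) * w)‖ ≤ 2 / |ω| := by
  have hne : sg ω - 1 / 2 ≠ 0 := by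
    unfold sg
    rw [add_sub_cancel_left]
    exact mul_ne_zero (by exact_mod_cast hω) I_ne_zero
  rw [integral_Icc_eq_integral_Ioc, ← intervalIntegral.integral_of_le (by linarith), integral_exp_mul_complex hne]
  rw [norm_div]
  have e : ∀ x : ℝ, ‖cexp ((sg ω - 1 / 2) * x)‖ = 1 := by
    intro x
    rw [norm_tw', Complex.sub_re, sg_re]
    norm_num
  have h1 : ‖cexp ((sg ω - 1 / 2) * (B : ℝ)) - cexp ((sg ω - 1 / 2) * ((-B : ℝ) : ℂ))‖ ≤ 2 := by
    refine (norm_sub_le _ _).trans ?_
    rw [e, e]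
    norm_num
  have h2 : ‖sg ω - 1 / 2‖ = |ω| := by
    unfold sg
    rw [add_sub_cancel_left, norm_mul, Complex.norm_I, mul_one, Complex.norm_real, Real.norm_eq_abs]
  rw [h2]
  exact div_le_div_of_nonneg_right h1 (abs_nonneg _)

/-- the comparison function against a general kernel -/
theorem av_EE_gen {k : ℝ → ℂ} (hk : DK k) : ∃ C : ℝ, 0 ≤ C ∧ ∀ t : ℝ,
    ‖av EE k t - (∫ z : ℝ, cexp (-(1 / 2) * z) * k z) * cexp ((1 / 2 : ℂ) * t)‖ ≤ C := by
  have hki : Integrable k := by
    have := tw_int hk 0 (by norm_num)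
    refine this.congr (ae_of_all _ fun z => ?_)
    simp
  refine ⟨∫ z, ‖k z‖, integral_nonneg fun z => norm_nonneg _, fun t => ?_⟩
  have hk2 := tw_int hk (1 / 2) (by norm_num)
  have e0 : ∀ z : ℝ, cexp ((1 / 2 : ℂ) * ((t - z : ℝ) : ℂ)) * k z =
      cexp ((1 / 2 : ℂ) * t) * (cexp (-(1 / 2) * z) * k z) := by
    intro z
    rw [← mul_assoc, ← Complex.exp_add]
    congr 2
    push_cast
    ring
  have e1 : Integrable (fun z : ℝ => cexp ((1 / 2 : ℂ) * ((t - z : ℝ) : ℂ)) * k z) := by
    refine (hk2.const_mul (cexp ((1 / 2 : ℂ) * t))).congr (ae_of_all _ fun z => ?_)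
    simp only
    rw [e0]
  have e2 : (∫ z : ℝ, cexp (-(1 / 2) * z) * k z) * cexp ((1 / 2 : ℂ) * t) =
      ∫ z : ℝ, cexp ((1 / 2 : ℂ) * ((t - z : ℝ) : ℂ)) * k z := by
    rw [mul_comm, ← integral_const_mul]
    refine integral_congr_ae (ae_of_all _ fun z => ?_)
    simp only
    rw [e0]
  have e3 : av EE k t - (∫ z : ℝ, cexp (-(1 / 2) * z) * k z) * cexp ((1 / 2 : ℂ) * t) =
      ∫ z : ℝ, ((ff EE (t - z) : ℂ) * k z - cexp ((1 / 2 : ℂ) * ((t - z : ℝ) : ℂ)) * k z) := by
    rw [e2]
    unfold av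
    rw [← integral_sub (av_int EE_PP hk t) e1]
  rw [e3]
  refine norm_integral_le_of_norm_le hki.norm (ae_of_all _ fun z => ?_)
  rw [← sub_mul, norm_mul]
  have h2 : ‖(ff EE (t - z) : ℂ) - cexp ((1 / 2 : ℂ) * ((t - z : ℝ) : ℂ))‖ ≤ 1 := by
    rw [EE_eq]
    by_cases h : 0 ≤ t - z
    · rw [indicator_of_mem (show t - z ∈ Ici (0:ℝ) from h), sub_self, norm_zero]
      norm_num
    · rw [indicator_of_notMem (show t - z ∉ Ici (0:ℝ) from h), zero_sub, norm_neg, norm_tw']
      refine Real.exp_le_one_iff.2 ?_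
      have h3 : ((1 / 2 : ℂ)).re = 1 / 2 := by norm_num
      rw [h3]
      linarith [not_le.1 h]
  calc ‖(ff EE (t - z) : ℂ) - cexp ((1 / 2 : ℂ) * ((t - z : ℝ) : ℂ))‖ * ‖k z‖ ≤ 1 * ‖k z‖ :=
        mul_le_mul_of_nonneg_right h2 (norm_nonneg _)
    _ = _ := one_mul _

end

end TH299.LV
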