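import Pool.Agent.TH299.LV.K3

/-!
# The functional
-/

open Complex MeasureTheory Filter Topology Set Metric H313.TK

set_option linter.unusedSectionVars false
set_option linter.unusedVariables false
set_option autoImplicit false

namespace TH299.LV

noncomputable section

/-- evaluation of the functional -/
theorem J_eval {g : ℝ → ℝ} (h : PP g) {Om : Finset ℝ} {k : ℝ → ℝ → ℂ} {D : ℝ → ℂ} (hF : Fam Om k D) (c : ℝ → ℂ)
    (C4 B : ℝ) (hB : 0 ≤ B) (t : ℝ) :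
    Integrable (fun v : ℝ => ff g (t - v) * KK Om k D c C4 B v) ∧
    ∫ v : ℝ, ff g (t - v) * KK Om k D c C4 B v =
      (∑ ω ∈ Om, c ω / D ω * ∫ w in Icc (-B) B, cexp (sg ω * w) * av g (k ω) (t - w)).re +
      C4 * (Real.exp (B / 2) * (av g kc (t - B)).re + Real.exp (-(B / 2)) * (av g kc (t + B)).re) := by
  have i1 : ∀ ω ∈ Om, Integrable (fun v : ℝ => c ω / D ω * ((ff g (t - v) : ℂ) * Hk B (sg ω) (k ω) v)) :=
    fun ω hω => (avH h (hF.dk ω hω) (sg ω) (sg_re ω) B hB t).1.const_mul _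
  have i2 : Integrable (fun v : ℝ => ∑ ω ∈ Om, c ω / D ω * ((ff g (t - v) : ℂ) * Hk B (sg ω) (k ω) v)) :=
    integrable_finsetSum _ i1
  have e2 : ∫ v : ℝ, ∑ ω ∈ Om, c ω / D ω * ((ff g (t - v) : ℂ) * Hk B (sg ω) (k ω) v) =
      ∑ ω ∈ Om, c ω / D ω * ∫ w in Icc (-B) B, cexp (sg ω * w) * av g (k ω) (t - w) := by
    rw [integral_finsetSum _ i1]
    refine Finset.sum_congr rfl fun ω hω => ?_
    rw [integral_const_mul, (avH h (hF.dk ω hω) (sg ω) (sg_re ω) B hB t).2]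
  have e3 : ∀ v : ℝ, (∑ ω ∈ Om, c ω / D ω * ((ff g (t - v) : ℂ) * Hk B (sg ω) (k ω) v)).re =
      ff g (t - v) * (KS Om k D c B v).re := by
    intro v
    rw [← Complex.re_ofReal_mul]
    congr 1
    unfold KS
    rw [Finset.mul_sum]
    refine Finset.sum_congr rfl fun ω _ => ?_
    ring
  have hm := ff_meas h.meas
  have sh : ∀ x : ℝ, Integrable (fun v : ℝ => ff g (t - v) * kp (v - x)) ∧
      ∫ v : ℝ, ff g (t - v) * kp (v - x) = (av g kc (t - x)).re := by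
    intro x
    have j1 := avg_int (ff g) hm h.bd (t - x)
    have j2 := j1.comp_sub_right x
    have e4 : (fun v : ℝ => ff g (t - x - (v - x)) * kp (v - x)) = fun v : ℝ => ff g (t - v) * kp (v - x) := by
      funext v
      rw [show t - x - (v - x) = t - v by ring]
    rw [e4] at j2
    refine ⟨j2, ?_⟩
    rw [← e4, integral_sub_right_eq_self (fun v => ff g (t - x - v) * kp v) x, av_kp, Complex.ofReal_re]
  obtain ⟨a1, b1⟩ := sh B
  obtain ⟨a2, b2⟩ := sh (-B)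
  simp only [sub_neg_eq_add] at a2 b2
  have i3 : Integrable (fun v : ℝ => ff g (t - v) * (KS Om k D c B v).re) := by
    refine i2.re.congr (ae_of_all _ fun v => ?_)
    exact e3 v
  have e5 : ∫ v : ℝ, ff g (t - v) * (KS Om k D c B v).re =
      (∑ ω ∈ Om, c ω / D ω * ∫ w in Icc (-B) B, cexp (sg ω * w) * av g (k ω) (t - w)).re := by
    rw [← e2, ← Complex.reCLM_apply, ← Complex.reCLM.integral_comp_comm i2]
    refine integral_congr_ae (ae_of_all _ fun v => ?_)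
    exact (e3 v).symm
  have e6 : (fun v : ℝ => ff g (t - v) * KK Om k D c C4 B v) = fun v : ℝ => ff g (t - v) * (KS Om k D c B v).re +
      C4 * (Real.exp (B / 2) * (ff g (t - v) * kp (v - B)) + Real.exp (-(B / 2)) * (ff g (t - v) * kp (v + B))) := by
    funext v
    unfold KK Eg
    ring
  have i4 : Integrable (fun v : ℝ => C4 * (Real.exp (B / 2) * (ff g (t - v) * kp (v - B)) +
      Real.exp (-(B / 2)) * (ff g (t - v) * kp (v + B)))) := ((a1.const_mul _).add (a2.const_mul _)).const_mul _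
  rw [e6]
  refine ⟨i3.add i4, ?_⟩
  rw [integral_add i3 i4, e5, integral_const_mul, integral_add (a1.const_mul _) (a2.const_mul _),
    integral_const_mul, integral_const_mul, b1, b2]

theorem abs_re_sub_le (z w : ℂ) : |z.re - w.re| ≤ ‖z - w‖ := by
  rw [← Complex.sub_re]
  exact Complex.abs_re_le_norm _

/-- evaluation for the function -/
theorem J_f {f : ℝ → ℝ} (h : PP f) (E : ℝ) (hE : ∀ t, ‖av f kc t‖ ≤ E) {Om : Finset ℝ} {k : ℝ → ℝ → ℂ} {D : ℝ → ℂ}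
    (hF : Fam Om k D) (A : ℝ → ℂ) (hA : ∀ ω ∈ Om, ∃ C : ℝ, ∀ t : ℝ, ‖av f (k ω) t - A ω * cexp (sg ω * t)‖ ≤ C)
    (M C4 : ℝ) (hM : 0 ≤ M) (hC4 : 0 ≤ C4) (B : ℝ) (hB : 0 ≤ B) :
    ∃ CB : ℝ, 0 ≤ CB ∧ ∀ c : ℝ → ℂ, (∀ ω ∈ Om, ‖c ω‖ ≤ M) → ∀ t : ℝ,
      |(∫ v : ℝ, ff f (t - v) * KK Om k D c C4 B v) - 2 * B * (∑ ω ∈ Om, c ω * (A ω / D ω) * cexp (sg ω * t)).re| ≤ CB := by
  have h1 : ∀ ω, ∃ C : ℝ, 0 ≤ C ∧ (ω ∈ Om → ∀ t : ℝ, ‖av f (k ω) t - A ω * cexp (sg ω * t)‖ ≤ C) := by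
    intro ω
    by_cases hω : ω ∈ Om
    · obtain ⟨C, hC⟩ := hA ω hω
      exact ⟨C, (norm_nonneg _).trans (hC 0), fun _ => hC⟩
    · exact ⟨0, le_rfl, fun h2 => absurd h2 hω⟩
  choose Cf hCf0 hCf using h1
  have hE0 : 0 ≤ E := (norm_nonneg _).trans (hE 0)
  set X : ℝ := ∑ ω ∈ Om, M / ‖D ω‖ * (Cf ω * Real.exp B * (2 * B)) with hX
  refine ⟨X + C4 * (Real.exp (B / 2) * E + Real.exp (-(B / 2)) * E), ?_, fun c hc t => ?_⟩
  · have : 0 ≤ X := Finset.sum_nonneg fun ω _ => by have := hCf0 ω; positivity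
    positivity
  obtain ⟨_, e⟩ := J_eval h hF c C4 B hB t
  rw [e]
  have h2 : ‖(∑ ω ∈ Om, c ω / D ω * ∫ w in Icc (-B) B, cexp (sg ω * w) * av f (k ω) (t - w)) -
      (((2 * B : ℝ) : ℂ)) * ∑ ω ∈ Om, c ω * (A ω / D ω) * cexp (sg ω * t)‖ ≤ X := by
    rw [Finset.mul_sum, ← Finset.sum_sub_distrib]
    refine (norm_sum_le _ _).trans (Finset.sum_le_sum fun ω hω => ?_)
    have h3 := avH_asy (av_meas h (hF.dk ω hω).cont) (A ω) (sg ω) (sg ω) (sg_re ω) (Cf ω) (hCf0 ω) (hCf ω hω) B hB t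
    rw [int_same B hB] at h3
    have hne := hF.ne ω hω
    have e3 : c ω / D ω * (∫ w in Icc (-B) B, cexp (sg ω * w) * av f (k ω) (t - w)) -
        (((2 * B : ℝ) : ℂ)) * (c ω * (A ω / D ω) * cexp (sg ω * t)) =
        c ω / D ω * ((∫ w in Icc (-B) B, cexp (sg ω * w) * av f (k ω) (t - w)) - A ω * cexp (sg ω * t) * (((2 * B : ℝ) : ℂ))) := by
      field_simp
    rw [e3, norm_mul, norm_div]
    exact mul_le_mul (div_le_div_of_nonneg_right (hc ω hω) (norm_nonneg _)) h3 (norm_nonneg _) (by positivity)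
  have h4 := (abs_re_sub_le _ _).trans h2
  rw [Complex.re_ofReal_mul] at h4
  have h5 : |(av f kc (t - B)).re| ≤ E := (Complex.abs_re_le_norm _).trans (hE _)
  have h6 : |(av f kc (t + B)).re| ≤ E := (Complex.abs_re_le_norm _).trans (hE _)
  have h7 : |C4 * (Real.exp (B / 2) * (av f kc (t - B)).re + Real.exp (-(B / 2)) * (av f kc (t + B)).re)| ≤
      C4 * (Real.exp (B / 2) * E + Real.exp (-(B / 2)) * E) := by
    rw [abs_mul, abs_of_nonneg hC4]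
    refine mul_le_mul_of_nonneg_left ((abs_add_le _ _).trans ?_) hC4
    rw [abs_mul, abs_mul, abs_of_pos (Real.exp_pos _), abs_of_pos (Real.exp_pos _)]
    exact add_le_add (mul_le_mul_of_nonneg_left h5 (Real.exp_pos _).le) (mul_le_mul_of_nonneg_left h6 (Real.exp_pos _).le)
  set Y1 : ℝ := (∑ ω ∈ Om, c ω / D ω * ∫ w in Icc (-B) B, cexp (sg ω * w) * av f (k ω) (t - w)).re
  set Y2 : ℝ := C4 * (Real.exp (B / 2) * (av f kc (t - B)).re + Real.exp (-(B / 2)) * (av f kc (t + B)).re)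
  set Y3 : ℝ := 2 * B * (∑ ω ∈ Om, c ω * (A ω / D ω) * cexp (sg ω * t)).re
  calc |Y1 + Y2 - Y3| = |(Y1 - Y3) + Y2| := by congr 1; ring
    _ ≤ |Y1 - Y3| + |Y2| := abs_add_le _ _
    _ ≤ _ := add_le_add h4 h7

/-- evaluation for the comparison function -/
theorem J_E {Om : Finset ℝ} (h0 : (0:ℝ) ∈ Om) {k : ℝ → ℝ → ℂ} {D : ℝ → ℂ} (hF : Fam Om k D) (hk0 : k 0 = kc)
    (M C4 : ℝ) (hM : 0 ≤ M) (hC4 : 0 ≤ C4) :
    ∃ r0 : ℝ, 0 ≤ r0 ∧ ∀ B : ℝ, 0 ≤ B → ∃ CB : ℝ, 0 ≤ CB ∧ ∀ c : ℝ → ℂ, (∀ ω ∈ Om, ‖c ω‖ ≤ M) → ∀ t : ℝ,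
      |(∫ v : ℝ, ff EE (t - v) * KK Om k D c C4 B v) - Real.exp (t / 2) * (2 * B * (c 0).re)| ≤
        Real.exp (t / 2) * r0 + CB := by
  have h1 : ∀ ω, ∃ C : ℝ, 0 ≤ C ∧ (ω ∈ Om → ∀ t : ℝ,
      ‖av EE (k ω) t - (∫ z : ℝ, cexp (-(1 / 2) * z) * k ω z) * cexp ((1 / 2 : ℂ) * t)‖ ≤ C) := by
    intro ω
    by_cases hω : ω ∈ Om
    · obtain ⟨C, hC, hb⟩ := av_EE_gen (hF.dk ω hω)
      exact ⟨C, hC, fun _ => hb⟩
    · exact ⟨0, le_rfl, fun h2 => absurd h2 hω⟩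
  choose Cf hCf0 hCf using h1
  set Ek : ℝ → ℂ := fun ω => ∫ z : ℝ, cexp (-(1 / 2) * z) * k ω z with hEk
  have hD0 : Ek 0 = D 0 := by
    rw [← hF.dv 0 h0]
    simp only [hEk]
    refine integral_congr_ae (ae_of_all _ fun z => ?_)
    simp only
    unfold sg
    simp
  have hEP : Ek 0 = (P1 : ℂ) := by
    simp only [hEk]
    rw [hk0, P1_eq]
    rfl
  have hP1 := P1_nonneg
  set r1 : ℝ := ∑ ω ∈ Om.erase 0, M / ‖D ω‖ * (‖Ek ω‖ * (2 / |ω|)) with hr1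
  have hr10 : 0 ≤ r1 := Finset.sum_nonneg fun ω _ => by positivity
  refine ⟨r1 + 2 * C4 * P1, by positivity, fun B hB => ?_⟩
  set X : ℝ := ∑ ω ∈ Om, M / ‖D ω‖ * (Cf ω * Real.exp B * (2 * B)) with hX
  have hX0 : 0 ≤ X := Finset.sum_nonneg fun ω _ => by have := hCf0 ω; positivity
  refine ⟨X + C4 * (Real.exp (B / 2) * Cf 0 + Real.exp (-(B / 2)) * Cf 0), ?_, fun c hc t => ?_⟩
  · have := hCf0 0
    positivity
  obtain ⟨_, e⟩ := J_eval EE_PP hF c C4 B hB t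
  rw [e]
  -- main sum
  have h2 : ‖(∑ ω ∈ Om, c ω / D ω * ∫ w in Icc (-B) B, cexp (sg ω * w) * av EE (k ω) (t - w)) -
      ∑ ω ∈ Om, c ω / D ω * (Ek ω * cexp ((1 / 2 : ℂ) * t) * ∫ w in Icc (-B) B, cexp ((sg ω - 1 / 2) * w))‖ ≤ X := by
    rw [← Finset.sum_sub_distrib]
    refine (norm_sum_le _ _).trans (Finset.sum_le_sum fun ω hω => ?_)
    have h3 := avH_asy (av_meas EE_PP (hF.dk ω hω).cont) (Ek ω) (1 / 2) (sg ω) (sg_re ω) (Cf ω) (hCf0 ω) (hCf ω hω) B hB t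
    rw [← mul_sub, norm_mul, norm_div]
    exact mul_le_mul (div_le_div_of_nonneg_right (hc ω hω) (norm_nonneg _)) h3 (norm_nonneg _) (by positivity)
  have hnt : ‖cexp ((1 / 2 : ℂ) * t)‖ = Real.exp (t / 2) := by
    rw [norm_tw']
    congr 1
    norm_num
    ring
  have h3 : ‖(∑ ω ∈ Om, c ω / D ω * (Ek ω * cexp ((1 / 2 : ℂ) * t) * ∫ w in Icc (-B) B, cexp ((sg ω - 1 / 2) * w))) -
      c 0 * cexp ((1 / 2 : ℂ) * t) * (((2 * B : ℝ) : ℂ))‖ ≤ Real.exp (t / 2) * r1 := by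
    rw [← Finset.add_sum_erase Om _ h0]
    have e4 : c 0 / D 0 * (Ek 0 * cexp ((1 / 2 : ℂ) * t) * ∫ w in Icc (-B) B, cexp ((sg 0 - 1 / 2) * w)) =
        c 0 * cexp ((1 / 2 : ℂ) * t) * (((2 * B : ℝ) : ℂ)) := by
      have e5 : sg 0 = 1 / 2 := by unfold sg; simp
      have hne := hF.ne 0 h0
      rw [e5, int_same B hB, hD0]
      field_simp
    rw [e4, add_sub_cancel_left]
    refine (norm_sum_le _ _).trans ?_
    rw [hr1, Finset.mul_sum]
    refine Finset.sum_le_sum fun ω hω => ?_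
    rw [Finset.mem_erase] at hω
    have h5 := int_diff B hB ω hω.1
    rw [norm_mul, norm_div, norm_mul, norm_mul, hnt]
    calc ‖c ω‖ / ‖D ω‖ * (‖Ek ω‖ * Real.exp (t / 2) * ‖∫ w in Icc (-B) B, cexp ((sg ω - 1 / 2) * w)‖) ≤
          M / ‖D ω‖ * (‖Ek ω‖ * Real.exp (t / 2) * (2 / |ω|)) := by
          refine mul_le_mul (div_le_div_of_nonneg_right (hc ω hω.2) (norm_nonneg _)) ?_ (by positivity) (by positivity)
          exact mul_le_mul_of_nonneg_left h5 (by positivity)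
      _ = _ := by ring
  have h4 := (abs_re_sub_le _ _).trans h2
  have h5 := (abs_re_sub_le _ _).trans h3
  have e6 : (c 0 * cexp ((1 / 2 : ℂ) * t) * (((2 * B : ℝ) : ℂ))).re = Real.exp (t / 2) * (2 * B * (c 0).re) := by
    have : cexp ((1 / 2 : ℂ) * t) = ((Real.exp (t / 2) : ℝ) : ℂ) := by
      rw [Complex.ofReal_exp]
      congr 1
      push_cast
      ring
    rw [this, mul_assoc, ← Complex.ofReal_mul, mul_comm, Complex.re_ofReal_mul]
    ring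
  rw [e6] at h5
  -- the edge terms
  have h6 : ∀ x : ℝ, |(av EE kc (t + x)).re| ≤ P1 * Real.exp ((t + x) / 2) + Cf 0 := by
    intro x
    have h7 := hCf 0 h0 (t + x)
    rw [hk0] at h7
    have h8 : (∫ z : ℝ, cexp (-(1 / 2) * z) * kc z) = (P1 : ℂ) := by
      rw [← hEP]
      simp only [hEk]
      rw [hk0]
    rw [h8] at h7
    have h9 : ‖(P1 : ℂ) * cexp ((1 / 2 : ℂ) * ((t + x : ℝ) : ℂ))‖ = P1 * Real.exp ((t + x) / 2) := by
      rw [norm_mul, norm_tw', Complex.norm_real, Real.norm_eq_abs, abs_of_nonneg hP1]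
      congr 2
      norm_num
      ring
    calc |(av EE kc (t + x)).re| ≤ ‖av EE kc (t + x)‖ := Complex.abs_re_le_norm _
      _ = ‖(P1 : ℂ) * cexp ((1 / 2 : ℂ) * ((t + x : ℝ) : ℂ)) + (av EE kc (t + x) - (P1 : ℂ) * cexp ((1 / 2 : ℂ) * ((t + x : ℝ) : ℂ)))‖ := by
          congr 1; ring
      _ ≤ _ := (norm_add_le _ _).trans (by rw [h9]; linarith)
  have h7 : |C4 * (Real.exp (B / 2) * (av EE kc (t - B)).re + Real.exp (-(B / 2)) * (av EE kc (t + B)).re)| ≤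
      Real.exp (t / 2) * (2 * C4 * P1) + C4 * (Real.exp (B / 2) * Cf 0 + Real.exp (-(B / 2)) * Cf 0) := by
    rw [abs_mul, abs_of_nonneg hC4]
    have h8 := h6 (-B)
    rw [← sub_eq_add_neg] at h8
    have h9 := h6 B
    have h10 : |Real.exp (B / 2) * (av EE kc (t - B)).re + Real.exp (-(B / 2)) * (av EE kc (t + B)).re| ≤
        Real.exp (B / 2) * (P1 * Real.exp ((t - B) / 2) + Cf 0) + Real.exp (-(B / 2)) * (P1 * Real.exp ((t + B) / 2) + Cf 0) := by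
      refine (abs_add_le _ _).trans ?_
      rw [abs_mul, abs_mul, abs_of_pos (Real.exp_pos _), abs_of_pos (Real.exp_pos _)]
      exact add_le_add (mul_le_mul_of_nonneg_left h8 (Real.exp_pos _).le) (mul_le_mul_of_nonneg_left h9 (Real.exp_pos _).le)
    have e7 : Real.exp (B / 2) * Real.exp ((t - B) / 2) = Real.exp (t / 2) := by
      rw [← Real.exp_add]; congr 1; ring
    have e8 : Real.exp (-(B / 2)) * Real.exp ((t + B) / 2) = Real.exp (t / 2) := by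
      rw [← Real.exp_add]; congr 1; ring
    refine (mul_le_mul_of_nonneg_left h10 hC4).trans (le_of_eq ?_)
    linear_combination (C4 * P1) * e7 + (C4 * P1) * e8
  set Y1 : ℝ := (∑ ω ∈ Om, c ω / D ω * ∫ w in Icc (-B) B, cexp (sg ω * w) * av EE (k ω) (t - w)).re
  set Y2 : ℝ := C4 * (Real.exp (B / 2) * (av EE kc (t - B)).re + Real.exp (-(B / 2)) * (av EE kc (t + B)).re)
  set Y3 : ℝ := Real.exp (t / 2) * (2 * B * (c 0).re)
  set Y4 : ℝ := (∑ ω ∈ Om, c ω / D ω * (Ek ω * cexp ((1 / 2 : ℂ) * t) * ∫ w in Icc (-B) B, cexp ((sg ω - 1 / 2) * w))).re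
  calc |Y1 + Y2 - Y3| = |(Y1 - Y4) + (Y4 - Y3) + Y2| := by congr 1; ring
    _ ≤ |Y1 - Y4| + |Y4 - Y3| + |Y2| := (abs_add_le _ _).trans (add_le_add (abs_add_le _ _) le_rfl)
    _ ≤ X + Real.exp (t / 2) * r1 + (Real.exp (t / 2) * (2 * C4 * P1) + C4 * (Real.exp (B / 2) * Cf 0 + Real.exp (-(B / 2)) * Cf 0)) :=
        add_le_add (add_le_add h4 h5) h7
    _ = _ := by ring

end

end TH299.LV
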