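import Pool.Agent.TH299.LV.K4

/-!
# The transfer theorem
-/

open Complex MeasureTheory Filter Topology Set Metric H313.TK

set_option linter.unusedSectionVars false
set_option linter.unusedVariables false
set_option autoImplicit false

namespace TH299.LV

noncomputable section

theorem tailc (m : ℝ → ℝ) (hm : Measurable m) (hm0 : ∀ u, 0 ≤ m u) (hb : ∀ u, m u ≤ Real.exp u) (t a : ℝ) (ha : 0 ≤ a) :
    ∫ v in (Icc (-a) a)ᶜ, m (t - v) * kp v ≤ 8 * C0 * D1 * (Real.exp (t + a) * W (-a)) := by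
  have hi := avg_int m hm (fun u => by rw [abs_of_nonneg (hm0 u)]; exact hb u) t
  have h1 := tail m hm hm0 hb t a ha
  rw [← integral_add_compl (measurableSet_Icc (a := -a) (b := a)) hi] at h1
  linarith

/-- the one-sided inequality -/
theorem one_side {g : ℝ → ℝ} (hgm : Measurable g) (Kc : ℝ) (hK : 0 < Kc) (hgb : ∀ u, |g u| ≤ Kc * Real.exp u)
    {Om : Finset ℝ} {k : ℝ → ℝ → ℂ} {D : ℝ → ℂ} (c : ℝ → ℂ) (C4 B : ℝ) (hB : 0 ≤ B) (hC4 : 0 ≤ C4)
    (hpos : ∀ v, 0 ≤ KK Om k D c C4 B v) (hout : ∀ v, B ≤ |v| → KK Om k D c C4 B v ≤ 2 * C4 * Eg B v)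
    (t a : ℝ) (ha : 0 ≤ a) (hi : Integrable (fun v => g (t - v) * KK Om k D c C4 B v))
    (hneg : ∀ u ∈ Icc (t - B - a) (t + B + a), g u ≤ 0) :
    ∫ v, g (t - v) * KK Om k D c C4 B v ≤
      Kc * (2 * C4) * (Real.exp (B / 2) + Real.exp (-(B / 2))) * (8 * C0 * D1 * (Real.exp (t + a) * W (-a))) := by
  set m : ℝ → ℝ := fun u => max (g u) 0 / Kc with hm
  have hmm : Measurable m := (hgm.max measurable_const).div_const _
  have hm0 : ∀ u, 0 ≤ m u := fun u => div_nonneg (le_max_right _ _) hK.le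
  have hmb : ∀ u, m u ≤ Real.exp u := by
    intro u
    simp only [hm]
    rw [div_le_iff₀ hK]
    refine max_le ?_ (by positivity)
    exact (le_abs_self _).trans ((hgb u).trans (le_of_eq (mul_comm _ _)))
  have hgm2 : ∀ u, g u ≤ Kc * m u := by
    intro u
    simp only [hm]
    rw [mul_div_cancel₀ _ hK.ne']
    exact le_max_left _ _
  have hX : ∀ x : ℝ, Integrable (((Icc (-a) a)ᶜ).indicator (fun z => m (x - z) * kp z)) := fun x =>
    (avg_int m hmm (fun u => by rw [abs_of_nonneg (hm0 u)]; exact hmb u) x).indicator measurableSet_Icc.compl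
  have hX0 : ∀ x z : ℝ, 0 ≤ ((Icc (-a) a)ᶜ).indicator (fun z => m (x - z) * kp z) z := by
    intro x z
    exact indicator_nonneg (fun z _ => mul_nonneg (hm0 _) (kp_nonneg _)) z
  set X1 : ℝ → ℝ := fun v => ((Icc (-a) a)ᶜ).indicator (fun z => m (t - B - z) * kp z) (v - B) with hX1
  set X2 : ℝ → ℝ := fun v => ((Icc (-a) a)ᶜ).indicator (fun z => m (t + B - z) * kp z) (v - (-B)) with hX2
  have i1 : Integrable X1 := (hX (t - B)).comp_sub_right B
  have i2 : Integrable X2 := (hX (t + B)).comp_sub_right (-B)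
  have e1 : ∫ v, X1 v ≤ 8 * C0 * D1 * (Real.exp (t - B + a) * W (-a)) := by
    have h1 := tailc m hmm hm0 hmb (t - B) a ha
    rw [← integral_indicator measurableSet_Icc.compl] at h1
    refine le_trans (le_of_eq ?_) h1
    exact integral_sub_right_eq_self (((Icc (-a) a)ᶜ).indicator (fun z => m (t - B - z) * kp z)) B
  have e2 : ∫ v, X2 v ≤ 8 * C0 * D1 * (Real.exp (t + B + a) * W (-a)) := by
    have h1 := tailc m hmm hm0 hmb (t + B) a ha
    rw [← integral_indicator measurableSet_Icc.compl] at h1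
    refine le_trans (le_of_eq ?_) h1
    exact integral_sub_right_eq_self (((Icc (-a) a)ᶜ).indicator (fun z => m (t + B - z) * kp z)) (-B)
  have hpt : ∀ v, g (t - v) * KK Om k D c C4 B v ≤
      Kc * (2 * C4) * (Real.exp (B / 2) * X1 v + Real.exp (-(B / 2)) * X2 v) := by
    intro v
    have hx1 : 0 ≤ X1 v := hX0 _ _
    have hx2 : 0 ≤ X2 v := hX0 _ _
    by_cases hv : |v| ≤ B + a
    · have h1 := abs_le.1 hv
      have h2 : g (t - v) ≤ 0 := hneg _ ⟨by linarith [h1.2], by linarith [h1.1]⟩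
      have h3 : g (t - v) * KK Om k D c C4 B v ≤ 0 := mul_nonpos_of_nonpos_of_nonneg h2 (hpos v)
      refine h3.trans ?_
      positivity
    · push Not at hv
      have hs1 : v - B ∈ (Icc (-a) a)ᶜ := by
        intro hcon
        rcases le_total 0 v with h | h
        · rw [abs_of_nonneg h] at hv
          linarith [hcon.2]
        · rw [abs_of_nonpos h] at hv
          linarith [hcon.1]
      have hs2 : v - (-B) ∈ (Icc (-a) a)ᶜ := by
        intro hcon
        rcases le_total 0 v with h | h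
        · rw [abs_of_nonneg h] at hv
          linarith [hcon.2]
        · rw [abs_of_nonpos h] at hv
          linarith [hcon.1]
      have e3 : X1 v = m (t - v) * kp (v - B) := by
        simp only [hX1]
        rw [indicator_of_mem hs1, show t - B - (v - B) = t - v by ring]
      have e4 : X2 v = m (t - v) * kp (v + B) := by
        simp only [hX2]
        rw [indicator_of_mem hs2, show t + B - (v - -B) = t - v by ring, sub_neg_eq_add]
      have h5 := hout v (by linarith)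
      calc g (t - v) * KK Om k D c C4 B v ≤ (Kc * m (t - v)) * KK Om k D c C4 B v :=
            mul_le_mul_of_nonneg_right (hgm2 _) (hpos v)
        _ ≤ (Kc * m (t - v)) * (2 * C4 * Eg B v) := mul_le_mul_of_nonneg_left h5 (mul_nonneg hK.le (hm0 _))
        _ = _ := by rw [e3, e4]; unfold Eg; ring
  have hint : Integrable (fun v => Kc * (2 * C4) * (Real.exp (B / 2) * X1 v + Real.exp (-(B / 2)) * X2 v)) :=
    ((i1.const_mul _).add (i2.const_mul _)).const_mul _
  have h6 := integral_mono hi hint hpt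
  rw [integral_const_mul, integral_add (i1.const_mul _) (i2.const_mul _), integral_const_mul, integral_const_mul] at h6
  refine h6.trans ?_
  rw [mul_assoc (Kc * (2 * C4))]
  refine mul_le_mul_of_nonneg_left ?_ (by positivity)
  have e7 : Real.exp (B / 2) * Real.exp (t - B + a) = Real.exp (-(B / 2)) * Real.exp (t + a) := by
    rw [← Real.exp_add, ← Real.exp_add]; congr 1; ring
  have e8 : Real.exp (-(B / 2)) * Real.exp (t + B + a) = Real.exp (B / 2) * Real.exp (t + a) := by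
    rw [← Real.exp_add, ← Real.exp_add]; congr 1; ring
  calc Real.exp (B / 2) * (∫ v, X1 v) + Real.exp (-(B / 2)) * (∫ v, X2 v) ≤
        Real.exp (B / 2) * (8 * C0 * D1 * (Real.exp (t - B + a) * W (-a))) +
        Real.exp (-(B / 2)) * (8 * C0 * D1 * (Real.exp (t + B + a) * W (-a))) :=
        add_le_add (mul_le_mul_of_nonneg_left e1 (Real.exp_pos _).le) (mul_le_mul_of_nonneg_left e2 (Real.exp_pos _).le)
    _ = _ := by linear_combination (8 * C0 * D1 * W (-a)) * e7 + (8 * C0 * D1 * W (-a)) * e8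

theorem grow_ev (X Y : ℝ) : ∀ᶠ t : ℝ in atTop,
    X + Y * (Real.exp (t + Real.log t / 2) * W (-(Real.log t / 2))) < Real.exp (t / 2) := by
  have h1 : Tendsto (fun l : ℝ => l * Real.exp (-(l / 4))) atTop (𝓝 0) := by
    have h2 : Tendsto (fun l : ℝ => l / 4) atTop atTop := tendsto_id.atTop_div_const (by norm_num)
    have h3 := (Real.tendsto_pow_mul_exp_neg_atTop_nhds_zero 1).comp h2
    have h4 : Tendsto (fun l : ℝ => 4 * ((l / 4) ^ 1 * Real.exp (-(l / 4)))) atTop (𝓝 (4 * 0)) := h3.const_mul 4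
    rw [mul_zero] at h4
    refine h4.congr fun l => ?_
    ring
  have h5 : Tendsto (fun l : ℝ => |Y| * (l * Real.exp (-(l / 4)))) atTop (𝓝 (|Y| * 0)) := h1.const_mul _
  rw [mul_zero] at h5
  have h6 := h5.eventually (gt_mem_nhds (show (0:ℝ) < 1 / 2 by norm_num))
  have h7 : Tendsto (fun t : ℝ => Real.exp (t / 2)) atTop atTop :=
    Real.tendsto_exp_atTop.comp (tendsto_id.atTop_div_const (by norm_num))
  filter_upwards [h6, h7.eventually_gt_atTop (2 * X), eventually_ge_atTop (1:ℝ)] with t h8 h9 h10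
  have ht0 : 0 < t := by linarith
  have hl := Real.log_nonneg h10
  have e1 : Real.exp (t + Real.log t / 2) ≤ Real.exp t * t := by
    have : Real.exp (t + Real.log t / 2) ≤ Real.exp (t + Real.log t) := Real.exp_le_exp.2 (by linarith)
    rwa [Real.exp_add t (Real.log t), Real.exp_log ht0] at this
  have e2 : W (-(Real.log t / 2)) ≤ Real.exp (-(3 / 4 * t)) := by
    unfold W
    refine Real.exp_le_exp.2 ?_
    rw [max_eq_right (by linarith), abs_neg, abs_of_nonneg (by linarith)]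
    have e3 : 2 * (Real.log t / 2) = Real.log t := by ring
    rw [e3, Real.exp_log ht0]
    have := Real.pi_gt_three
    nlinarith
  have e3 : Real.exp (t + Real.log t / 2) * W (-(Real.log t / 2)) ≤ (t * Real.exp (-(t / 4))) * Real.exp (t / 2) := by
    calc Real.exp (t + Real.log t / 2) * W (-(Real.log t / 2)) ≤ (Real.exp t * t) * Real.exp (-(3 / 4 * t)) :=
          mul_le_mul e1 e2 (W_pos _).le (by positivity)
      _ = t * (Real.exp t * Real.exp (-(3 / 4 * t))) := by ring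
      _ = t * (Real.exp (-(t / 4)) * Real.exp (t / 2)) := by rw [← Real.exp_add, ← Real.exp_add]; congr 2; ring
      _ = _ := by ring
  have hE := Real.exp_pos (t / 2)
  have e4 : Y * (Real.exp (t + Real.log t / 2) * W (-(Real.log t / 2))) ≤ |Y| * ((t * Real.exp (-(t / 4))) * Real.exp (t / 2)) := by
    have h11 : 0 ≤ Real.exp (t + Real.log t / 2) * W (-(Real.log t / 2)) := mul_nonneg (Real.exp_pos _).le (W_pos _).le
    calc Y * (Real.exp (t + Real.log t / 2) * W (-(Real.log t / 2))) ≤ |Y| * (Real.exp (t + Real.log t / 2) * W (-(Real.log t / 2))) :=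
          mul_le_mul_of_nonneg_right (le_abs_self _) h11
      _ ≤ _ := mul_le_mul_of_nonneg_left e3 (abs_nonneg _)
  have e5 : |Y| * ((t * Real.exp (-(t / 4))) * Real.exp (t / 2)) < 1 / 2 * Real.exp (t / 2) := by
    rw [← mul_assoc]
    exact mul_lt_mul_of_pos_right h8 hE
  linarith

/-- **Transfer theorem** in the exponential scale. -/
theorem transfer {f : ℝ → ℝ} (h : PP f) (E : ℝ) (hE : ∀ t, ‖av f kc t‖ ≤ E) {Om : Finset ℝ} (h0 : (0:ℝ) ∈ Om)
    {k : ℝ → ℝ → ℂ} {D : ℝ → ℂ} (hF : Fam Om k D) (hk0 : k 0 = kc) (A : ℝ → ℂ) (hA0 : A 0 = 0)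
    (hA : ∀ ω ∈ Om, ∃ C : ℝ, ∀ t : ℝ, ‖av f (k ω) t - A ω * cexp (sg ω * t)‖ ≤ C)
    (c : ℝ → ℂ) (hc0 : (c 0).re = 1) (hT : ∀ v, 0 ≤ Tp Om c v) (ε : ℝ) (hε : 0 < ε) :
    ∃ B : ℝ, 0 ≤ B ∧ ∀ᶠ t : ℝ in atTop, ∀ s : ℝ, s = 1 ∨ s = -1 → ∀ τ : ℝ,
      ∃ u ∈ Icc (t - B - Real.log t / 2) (t + B + Real.log t / 2),
        (s * (∑ ω ∈ Om, c ω * (A ω / D ω) * cexp (ω * I * τ)).re - ε) * Real.exp (u / 2) ≤ s * ff f u := by
  set G1 : ℝ := ∑ ω ∈ Om, ‖c ω * (A ω / D ω)‖ with hG1
  have hG10 : 0 ≤ G1 := Finset.sum_nonneg fun ω _ => norm_nonneg _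
  set K1 : ℝ := G1 + ε with hK1
  have hK10 : 0 < K1 := by positivity
  set e0 : ℝ := ε / (2 * K1) with he0
  have he00 : 0 < e0 := by positivity
  set M : ℝ := (∑ ω ∈ Om, ‖c ω‖) + e0 with hM
  have hM0 : 0 ≤ M := by have : 0 ≤ ∑ ω ∈ Om, ‖c ω‖ := Finset.sum_nonneg fun ω _ => norm_nonneg _; positivity
  obtain ⟨R, hR, C4, hC4, hKpos⟩ := KK_pos hF M e0 hM0 he00
  obtain ⟨r0, hr0, hJE⟩ := J_E h0 hF hk0 M C4 hM0 hC4
  set B : ℝ := max R ((K1 * r0 + 1) / ε) with hB
  have hBR : R ≤ B := le_max_left _ _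
  have hB0 : 0 ≤ B := hR.trans hBR
  have hBe : K1 * r0 + 1 ≤ B * ε := by
    have : (K1 * r0 + 1) / ε ≤ B := le_max_right _ _
    rwa [div_le_iff₀ hε] at this
  obtain ⟨CE, hCE0, hCE⟩ := hJE B hB0
  obtain ⟨Cf, hCf0, hCf⟩ := J_f h E hE hF A hA M C4 hM0 hC4 B hB0
  refine ⟨B, hB0, ?_⟩
  filter_upwards [grow_ev (Cf + K1 * CE) ((1 + K1) * (2 * C4) * (Real.exp (B / 2) + Real.exp (-(B / 2))) * (8 * C0 * D1)),
    eventually_ge_atTop (max 1 (2 * B))] with t ht ht1 s hs τ
  have ht1' : 1 ≤ t := (le_max_left _ _).trans ht1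
  have ha0 : 0 ≤ Real.log t / 2 := by have := Real.log_nonneg ht1'; positivity
  by_contra hcon
  push Not at hcon
  -- coefficients
  set c' : ℝ → ℂ := fun ω => (c ω + (if ω = 0 then (e0 : ℂ) else 0)) * cexp (ω * I * ((τ - t : ℝ) : ℂ)) with hc'
  have hun : ∀ ω x : ℝ, ‖cexp (ω * I * (x : ℂ))‖ = 1 := by
    intro ω x
    rw [show (ω : ℂ) * I * (x : ℂ) = ((ω * x : ℝ) : ℂ) * I by push_cast; ring]
    exact Complex.norm_exp_ofReal_mul_I _
  have hc'M : ∀ ω ∈ Om, ‖c' ω‖ ≤ M := by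
    intro ω hω
    simp only [hc']
    rw [norm_mul, hun, mul_one]
    refine (norm_add_le _ _).trans (add_le_add ?_ ?_)
    · exact Finset.single_le_sum (f := fun ω => ‖c ω‖) (fun i _ => norm_nonneg _) hω
    · split_ifs
      · rw [Complex.norm_real, Real.norm_eq_abs, abs_of_pos he00]
      · rw [norm_zero]; exact he00.le
  have hsum : ∀ v : ℝ, ∑ ω ∈ Om, (if ω = 0 then (e0 : ℂ) else 0) * cexp (ω * I * (v : ℂ)) = (e0 : ℂ) := by
    intro v
    have : ∀ ω ∈ Om, (if ω = 0 then (e0 : ℂ) else 0) * cexp (ω * I * (v : ℂ)) = if ω = 0 then (e0 : ℂ) else 0 := by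
      intro ω _
      split_ifs with h1
      · rw [h1]; simp
      · simp
    rw [Finset.sum_congr rfl this, Finset.sum_ite_eq' Om (0:ℝ) (fun _ => (e0 : ℂ)), if_pos h0]
  have hT' : ∀ v, e0 ≤ Tp Om c' v := by
    intro v
    have h1 := hT (v + (τ - t))
    have h2 : Tp Om c' v = Tp Om c (v + (τ - t)) + e0 := by
      unfold Tp
      have e1 : ∑ ω ∈ Om, c' ω * cexp (ω * I * (v : ℂ)) =
          ∑ ω ∈ Om, c ω * cexp (ω * I * ((v + (τ - t) : ℝ) : ℂ)) +
          ∑ ω ∈ Om, (if ω = 0 then (e0 : ℂ) else 0) * cexp (ω * I * ((v + (τ - t) : ℝ) : ℂ)) := by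
        rw [← Finset.sum_add_distrib]
        refine Finset.sum_congr rfl fun ω _ => ?_
        simp only [hc']
        have : cexp (ω * I * ((v + (τ - t) : ℝ) : ℂ)) = cexp (ω * I * ((τ - t : ℝ) : ℂ)) * cexp (ω * I * (v : ℂ)) := by
          rw [← Complex.exp_add]
          congr 1
          push_cast
          ring
        rw [this]
        ring
      rw [e1, hsum, Complex.add_re, Complex.ofReal_re]
    rw [h2]
    linarith
  obtain ⟨hpos, hout⟩ := hKpos B hBR c' hc'M hT'
  have j1 := hCf c' hc'M t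
  have j2 := hCE c' hc'M t
  obtain ⟨if1, _⟩ := J_eval h hF c' C4 B hB0 t
  obtain ⟨iE1, _⟩ := J_eval EE_PP hF c' C4 B hB0 t
  set G : ℝ := (∑ ω ∈ Om, c ω * (A ω / D ω) * cexp (ω * I * τ)).re with hG
  have hGle : |G| ≤ G1 := by
    rw [hG, hG1]
    refine (Complex.abs_re_le_norm _).trans ((norm_sum_le _ _).trans (Finset.sum_le_sum fun ω _ => ?_))
    rw [norm_mul, hun, mul_one]
  have hmain : (∑ ω ∈ Om, c' ω * (A ω / D ω) * cexp (sg ω * t)).re = Real.exp (t / 2) * G := by
    rw [hG, ← Complex.re_ofReal_mul, Finset.mul_sum]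
    congr 1
    refine Finset.sum_congr rfl fun ω _ => ?_
    have e1 : c' ω * (A ω / D ω) = c ω * cexp (ω * I * ((τ - t : ℝ) : ℂ)) * (A ω / D ω) := by
      simp only [hc']
      split_ifs with h1
      · rw [h1, hA0]; simp
      · rw [add_zero]
    have e2 : cexp (ω * I * ((τ - t : ℝ) : ℂ)) * cexp (sg ω * t) = ((Real.exp (t / 2) : ℝ) : ℂ) * cexp (ω * I * τ) := by
      rw [Complex.ofReal_exp, ← Complex.exp_add, ← Complex.exp_add]
      congr 1
      unfold sg
      push_cast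
      ring
    rw [e1]
    linear_combination (c ω * (A ω / D ω)) * e2
  have hc'0 : (c' 0).re = 1 + e0 := by
    simp only [hc']
    simp [hc0]
  rw [hmain] at j1
  rw [hc'0] at j2
  -- the comparison
  set κ : ℝ := s * G - ε with hκ
  have hsa : |s| = 1 := by rcases hs with h1 | h1 <;> rw [h1] <;> simp
  have hκle : |κ| ≤ K1 := by
    rw [hκ, hK1]
    refine (abs_sub _ _).trans ?_
    rw [abs_mul, hsa, one_mul, abs_of_pos hε]
    linarith
  set g : ℝ → ℝ := fun u => s * ff f u - κ * ff EE u with hg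
  have hfm := ff_meas h.meas
  have hEm := ff_meas EE_PP.meas
  have hgm : Measurable g := by simp only [hg]; fun_prop
  have hgb : ∀ u, |g u| ≤ (1 + K1) * Real.exp u := by
    intro u
    simp only [hg]
    refine (abs_sub _ _).trans ?_
    rw [abs_mul, abs_mul, hsa, one_mul, add_mul, one_mul]
    exact add_le_add (h.bd u) (mul_le_mul hκle (EE_PP.bd u) (abs_nonneg _) hK10.le)
  have hgi : Integrable (fun v => g (t - v) * KK Om k D c' C4 B v) := by
    refine ((if1.const_mul s).sub (iE1.const_mul κ)).congr (ae_of_all _ fun v => ?_)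
    simp only [hg, Pi.sub_apply]
    ring
  have hgI : ∫ v, g (t - v) * KK Om k D c' C4 B v =
      s * (∫ v, ff f (t - v) * KK Om k D c' C4 B v) - κ * ∫ v, ff EE (t - v) * KK Om k D c' C4 B v := by
    rw [← integral_const_mul, ← integral_const_mul, ← integral_sub (if1.const_mul s) (iE1.const_mul κ)]
    refine integral_congr_ae (ae_of_all _ fun v => ?_)
    simp only [hg]
    ring
  have hneg : ∀ u ∈ Icc (t - B - Real.log t / 2) (t + B + Real.log t / 2), g u ≤ 0 := by
    intro u hu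
    have h1 := hcon u hu
    simp only [hg]
    have hu0 : 0 ≤ u := by
      have h2 : 2 * B ≤ t := (le_max_right _ _).trans ht1
      have h3 : Real.log t ≤ t - 1 := Real.log_le_sub_one_of_pos (by linarith)
      have h4 := hu.1
      linarith
    have h2 : ff EE u = Real.exp (u / 2) := by
      unfold ff EE
      rw [if_pos (Real.one_le_exp hu0), sqrt_exp]
    rw [h2]
    linarith
  have hone := one_side hgm (1 + K1) (by positivity) hgb c' C4 B hB0 hC4 hpos hout t (Real.log t / 2) ha0 hgi hneg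
  rw [hgI] at hone
  set JF : ℝ := ∫ v, ff f (t - v) * KK Om k D c' C4 B v with hJF
  set JE : ℝ := ∫ v, ff EE (t - v) * KK Om k D c' C4 B v with hJEd
  have hex := Real.exp_pos (t / 2)
  -- lower bound for s * JF
  have l1 : s * (2 * B * (Real.exp (t / 2) * G)) - Cf ≤ s * JF := by
    have h1 : |s * (JF - 2 * B * (Real.exp (t / 2) * G))| ≤ Cf := by rw [abs_mul, hsa, one_mul]; exact j1
    have h2 := (abs_le.1 h1).1
    linarith
  -- upper bound for κ * JE
  have l2 : κ * JE ≤ κ * (Real.exp (t / 2) * (2 * B * (1 + e0))) + K1 * (Real.exp (t / 2) * r0 + CE) := by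
    have h1 : |κ * (JE - Real.exp (t / 2) * (2 * B * (1 + e0)))| ≤ K1 * (Real.exp (t / 2) * r0 + CE) := by
      rw [abs_mul]
      exact mul_le_mul hκle j2 (abs_nonneg _) hK10.le
    have h2 := (abs_le.1 h1).2
    linarith
  have l3 : κ * e0 ≤ ε / 2 := by
    have h1 : κ ≤ K1 := (le_abs_self _).trans hκle
    calc κ * e0 ≤ K1 * e0 := mul_le_mul_of_nonneg_right h1 he00.le
      _ = ε / 2 := by rw [he0]; field_simp
  have l4 : s * (2 * B * (Real.exp (t / 2) * G)) - κ * (Real.exp (t / 2) * (2 * B * (1 + e0))) =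
      Real.exp (t / 2) * (2 * B * (ε - κ * e0)) := by
    rw [hκ]
    ring
  have l5 : Real.exp (t / 2) * (B * ε) ≤ Real.exp (t / 2) * (2 * B * (ε - κ * e0)) := by
    refine mul_le_mul_of_nonneg_left ?_ hex.le
    nlinarith
  have l6 : Real.exp (t / 2) * (K1 * r0 + 1) ≤ Real.exp (t / 2) * (B * ε) := mul_le_mul_of_nonneg_left hBe hex.le
  have l7 : (1 + K1) * (2 * C4) * (Real.exp (B / 2) + Real.exp (-(B / 2))) * (8 * C0 * D1 * (Real.exp (t + Real.log t / 2) * W (-(Real.log t / 2)))) =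
      (1 + K1) * (2 * C4) * (Real.exp (B / 2) + Real.exp (-(B / 2))) * (8 * C0 * D1) * (Real.exp (t + Real.log t / 2) * W (-(Real.log t / 2))) := by ring
  rw [l7] at hone
  linarith

end

end TH299.LV
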