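import Pool.Agent.TH299.LV.K5

/-!
# Localised lower bounds by nonnegative trigonometric polynomials
-/

open Complex MeasureTheory Filter Topology Set Metric H313.TK

set_option linter.unusedSectionVars false
set_option linter.unusedVariables false
set_option autoImplicit false

namespace TH299.LV

noncomputable section

/-- the moment of the new kernel, value -/
theorem Ist_moment_val {g : ℝ → ℂ} (hg : DK g) (ρ : ℂ) (hβ : |ρ.re| ≤ 1)
    (h0 : ∫ z : ℝ, cexp (-ρ * z) * g z = 0) :
    ∫ z : ℝ, cexp (-ρ * z) * Ist ρ g z = -∫ z : ℝ, (z : ℂ) * (cexp (-ρ * z) * g z) := by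
  have hi := tw_int hg ρ (by linarith)
  have hcont : Continuous fun z : ℝ => cexp (-ρ * z) * g z := by
    have := hg.cont
    fun_prop
  set A : ℝ → ℂ := fun v : ℝ => ∫ z in Iic v, cexp (-ρ * z) * g z with hA
  have hA' : ∀ v : ℝ, HasDerivAt A (cexp (-ρ * v) * g v) v := prim_cont hcont fun v => hi.integrableOn
  have hD := Ist_DK hg ρ (by linarith) h0
  have hAI : ∀ v : ℝ, cexp (-ρ * v) * Ist ρ g v = A v := by
    intro v
    unfold Ist
    rw [← mul_assoc, ← Complex.exp_add, show -ρ * (v : ℂ) + ρ * v = 0 by ring, Complex.exp_zero, one_mul]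
  have hAint : Integrable A := by
    have := tw_int hD ρ (by linarith)
    refine this.congr (ae_of_all _ fun v => ?_)
    exact hAI v
  have hw : ∀ f : ℝ → ℂ, DK f → Integrable (fun z : ℝ => (z : ℂ) * (cexp (-ρ * z) * f z)) := by
    intro f hf
    obtain ⟨C, hC, hb⟩ := hf.bd
    have hc := hf.cont
    refine (((int_exp_abs 1 one_pos).const_mul (4 * C))).mono' ?_ (ae_of_all _ fun z => ?_)
    · exact (by fun_prop : Continuous fun z : ℝ => (z : ℂ) * (cexp (-ρ * z) * f z)).aestronglyMeasurable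
    · rw [norm_mul, norm_mul, norm_tw, one_mul, Complex.norm_real, Real.norm_eq_abs]
      have h1 : Real.exp (-ρ.re * z) ≤ Real.exp (|z|) := by
        refine Real.exp_le_exp.2 ?_
        calc -ρ.re * z ≤ |-ρ.re * z| := le_abs_self _
          _ = |ρ.re| * |z| := by rw [abs_mul, abs_neg]
          _ ≤ 1 * |z| := mul_le_mul_of_nonneg_right hβ (abs_nonneg _)
          _ = |z| := one_mul _
      have h2 : |z| ≤ Real.exp |z| := by
        have := Real.add_one_le_exp |z|
        linarith
      calc |z| * (Real.exp (-ρ.re * z) * ‖f z‖) ≤ Real.exp |z| * (Real.exp |z| * (C * W z)) := by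
            refine mul_le_mul h2 ?_ (by positivity) (Real.exp_pos _).le
            exact mul_le_mul h1 (hb z) (norm_nonneg _) (Real.exp_pos _).le
        _ = C * (W z * Real.exp (2 * |z|)) := by
            rw [two_mul, Real.exp_add]; ring
        _ ≤ C * (4 * Real.exp (-|z|)) := mul_le_mul_of_nonneg_left (W_decay z) hC
        _ = _ := by ring
  have hzA : Integrable (fun z : ℝ => (z : ℂ) * A z) := by
    refine (hw _ hD).congr (ae_of_all _ fun v => ?_)
    show (v : ℂ) * (cexp (-ρ * v) * Ist ρ g v) = v * A v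
    rw [hAI]
  have key := integral_mul_deriv_eq_deriv_mul_of_integrable (u := A) (u' := fun v : ℝ => cexp (-ρ * v) * g v)
    (v := fun v : ℝ => (v : ℂ)) (v' := fun _ => 1) (fun v _ => hA' v)
    (fun v _ => (hasDerivAt_id v).ofReal_comp)
    (by
      refine hAint.congr (ae_of_all _ fun v => ?_)
      simp)
    (by
      refine (hw g hg).congr (ae_of_all _ fun v => ?_)
      simp only [Pi.mul_apply]
      ring)
    (by
      refine hzA.congr (ae_of_all _ fun v => ?_)
      simp only [Pi.mul_apply]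
      ring)
  simp only [mul_one] at key
  rw [integral_congr_ae (ae_of_all _ hAI), key]
  congr 1
  refine integral_congr_ae (ae_of_all _ fun v => ?_)
  simp only
  ring

/-- the derivative of the transform at a zero -/
theorem Kh_der (ρ : ℂ) (hz : riemannZeta ρ = 0) (h0 : 0 < ρ.re) (h1 : ρ.re < 1) :
    ∫ z : ℝ, cexp (-ρ * z) * Ist ρ kc z = deriv riemannZeta ρ * qh ρ := by
  rw [Ist_moment_val kc_DK ρ (by rw [abs_of_pos h0]; linarith) (Kh_zero ρ hz h0 h1)]
  have hne : ρ ≠ 1 := by rintro rfl; simp at h1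
  have d1 := Kh_deriv ρ (by rw [abs_of_pos h0]; linarith)
  have d2 := (differentiableAt_riemannZeta hne).hasDerivAt.mul (qh_deriv ρ (by rw [abs_of_pos h0]; linarith))
  have he : Kh =ᶠ[𝓝 ρ] fun s => riemannZeta s * qh s := by
    have hV : {s : ℂ | 0 < s.re ∧ s.re < 1} ∈ 𝓝 ρ :=
      IsOpen.mem_nhds ((isOpen_lt continuous_const Complex.continuous_re).inter
        (isOpen_lt Complex.continuous_re continuous_const)) ⟨h0, h1⟩
    filter_upwards [hV] with z hz
    exact Kh_eq z hz.1 (by linarith [hz.2]) (by rintro rfl; have := hz.2; simp at this)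
  have d3 := d2.congr_of_eventuallyEq he
  have h5 := d1.unique d3
  rw [hz, zero_mul, add_zero] at h5
  rw [← h5, ← integral_neg]
  refine integral_congr_ae (ae_of_all _ fun v => ?_)
  simp only
  unfold kc
  ring

open Classical in
/-- the kernels -/
def kf (ω : ℝ) : ℝ → ℂ := if riemannZeta (sg ω) = 0 then Ist (sg ω) kc else kc

open Classical in
/-- the normalisations -/
def Df (ω : ℝ) : ℂ := if riemannZeta (sg ω) = 0 then deriv riemannZeta (sg ω) * qh (sg ω) else Kh (sg ω)

open Classical in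
/-- the coefficients of `α M + β U` at the zeros -/
def kap (α β ω : ℝ) : ℂ :=
  if riemannZeta (sg ω) = 0 then (α + β * riemannZeta (2 * sg ω)) / (sg ω * deriv riemannZeta (sg ω)) else 0

theorem sg_re2 (ω : ℝ) : 0 < (sg ω).re ∧ (sg ω).re < 1 := by
  rw [sg_re]
  constructor <;> norm_num

theorem fam_f (Om : Finset ℝ) (hs : ∀ ω ∈ Om, riemannZeta (sg ω) = 0 → deriv riemannZeta (sg ω) ≠ 0) : Fam Om kf Df := by
  refine ⟨fun ω hω => ?_, fun ω hω => ?_, fun ω hω => ?_⟩
  · unfold kf
    split_ifs with h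
    · exact Ist_DK kc_DK (sg ω) (by rw [sg_re]; norm_num [abs_of_pos]) (Kh_zero _ h (sg_re2 ω).1 (sg_re2 ω).2)
    · exact kc_DK
  · unfold kf Df
    split_ifs with h
    · exact Kh_der _ h (sg_re2 ω).1 (sg_re2 ω).2
    · rfl
  · unfold Df
    have hq := qh_ne (sg ω) (sg_re2 ω).1 (sg_re2 ω).2
    split_ifs with h
    · exact mul_ne_zero (hs ω hω h) hq
    · rw [Kh_eq (sg ω) (sg_re2 ω).1 (by rw [sg_re]; norm_num) (by
        intro h1
        have := sg_re2 ω
        rw [h1] at this
        simp at this)]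
      exact mul_ne_zero h hq

theorem sg_ne (ω : ℝ) : sg ω ≠ 0 := by
  intro h
  have := (sg_re2 ω).1
  rw [h] at this
  simp at this

/-- **Localised lower bounds.** -/
theorem trig (α β : ℝ) (Om : Finset ℝ) (h0 : (0:ℝ) ∈ Om)
    (hs : ∀ ω ∈ Om, riemannZeta (sg ω) = 0 → deriv riemannZeta (sg ω) ≠ 0)
    (c : ℝ → ℂ) (hc0 : (c 0).re = 1) (hT : ∀ v, 0 ≤ Tp Om c v) (ε : ℝ) (hε : 0 < ε) :
    ∃ C : ℝ, 0 < C ∧ ∀ᶠ x : ℝ in atTop, ∀ s : ℝ, s = 1 ∨ s = -1 → ∀ τ : ℝ,
      ∃ y ∈ Icc x (C * (x * Real.log x)),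
        (s * (∑ ω ∈ Om, c ω * kap α β ω * cexp (ω * I * τ)).re - ε) * Real.sqrt y ≤ s * SS α β y := by
  obtain ⟨E, hE0, hE⟩ := CC_bd α β
  have hL := Lam_pos α β
  have hLne : (Lam α β : ℂ) ≠ 0 := by exact_mod_cast hL.ne'
  have hP := CC_PP α β
  have hz0 : riemannZeta (sg 0) ≠ 0 := by
    have : sg 0 = 1 / 2 := by unfold sg; simp
    rw [this]
    exact zeta_half_ne
  classical
  set A : ℝ → ℂ := fun ω => if riemannZeta (sg ω) = 0 then ∫ z : ℝ, cexp (-(sg ω) * z) * av (CC α β) kc z else 0 with hA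
  have hAD : ∀ ω ∈ Om, A ω / Df ω = (1 / (Lam α β : ℂ)) * kap α β ω := by
    intro ω hω
    simp only [hA]
    unfold Df kap
    split_ifs with h
    · rw [CC_tr α β (sg ω) h (by rw [sg_re]) (sg_re2 ω).2]
      have hq := qh_ne (sg ω) (sg_re2 ω).1 (sg_re2 ω).2
      have hd := hs ω hω h
      have hsn := sg_ne ω
      field_simp
    · simp
  have hAasy : ∀ ω ∈ Om, ∃ C : ℝ, ∀ t : ℝ, ‖av (CC α β) (kf ω) t - A ω * cexp (sg ω * t)‖ ≤ C := by
    intro ω hω
    simp only [hA]
    unfold kf
    split_ifs with h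
    · obtain ⟨C1, hC1, hdec⟩ := av_decay hP kc_DK
      refine ⟨max E C1 / (sg ω).re, fun t => ?_⟩
      rw [av_Ist hP kc_DK (sg ω) (by rw [sg_re]; norm_num)]
      exact asy1 (av_meas hP kc_DK.cont) (max E C1) (hE0.trans (le_max_left _ _)) (fun t => (hE t).trans (le_max_left _ _))
        (fun t ht => (hdec t ht).trans (mul_le_mul_of_nonneg_right (le_max_right _ _) (Real.exp_pos _).le)) (sg ω)
        (sg_re2 ω).1 (by rw [sg_re]; norm_num) t
    · exact ⟨E, fun t => by rw [zero_mul, sub_zero]; exact hE t⟩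
  have hk0 : kf 0 = kc := by unfold kf; rw [if_neg hz0]
  have hA0 : A 0 = 0 := by simp only [hA]; rw [if_neg hz0]
  obtain ⟨B, hB0, hev⟩ := transfer hP E hE h0 (fam_f Om hs) hk0 A hA0 hAasy c hc0 hT (ε / Lam α β) (by positivity)
  refine ⟨2 * Real.exp (2 * B), by positivity, ?_⟩
  -- the centre of the window
  have hlim : Tendsto (fun x : ℝ => Real.log x + B + Real.log (2 * Real.log x) / 2) atTop atTop := by
    refine tendsto_atTop_mono' atTop ?_ Real.tendsto_log_atTop
    filter_upwards [eventually_ge_atTop (Real.exp 1)] with x hx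
    have hx0 : 0 < x := (Real.exp_pos 1).trans_le hx
    have hl1 : 1 ≤ Real.log x := by rwa [Real.le_log_iff_exp_le hx0]
    have := Real.log_nonneg (show 1 ≤ 2 * Real.log x by linarith)
    linarith
  filter_upwards [hlim.eventually hev, eventually_ge_atTop (Real.exp (max 1 (2 * B + 1)))] with x hx hx1 s hs2 τ
  have hx0 : 0 < x := (Real.exp_pos _).trans_le hx1
  have hlx : max 1 (2 * B + 1) ≤ Real.log x := by rwa [Real.le_log_iff_exp_le hx0]
  set l : ℝ := Real.log x with hl
  have hl1 : 1 ≤ l := (le_max_left _ _).trans hlx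
  have hl2 : 2 * B + 1 ≤ l := (le_max_right _ _).trans hlx
  set t : ℝ := l + B + Real.log (2 * l) / 2 with ht
  have hlog : Real.log (2 * l) ≤ l := by
    have h1 : Real.log (2 * l) = Real.log 2 + Real.log l := Real.log_mul (by norm_num) (by linarith)
    have h2 : Real.log l ≤ l - 1 := Real.log_le_sub_one_of_pos (by linarith)
    have h3 : Real.log 2 < 1 := by have := Real.log_two_lt_d9; linarith
    linarith
  have hlog0 : 0 ≤ Real.log (2 * l) := Real.log_nonneg (by linarith)
  have ht2 : t ≤ 2 * l := by rw [ht]; linarith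
  have ht0 : 0 < t := by rw [ht]; linarith
  have hlt : Real.log t ≤ Real.log (2 * l) := Real.log_le_log ht0 ht2
  obtain ⟨u, hu, hu2⟩ := hx s hs2 τ
  refine ⟨Real.exp u, ⟨?_, ?_⟩, ?_⟩
  · rw [← Real.log_le_iff_le_exp hx0]
    linarith [hu.1]
  · have h1 : u ≤ 2 * B + Real.log 2 + (l + Real.log l) := by
      have h2 : Real.log (2 * l) = Real.log 2 + Real.log l := Real.log_mul (by norm_num) (by linarith)
      linarith [hu.2]
    refine (Real.exp_le_exp.2 h1).trans (le_of_eq ?_)
    rw [Real.exp_add, Real.exp_add, Real.exp_add, Real.exp_log (by norm_num), hl, Real.exp_log hx0,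
      Real.exp_log (by linarith)]
    ring
  · have h1 : (∑ ω ∈ Om, c ω * (A ω / Df ω) * cexp (ω * I * τ)).re =
        (1 / Lam α β) * (∑ ω ∈ Om, c ω * kap α β ω * cexp (ω * I * τ)).re := by
      rw [← Complex.re_ofReal_mul, Finset.mul_sum]
      congr 1
      refine Finset.sum_congr rfl fun ω hω => ?_
      rw [hAD ω hω]
      push_cast
      ring
    rw [h1] at hu2
    have h3 : s * ff (CC α β) u = s * SS α β (Real.exp u) / Lam α β := by
      unfold ff CC
      ring
    rw [h3, le_div_iff₀ hL] at hu2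
    rw [sqrt_exp]
    refine le_trans (le_of_eq ?_) hu2
    generalize (∑ ω ∈ Om, c ω * kap α β ω * cexp (ω * I * τ)).re = Gv
    field_simp

end

end TH299.LV
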