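import Mathlib

/-!
# Fejér kernels along finite sets
-/

open MeasureTheory Filter Topology Set

set_option linter.unusedSectionVars false
set_option linter.unusedVariables false
set_option autoImplicit false

namespace TH299.LV

noncomputable section

/-- the triangle function -/
def tri (T x : ℝ) : ℝ := max (1 - |x| / T) 0

theorem tri_nonneg (T x : ℝ) : 0 ≤ tri T x := le_max_right _ _

theorem tri_le_one (T x : ℝ) (hT : 0 < T) : tri T x ≤ 1 := by
  unfold tri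
  refine max_le ?_ zero_le_one
  have : 0 ≤ |x| / T := by positivity
  linarith

theorem tri_zero (T x : ℝ) (hT : 0 < T) (h : T ≤ |x|) : tri T x = 0 := by
  unfold tri
  refine max_eq_right ?_
  have : 1 ≤ |x| / T := by rwa [le_div_iff₀ hT, one_mul]
  linarith

theorem tri_in (T x : ℝ) (hT : 0 < T) (h : |x| < T) : tri T x = 1 - |x| / T := by
  unfold tri
  refine max_eq_left ?_
  have : |x| / T < 1 := by rwa [div_lt_one hT]
  linarith

/-- indicator of a moving interval -/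
def ix (T x u : ℝ) : ℝ := (Icc (x - T) x).indicator (fun _ => (1:ℝ)) u

theorem ix_int (T x y : ℝ) (hT : 0 < T) : Integrable (fun u => ix T x u * ix T y u) ∧
    ∫ u, ix T x u * ix T y u = T * tri T (x - y) := by
  have e : (fun u => ix T x u * ix T y u) = (Icc (x - T) x ∩ Icc (y - T) y).indicator (fun _ => (1:ℝ)) := by
    funext u
    unfold ix
    by_cases h1 : u ∈ Icc (x - T) x <;> by_cases h2 : u ∈ Icc (y - T) y <;> simp [h1, h2]
  have hm : MeasurableSet (Icc (x - T) x ∩ Icc (y - T) y) := measurableSet_Icc.inter measurableSet_Icc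
  rw [e]
  constructor
  · rw [integrable_indicator_iff hm, Icc_inter_Icc]
    exact (continuous_const (y := (1:ℝ))).continuousOn.integrableOn_compact isCompact_Icc
  · rw [integral_indicator hm, Icc_inter_Icc, setIntegral_const, Measure.real, Real.volume_Icc]
    simp only [smul_eq_mul, mul_one]
    have h3 : x ⊓ y - (x - T) ⊔ (y - T) = T - |x - y| := by
      rcases le_total x y with h | h
      · rw [inf_eq_left.2 h, sup_eq_right.2 (by linarith), abs_of_nonpos (by linarith)]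
        ring
      · rw [inf_eq_right.2 h, sup_eq_left.2 (by linarith), abs_of_nonneg (by linarith)]
        ring
    rw [h3, ENNReal.toReal_ofReal']
    unfold tri
    rw [mul_max_of_nonneg _ _ hT.le, mul_zero]
    congr 1
    field_simp

theorem tri_pos (T : ℝ) (hT : 0 < T) (B : Finset ℝ) (v : ℝ) :
    0 ≤ ∑ p ∈ B ×ˢ B, tri T (p.1 - p.2) * Real.cos ((p.1 - p.2) * v) := by
  have h1 : ∫ u, ∑ p ∈ B ×ˢ B, (ix T p.1 u * ix T p.2 u) * Real.cos ((p.1 - p.2) * v) =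
      T * ∑ p ∈ B ×ˢ B, tri T (p.1 - p.2) * Real.cos ((p.1 - p.2) * v) := by
    rw [integral_finsetSum _ (fun p _ => (ix_int T p.1 p.2 hT).1.mul_const _), Finset.mul_sum]
    refine Finset.sum_congr rfl fun p _ => ?_
    rw [integral_mul_const, (ix_int T p.1 p.2 hT).2]
    ring
  have h2 : 0 ≤ ∫ u, ∑ p ∈ B ×ˢ B, (ix T p.1 u * ix T p.2 u) * Real.cos ((p.1 - p.2) * v) := by
    refine integral_nonneg fun u => ?_
    have h3 : ∑ p ∈ B ×ˢ B, (ix T p.1 u * ix T p.2 u) * Real.cos ((p.1 - p.2) * v) =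
        (∑ x ∈ B, ix T x u * Real.cos (x * v)) ^ 2 + (∑ x ∈ B, ix T x u * Real.sin (x * v)) ^ 2 := by
      rw [sq, sq, Finset.sum_mul_sum, Finset.sum_mul_sum, ← Finset.sum_add_distrib, Finset.sum_product]
      refine Finset.sum_congr rfl fun x _ => ?_
      rw [← Finset.sum_add_distrib]
      refine Finset.sum_congr rfl fun y _ => ?_
      simp only
      rw [sub_mul, Real.cos_sub]
      ring
    show 0 ≤ ∑ p ∈ B ×ˢ B, (ix T p.1 u * ix T p.2 u) * Real.cos ((p.1 - p.2) * v)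
    rw [h3]
    positivity
  rw [h1] at h2
  exact nonneg_of_mul_nonneg_right h2 hT

/-- the boxes -/
def Bx (Z : Finset ℝ) (N : ℕ) : Finset ℝ :=
  (Finset.univ : Finset (Z → Fin (N + 1))).image (fun n => ∑ γ : Z, ((n γ : ℕ) : ℝ) * (γ : ℝ))

theorem mem_Bx (Z : Finset ℝ) (N : ℕ) (x : ℝ) :
    x ∈ Bx Z N ↔ ∃ n : Z → ℕ, (∀ γ, n γ ≤ N) ∧ ∑ γ : Z, (n γ : ℝ) * (γ : ℝ) = x := by
  unfold Bx
  rw [Finset.mem_image]
  constructor
  · rintro ⟨n, _, rfl⟩
    exact ⟨fun γ => (n γ : ℕ), fun γ => Nat.lt_succ_iff.1 (n γ).2, rfl⟩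
  · rintro ⟨n, hn, rfl⟩
    exact ⟨fun γ => ⟨n γ, Nat.lt_succ_iff.2 (hn γ)⟩, Finset.mem_univ _, rfl⟩

theorem Bx_card (Z : Finset ℝ) (N : ℕ) : (Bx Z N).card ≤ (N + 1) ^ Z.card := by
  unfold Bx
  refine Finset.card_image_le.trans (le_of_eq ?_)
  simp

theorem Bx_zero (Z : Finset ℝ) (N : ℕ) : (0:ℝ) ∈ Bx Z N := by
  rw [mem_Bx]
  exact ⟨fun _ => 0, fun _ => Nat.zero_le _, by simp⟩

theorem Bx_mono (Z : Finset ℝ) (N : ℕ) : Bx Z N ⊆ Bx Z (N + 1) := by
  intro x hx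
  rw [mem_Bx] at hx ⊢
  obtain ⟨n, hn, h⟩ := hx
  exact ⟨n, fun γ => (hn γ).trans (Nat.le_succ N), h⟩

theorem Bx_add (Z : Finset ℝ) (N : ℕ) (x γ : ℝ) (hx : x ∈ Bx Z N) (hγ : γ ∈ Z) : x + γ ∈ Bx Z (N + 1) := by
  classical
  rw [mem_Bx] at hx ⊢
  obtain ⟨n, hn, h⟩ := hx
  refine ⟨fun γ' => n γ' + (if γ' = ⟨γ, hγ⟩ then 1 else 0), fun γ' => ?_, ?_⟩
  · have := hn γ'
    show n γ' + (if γ' = ⟨γ, hγ⟩ then 1 else 0) ≤ N + 1
    split_ifs <;> omega
  · rw [← h]
    push_cast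
    simp only [add_mul]
    rw [Finset.sum_add_distrib]
    congr 1
    simp only [ite_mul, one_mul, zero_mul]
    rw [Finset.sum_ite_eq' Finset.univ (⟨γ, hγ⟩ : Z) (fun γ' => (γ' : ℝ)), if_pos (Finset.mem_univ _)]

/-- Følner sets -/
theorem folner (Z : Finset ℝ) (δ : ℝ) (hδ : 0 < δ) : ∃ B : Finset ℝ, B.Nonempty ∧ ∀ γ ∈ Z,
    (1 - δ) * B.card ≤ ((B.filter (fun x => x + γ ∈ B)).card : ℝ) := by
  have hex : ∃ N : ℕ, ((Bx Z (N + 1)).card : ℝ) ≤ (1 + δ) * (Bx Z N).card := by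
    by_contra hcon
    push Not at hcon
    have hgr : ∀ N : ℕ, (1 + δ) ^ N ≤ ((Bx Z N).card : ℝ) := by
      intro N
      induction N with
      | zero =>
        rw [pow_zero]
        have : 0 < (Bx Z 0).card := Finset.card_pos.2 ⟨0, Bx_zero Z 0⟩
        exact_mod_cast this
      | succ N ih =>
        rw [pow_succ, mul_comm]
        exact (mul_le_mul_of_nonneg_left ih (by positivity)).trans (hcon N).le
    have hlim := tendsto_pow_const_div_const_pow_of_one_lt Z.card (show 1 < 1 + δ by linarith)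
    have h1 := hlim.eventually (gt_mem_nhds (show (0:ℝ) < 1 / (1 + δ) by positivity))
    obtain ⟨n, hn1, hn2⟩ := (h1.and (eventually_ge_atTop 1)).exists
    obtain ⟨N, rfl⟩ : ∃ N, n = N + 1 := ⟨n - 1, by omega⟩
    have h2 := hgr N
    have h3 : ((Bx Z N).card : ℝ) ≤ ((N + 1 : ℕ) : ℝ) ^ Z.card := by exact_mod_cast Bx_card Z N
    have h4 : (0:ℝ) < (1 + δ) ^ (N + 1) := by positivity
    rw [div_lt_div_iff₀ h4 (by positivity)] at hn1
    rw [pow_succ] at hn1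
    nlinarith
  obtain ⟨N, hN⟩ := hex
  refine ⟨Bx Z N, ⟨0, Bx_zero Z N⟩, fun γ hγ => ?_⟩
  have h1 : ((Bx Z N).filter (fun x => ¬ (x + γ ∈ Bx Z N))).card ≤ ((Bx Z (N + 1)) \ (Bx Z N)).card := by
    refine Finset.card_le_card_of_injOn (fun x => x + γ) ?_ ?_
    · intro x hx
      have hx' := Finset.mem_filter.1 hx
      exact Finset.mem_coe.2 (Finset.mem_sdiff.2 ⟨Bx_add Z N x γ hx'.1 hγ, hx'.2⟩)
    · intro x _ y _ hxy
      simpa using hxy
  have h2 : ((Bx Z (N + 1)) \ (Bx Z N)).card + (Bx Z N).card = (Bx Z (N + 1)).card :=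
    Finset.card_sdiff_add_card_eq_card (Bx_mono Z N)
  have h3 := Finset.card_filter_add_card_filter_not (s := Bx Z N) (fun x => x + γ ∈ Bx Z N)
  have h4 : (((Bx Z N).filter (fun x => ¬ (x + γ ∈ Bx Z N))).card : ℝ) ≤ (((Bx Z (N + 1)) \ (Bx Z N)).card : ℝ) := by
    exact_mod_cast h1
  have h5 : ((((Bx Z (N + 1)) \ (Bx Z N)).card : ℝ)) + ((Bx Z N).card : ℝ) = ((Bx Z (N + 1)).card : ℝ) := by
    exact_mod_cast h2
  have h6 : (((Bx Z N).filter (fun x => x + γ ∈ Bx Z N)).card : ℝ) +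
      (((Bx Z N).filter (fun x => ¬ (x + γ ∈ Bx Z N))).card : ℝ) = ((Bx Z N).card : ℝ) := by
    exact_mod_cast h3
  linarith

/-- the pair counts -/
def NB (B : Finset ℝ) (ω : ℝ) : ℝ := ((B.filter (fun x => x + ω ∈ B)).card : ℝ)

theorem NB_zero (B : Finset ℝ) : NB B 0 = B.card := by
  unfold NB
  congr 2
  simp

theorem pair_sum (B : Finset ℝ) (F : ℝ → ℝ) :
    ∑ p ∈ B ×ˢ B, F (p.1 - p.2) = ∑ ω ∈ (B ×ˢ B).image (fun p => p.1 - p.2), NB B ω * F ω := by
  rw [← Finset.sum_fiberwise_of_maps_to (t := (B ×ˢ B).image (fun p => p.1 - p.2)) (g := fun p : ℝ × ℝ => p.1 - p.2)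
    (fun p hp => Finset.mem_image_of_mem _ hp)]
  refine Finset.sum_congr rfl fun ω _ => ?_
  have h1 : ∀ p ∈ (B ×ˢ B).filter (fun p => p.1 - p.2 = ω), F (p.1 - p.2) = F ω := by
    intro p hp
    rw [(Finset.mem_filter.1 hp).2]
  rw [Finset.sum_congr rfl h1, Finset.sum_const, nsmul_eq_mul]
  congr 1
  unfold NB
  have h2 : ((B ×ˢ B).filter (fun p => p.1 - p.2 = ω)) = (B.filter (fun x => x + ω ∈ B)).image (fun x => (x + ω, x)) := by
    ext p
    simp only [Finset.mem_filter, Finset.mem_product, Finset.mem_image]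
    constructor
    · rintro ⟨⟨h3, h4⟩, h5⟩
      refine ⟨p.2, ⟨h4, ?_⟩, ?_⟩
      · rw [← h5]
        simpa using h3
      · rw [← h5]
        simp
    · rintro ⟨x, ⟨h3, h4⟩, rfl⟩
      exact ⟨⟨h4, h3⟩, by simp⟩
  rw [h2, Finset.card_image_of_injective]
  intro x y hxy
  exact (Prod.mk.inj hxy).2

end

end TH299.LV
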