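import Pool.Agent.TH299.LV.K6
import Pool.Agent.TH299.LV.K7

/-!
# The localised Ingham inequality
-/

open Complex MeasureTheory Filter Topology Set Metric H313.TK

set_option linter.unusedSectionVars false
set_option linter.unusedVariables false
set_option autoImplicit false

namespace TH299.LV

noncomputable section

/-- ordinates of the critical zeros below height `T` -/
def ZT (T : ℝ) : Set ℝ := {ω : ℝ | |ω| < T ∧ riemannZeta (sg ω) = 0}

theorem zeta_finite_compact {K : Set ℂ} (hK : IsCompact K) : {s : ℂ | s ∈ K ∧ riemannZeta s = 0}.Finite := by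
  by_contra hinf
  have hinf : {s : ℂ | s ∈ K ∧ riemannZeta s = 0}.Infinite := hinf
  obtain ⟨x, hx, hacc⟩ := hinf.exists_accPt_of_subset_isCompact hK (fun s hs => hs.1)
  have hfreq : ∃ᶠ z in 𝓝[≠] x, riemannZeta z = 0 := by
    rw [accPt_iff_frequently_nhdsNE] at hacc
    exact hacc.mono fun z hz => hz.2
  by_cases hx1 : x = 1
  · subst hx1
    have h3 := riemannZeta_residue_one.eventually_ne (one_ne_zero : (1 : ℂ) ≠ 0)
    refine hfreq ?_
    filter_upwards [h3] with s hs h0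
    rw [h0, mul_zero] at hs
    exact hs rfl
  · have hU : IsPreconnected ({1}ᶜ : Set ℂ) :=
      (isConnected_compl_singleton_of_one_lt_rank (by simp) (1 : ℂ)).isPreconnected
    have hd : DifferentiableOn ℂ riemannZeta ({1}ᶜ : Set ℂ) := fun z hz =>
      (differentiableAt_riemannZeta hz).differentiableWithinAt
    have hz := AnalyticOnNhd.eqOn_zero_of_preconnected_of_frequently_eq_zero
      (f := riemannZeta) (U := ({1}ᶜ : Set ℂ)) (hd.analyticOnNhd isOpen_compl_singleton) hU hx1 hfreq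
    exact riemannZeta_ne_zero_of_one_le_re (s := 2) (by simp) (hz (by simp))

theorem sg_inj : Function.Injective sg := by
  intro a b h
  have := congrArg Complex.im h
  unfold sg at this
  simpa using this

theorem ZT_finite (T : ℝ) : (ZT T).Finite := by
  have hc : Continuous sg := by unfold sg; fun_prop
  have hK : IsCompact (sg '' Icc (-T) T) := isCompact_Icc.image hc
  have h1 := (zeta_finite_compact hK).preimage (f := sg) (sg_inj.injOn)
  refine h1.subset ?_
  intro ω hω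
  refine ⟨⟨ω, abs_le.1 hω.1.le, rfl⟩, hω.2⟩

/-- **The localised Ingham inequality.** -/
theorem fejer (α β T : ℝ) (hT : 0 < T) (hs : ∀ ω ∈ ZT T, deriv riemannZeta (sg ω) ≠ 0) (ε : ℝ) (hε : 0 < ε) :
    ∃ C : ℝ, 0 < C ∧ ∀ᶠ x : ℝ in atTop, ∀ s : ℝ, s = 1 ∨ s = -1 → ∀ τ : ℝ,
      ∃ y ∈ Icc x (C * (x * Real.log x)),
        (s * (∑ ω ∈ (ZT_finite T).toFinset, (tri T ω : ℂ) * kap α β ω * cexp (ω * I * τ)).re - ε) * Real.sqrt y ≤
          s * SS α β y := by
  classical
  set Z : Finset ℝ := (ZT_finite T).toFinset with hZ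
  have hmemZ : ∀ ω, ω ∈ Z ↔ (|ω| < T ∧ riemannZeta (sg ω) = 0) := by
    intro ω
    rw [hZ, Set.Finite.mem_toFinset]
    rfl
  set S1 : ℝ := ∑ ω ∈ Z, ‖kap α β ω‖ with hS1
  have hS10 : 0 ≤ S1 := Finset.sum_nonneg fun ω _ => norm_nonneg _
  set δ : ℝ := ε / (2 * (S1 + 1)) with hδ
  have hδ0 : 0 < δ := by positivity
  obtain ⟨B, hBne, hB⟩ := folner Z δ hδ0
  have hn : (0:ℝ) < B.card := by exact_mod_cast Finset.card_pos.2 hBne
  have hNBle : ∀ ω, NB B ω ≤ B.card := by
    intro ω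
    unfold NB
    exact_mod_cast Finset.card_filter_le _ _
  have hNB0 : ∀ ω, 0 ≤ NB B ω := fun ω => Nat.cast_nonneg _
  set Om0 : Finset ℝ := (B ×ˢ B).image (fun p => p.1 - p.2) with hOm0
  set Om : Finset ℝ := Om0.filter (fun ω => |ω| < T) with hOm
  set cr : ℝ → ℝ := fun ω => 1 / (B.card : ℝ) * (NB B ω * tri T ω) with hcr
  set c : ℝ → ℂ := fun ω => (cr ω : ℂ) with hc
  have h00 : (0:ℝ) ∈ Om := by
    obtain ⟨x, hx⟩ := hBne
    rw [hOm, Finset.mem_filter]
    refine ⟨?_, by simpa using hT⟩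
    rw [hOm0, Finset.mem_image]
    exact ⟨(x, x), Finset.mem_product.2 ⟨hx, hx⟩, by simp⟩
  have hsimple : ∀ ω ∈ Om, riemannZeta (sg ω) = 0 → deriv riemannZeta (sg ω) ≠ 0 := by
    intro ω hω h0
    exact hs ω ⟨(Finset.mem_filter.1 hω).2, h0⟩
  have hc0 : (c 0).re = 1 := by
    simp only [hc, hcr, Complex.ofReal_re]
    rw [NB_zero, tri_in T 0 hT (by simpa using hT)]
    simp
    field_simp
  have hTp : ∀ v, 0 ≤ Tp Om c v := by
    intro v
    have h1 : Tp Om c v = 1 / (B.card : ℝ) * ∑ p ∈ B ×ˢ B, tri T (p.1 - p.2) * Real.cos ((p.1 - p.2) * v) := by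
      rw [pair_sum B (fun ω => tri T ω * Real.cos (ω * v)), ← hOm0]
      unfold Tp
      rw [Complex.re_sum, Finset.mul_sum, hOm, Finset.sum_filter]
      refine Finset.sum_congr rfl fun ω _ => ?_
      split_ifs with h2
      · have h3 : (cexp (ω * I * v)).re = Real.cos (ω * v) := by
          rw [show (ω : ℂ) * I * v = ((ω * v : ℝ) : ℂ) * I by push_cast; ring, Complex.exp_ofReal_mul_I_re]
        simp only [hc]
        rw [Complex.re_ofReal_mul, h3]
        simp only [hcr]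
        ring
      · rw [tri_zero T ω hT (not_lt.1 h2)]
        ring
    rw [h1]
    exact mul_nonneg (by positivity) (tri_pos T hT B v)
  obtain ⟨C, hC, hev⟩ := trig α β Om h00 hsimple c hc0 hTp (ε / 2) (by positivity)
  refine ⟨C, hC, ?_⟩
  filter_upwards [hev] with x hx s hs2 τ
  obtain ⟨y, hy, hy2⟩ := hx s hs2 τ
  refine ⟨y, hy, le_trans ?_ hy2⟩
  refine mul_le_mul_of_nonneg_right ?_ (Real.sqrt_nonneg _)
  -- comparison of the two sums
  have hun : ∀ ω x : ℝ, ‖cexp (ω * I * (x : ℂ))‖ = 1 := by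
    intro ω x
    rw [show (ω : ℂ) * I * (x : ℂ) = ((ω * x : ℝ) : ℂ) * I by push_cast; ring]
    exact Complex.norm_exp_ofReal_mul_I _
  have e1 : ∑ ω ∈ Om, c ω * kap α β ω * cexp (ω * I * τ) = ∑ ω ∈ Z, c ω * kap α β ω * cexp (ω * I * τ) := by
    have s1 : ∑ ω ∈ Om, c ω * kap α β ω * cexp (ω * I * τ) = ∑ ω ∈ Om ∪ Z, c ω * kap α β ω * cexp (ω * I * τ) := by
      refine Finset.sum_subset Finset.subset_union_left fun ω hω hω2 => ?_
      have hωZ : ω ∈ Z := (Finset.mem_union.1 hω).resolve_left hω2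
      have hωT := ((hmemZ ω).1 hωZ).1
      have h0 : ω ∉ Om0 := fun h => hω2 (Finset.mem_filter.2 ⟨h, hωT⟩)
      have hN0 : NB B ω = 0 := by
        unfold NB
        rw [Nat.cast_eq_zero, Finset.card_eq_zero, Finset.filter_eq_empty_iff]
        intro x hx hx2
        apply h0
        rw [hOm0, Finset.mem_image]
        exact ⟨(x + ω, x), Finset.mem_product.2 ⟨hx2, hx⟩, by simp⟩
      simp only [hc, hcr]
      rw [hN0]
      simp
    have s2 : ∑ ω ∈ Z, c ω * kap α β ω * cexp (ω * I * τ) = ∑ ω ∈ Om ∪ Z, c ω * kap α β ω * cexp (ω * I * τ) := by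
      refine Finset.sum_subset Finset.subset_union_right fun ω hω hω2 => ?_
      have hωO : ω ∈ Om := (Finset.mem_union.1 hω).resolve_right hω2
      have hωT := (Finset.mem_filter.1 hωO).2
      have hnz : riemannZeta (sg ω) ≠ 0 := fun h => hω2 ((hmemZ ω).2 ⟨hωT, h⟩)
      unfold kap
      rw [if_neg hnz]
      simp
    rw [s1, s2]
  rw [e1]
  have e2 : ‖(∑ ω ∈ Z, (tri T ω : ℂ) * kap α β ω * cexp (ω * I * τ)) - ∑ ω ∈ Z, c ω * kap α β ω * cexp (ω * I * τ)‖ ≤ ε / 2 := by
    rw [← Finset.sum_sub_distrib]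
    refine (norm_sum_le _ _).trans ?_
    have h1 : ∀ ω ∈ Z, ‖(tri T ω : ℂ) * kap α β ω * cexp (ω * I * τ) - c ω * kap α β ω * cexp (ω * I * τ)‖ ≤ δ * ‖kap α β ω‖ := by
      intro ω hω
      have h2 : (tri T ω : ℂ) * kap α β ω * cexp (ω * I * τ) - c ω * kap α β ω * cexp (ω * I * τ) =
          ((tri T ω - cr ω : ℝ) : ℂ) * kap α β ω * cexp (ω * I * τ) := by
        simp only [hc]
        push_cast
        ring
      rw [h2, norm_mul, hun, mul_one, norm_mul, Complex.norm_real, Real.norm_eq_abs]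
      refine mul_le_mul_of_nonneg_right ?_ (norm_nonneg _)
      have h3 := hB ω hω
      have h4 : (1 - δ) ≤ 1 / (B.card : ℝ) * NB B ω := by
        rw [one_div_mul_eq_div, le_div_iff₀ hn]
        exact h3
      have h5 : 1 / (B.card : ℝ) * NB B ω ≤ 1 := by
        rw [one_div_mul_eq_div, div_le_one hn]
        exact hNBle ω
      have h6 := tri_nonneg T ω
      have h7 := tri_le_one T ω hT
      have h8 : tri T ω - cr ω = tri T ω * (1 - 1 / (B.card : ℝ) * NB B ω) := by
        simp only [hcr]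
        ring
      rw [h8, abs_of_nonneg (mul_nonneg h6 (by linarith))]
      calc tri T ω * (1 - 1 / (B.card : ℝ) * NB B ω) ≤ 1 * (1 - 1 / (B.card : ℝ) * NB B ω) :=
            mul_le_mul_of_nonneg_right h7 (by linarith)
        _ ≤ δ := by linarith
    refine (Finset.sum_le_sum h1).trans ?_
    rw [← Finset.mul_sum, ← hS1, hδ, div_mul_eq_mul_div, div_le_iff₀ (by positivity)]
    nlinarith
  have e3 := (abs_re_sub_le _ _).trans e2
  have hsa : |s| = 1 := by rcases hs2 with h1 | h1 <;> rw [h1] <;> simp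
  set a1 : ℝ := (∑ ω ∈ Z, (tri T ω : ℂ) * kap α β ω * cexp (ω * I * τ)).re
  set a2 : ℝ := (∑ ω ∈ Z, c ω * kap α β ω * cexp (ω * I * τ)).re
  have e4 : |s * (a1 - a2)| ≤ ε / 2 := by rw [abs_mul, hsa, one_mul]; exact e3
  have e5 := (abs_le.1 e4).2
  have e6 : s * (a1 - a2) = s * a1 - s * a2 := by ring
  linarith

end

end TH299.LV
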