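import Pool.Agent.TH299.LV.G

/-!
# The summatory Liouville function
-/

open Complex MeasureTheory Filter Topology Set Metric H313.TK

set_option linter.unusedSectionVars false
set_option linter.unusedVariables false
set_option autoImplicit false

namespace TH299.LV

noncomputable section

/-- the summatory Liouville function -/
def LL (y : ℝ) : ℝ := ∑ n ∈ Finset.Icc 1 ⌊y⌋₊, (-1 : ℝ) ^ (ArithmeticFunction.cardFactors n)

theorem LL_lt_one {y : ℝ} (h : y < 1) : LL y = 0 := by
  unfold LL
  rw [Nat.floor_eq_zero.2 h]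
  simp

theorem abs_LL_le {y : ℝ} (h : 0 ≤ y) : |LL y| ≤ y := by
  unfold LL
  refine (Finset.abs_sum_le_sum_abs _ _).trans ?_
  have h1 : ∀ n ∈ Finset.Icc 1 ⌊y⌋₊, |(-1 : ℝ) ^ (ArithmeticFunction.cardFactors n)| ≤ 1 := by
    intro n _
    rw [abs_pow]
    simp
  refine (Finset.sum_le_sum h1).trans ?_
  rw [Finset.sum_const, Nat.card_Icc]
  simp
  exact Nat.floor_le h

theorem LL_meas : Measurable LL := by
  have e : LL = (fun m : ℕ => ∑ k ∈ Finset.Icc 1 m, (-1 : ℝ) ^ (ArithmeticFunction.cardFactors k)) ∘ (fun y : ℝ => ⌊y⌋₊) := rfl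
  rw [e]
  exact (measurable_of_countable _).comp Nat.measurable_floor

theorem LL_PP : PP LL := by
  refine ⟨LL_meas, fun u => abs_LL_le (Real.exp_pos u).le, fun u hu => ?_⟩
  unfold ff
  exact LL_lt_one (by rwa [Real.exp_lt_one_iff])

theorem MM_PP : PP MM := by
  refine ⟨MM_meas, fun u => abs_MM_le (Real.exp_pos u).le, fun u hu => ?_⟩
  unfold ff
  exact MM_lt_one (by rwa [Real.exp_lt_one_iff])

/-- all exponents even -/
def EV (n : ℕ) : Prop := ∀ p, Even (n.factorization p)

theorem EV_iff {n : ℕ} (hn : n ≠ 0) : EV n ↔ ∃ r, n = r * r := by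
  constructor
  · intro h
    refine ⟨n.factorization.prod (fun p k => p ^ (k / 2)), ?_⟩
    rw [← Finsupp.prod_mul]
    conv_lhs => rw [← Nat.prod_factorization_pow_eq_self hn]
    refine Finsupp.prod_congr fun p _ => ?_
    rw [← pow_add]
    congr 1
    obtain ⟨k, hk⟩ := h p
    omega
  · rintro ⟨r, rfl⟩ p
    have hr : r ≠ 0 := by rintro rfl; simp at hn
    rw [Nat.factorization_mul hr hr]
    exact ⟨_, rfl⟩

/-- the Liouville function -/
def lamA : ArithmeticFunction ℤ := ⟨fun n => if n = 0 then 0 else (-1) ^ (ArithmeticFunction.cardFactors n), by simp⟩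

open Classical in
/-- the indicator of the squares -/
def sqA : ArithmeticFunction ℤ := ⟨fun n => if n ≠ 0 ∧ EV n then 1 else 0, by simp⟩

theorem lamA_apply {n : ℕ} (hn : n ≠ 0) : lamA n = (-1) ^ (ArithmeticFunction.cardFactors n) := by
  simp [lamA, hn]

open Classical in
theorem sqA_apply {n : ℕ} (hn : n ≠ 0) : sqA n = if EV n then 1 else 0 := by
  simp [sqA, hn]

theorem lamA_mult : lamA.IsMultiplicative := by
  rw [ArithmeticFunction.IsMultiplicative.iff_ne_zero]
  refine ⟨by simp [lamA], fun {m n} hm hn _ => ?_⟩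
  rw [lamA_apply hm, lamA_apply hn, lamA_apply (mul_ne_zero hm hn), ArithmeticFunction.cardFactors_mul hm hn, pow_add]

theorem sqA_mult : sqA.IsMultiplicative := by
  rw [ArithmeticFunction.IsMultiplicative.iff_ne_zero]
  refine ⟨?_, fun {m n} hm hn hc => ?_⟩
  · rw [sqA_apply one_ne_zero, if_pos]
    intro p
    simp
  · rw [sqA_apply hm, sqA_apply hn, sqA_apply (mul_ne_zero hm hn)]
    have h : EV (m * n) ↔ EV m ∧ EV n := by
      unfold EV
      rw [Nat.factorization_mul hm hn]
      constructor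
      · intro h
        have key : ∀ p, m.factorization p = 0 ∨ n.factorization p = 0 := by
          intro p
          by_contra hcon
          push Not at hcon
          have h1 : p ∣ m := Nat.dvd_of_factorization_pos hcon.1
          have h2 : p ∣ n := Nat.dvd_of_factorization_pos hcon.2
          have h3 : p ∣ 1 := by rw [← hc]; exact Nat.dvd_gcd h1 h2
          have h4 : p = 1 := Nat.dvd_one.1 h3
          rw [h4] at hcon
          simp at hcon
        refine ⟨fun p => ?_, fun p => ?_⟩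
        · rcases key p with h1 | h1
          · rw [h1]; exact ⟨0, rfl⟩
          · have := h p
            rw [Finsupp.add_apply, h1, add_zero] at this
            exact this
        · rcases key p with h1 | h1
          · have := h p
            rw [Finsupp.add_apply, h1, zero_add] at this
            exact this
          · rw [h1]; exact ⟨0, rfl⟩
      · rintro ⟨h1, h2⟩ p
        rw [Finsupp.add_apply]
        exact (h1 p).add (h2 p)
    by_cases h1 : EV m <;> by_cases h2 : EV n <;> simp [h, h1, h2]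

theorem zeta_lam : (ArithmeticFunction.zeta : ArithmeticFunction ℤ) * lamA = sqA := by
  have hm : ((ArithmeticFunction.zeta : ArithmeticFunction ℤ) * lamA).IsMultiplicative :=
    (ArithmeticFunction.isMultiplicative_zeta.natCast).mul lamA_mult
  rw [ArithmeticFunction.IsMultiplicative.eq_iff_eq_on_prime_powers _ hm _ sqA_mult]
  intro p i hp
  have hpi : p ^ i ≠ 0 := pow_ne_zero _ hp.ne_zero
  rw [ArithmeticFunction.coe_zeta_mul_apply, Nat.sum_divisors_prime_pow hp, sqA_apply hpi]
  have h1 : ∀ j ∈ Finset.range (i + 1), lamA (p ^ j) = (-1) ^ j := by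
    intro j _
    rw [lamA_apply (pow_ne_zero _ hp.ne_zero), ArithmeticFunction.cardFactors_apply_prime_pow hp]
  rw [Finset.sum_congr rfl h1, neg_one_geom_sum]
  have h2 : EV (p ^ i) ↔ Even i := by
    unfold EV
    rw [hp.factorization_pow]
    constructor
    · intro h
      have := h p
      simpa using this
    · intro h q
      by_cases hq : q = p
      · rw [hq]; simpa using h
      · rw [Finsupp.single_eq_of_ne hq]
        exact ⟨0, rfl⟩
  by_cases h : Even i
  · have h3 : ¬ Even (i + 1) := by rw [Nat.even_add_one]; exact not_not.2 h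
    rw [if_neg h3, if_pos (h2.2 h)]
  · have h3 : Even (i + 1) := by rw [Nat.even_add_one]; exact h
    rw [if_pos h3, if_neg (fun h4 => h (h2.1 h4))]

theorem sum_sqA (N : ℕ) : ∑ n ∈ Finset.Ioc 0 N, sqA n = Nat.sqrt N := by
  classical
  have h1 : ∀ n ∈ Finset.Ioc 0 N, sqA n = if n ∈ (Finset.Ioc 0 (Nat.sqrt N)).image (fun d => d * d) then 1 else 0 := by
    intro n hn
    rw [Finset.mem_Ioc] at hn
    rw [sqA_apply (by omega)]
    have h2 : EV n ↔ n ∈ (Finset.Ioc 0 (Nat.sqrt N)).image (fun d => d * d) := by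
      rw [EV_iff (by omega), Finset.mem_image]
      constructor
      · rintro ⟨r, hr⟩
        refine ⟨r, ?_, hr.symm⟩
        rw [Finset.mem_Ioc]
        constructor
        · rcases Nat.eq_zero_or_pos r with h3 | h3
          · rw [h3] at hr; omega
          · exact h3
        · rw [Nat.le_sqrt]
          omega
      · rintro ⟨r, _, hr⟩
        exact ⟨r, hr.symm⟩
    by_cases h3 : EV n
    · rw [if_pos h3, if_pos (h2.1 h3)]
    · rw [if_neg h3, if_neg (fun h4 => h3 (h2.2 h4))]
  rw [Finset.sum_congr rfl h1, Finset.sum_ite_mem, Finset.sum_const]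
  have h3 : Finset.Ioc 0 N ∩ (Finset.Ioc 0 (Nat.sqrt N)).image (fun d => d * d) =
      (Finset.Ioc 0 (Nat.sqrt N)).image (fun d => d * d) := by
    rw [Finset.inter_eq_right]
    intro x hx
    rw [Finset.mem_image] at hx
    obtain ⟨d, hd, rfl⟩ := hx
    rw [Finset.mem_Ioc] at hd ⊢
    constructor
    · exact Nat.mul_pos hd.1 hd.1
    · exact Nat.le_sqrt.1 hd.2
  rw [h3, Finset.card_image_of_injective, Nat.card_Ioc]
  · simp
  · intro a b hab
    exact Nat.mul_self_inj.1 hab

theorem sqrt_floor (w : ℝ) (hw : 0 ≤ w) : Nat.sqrt ⌊w⌋₊ = ⌊Real.sqrt w⌋₊ := by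
  apply le_antisymm
  · rw [Nat.le_floor_iff (Real.sqrt_nonneg _)]
    apply Real.le_sqrt_of_sq_le
    have h1 := Nat.sqrt_le' ⌊w⌋₊
    have h2 : ((Nat.sqrt ⌊w⌋₊ ^ 2 : ℕ) : ℝ) ≤ (⌊w⌋₊ : ℝ) := by exact_mod_cast h1
    push_cast at h2
    exact h2.trans (Nat.floor_le hw)
  · rw [Nat.le_sqrt']
    rw [Nat.le_floor_iff hw]
    push_cast
    have h1 := Nat.floor_le (Real.sqrt_nonneg w)
    calc (⌊Real.sqrt w⌋₊ : ℝ) ^ 2 ≤ (Real.sqrt w) ^ 2 := pow_le_pow_left₀ (Nat.cast_nonneg _) h1 2
      _ = w := Real.sq_sqrt hw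

theorem LL_hasSum (w : ℝ) (hw : 0 ≤ w) :
    HasSum (fun n : ℕ => LL (w / ((n : ℝ) + 1))) (⌊Real.sqrt w⌋₊ : ℝ) := by
  set N := ⌊w⌋₊ with hN
  have hz : ∀ n ∉ Finset.range N, LL (w / ((n : ℝ) + 1)) = 0 := by
    intro n hn
    rw [Finset.mem_range, not_lt] at hn
    apply LL_lt_one
    rw [div_lt_one (by positivity)]
    have h1 := Nat.lt_floor_add_one w
    have h2 : (⌊w⌋₊ : ℝ) ≤ n := by exact_mod_cast hn
    linarith
  have h1 : HasSum (fun n : ℕ => LL (w / ((n : ℝ) + 1))) (∑ n ∈ Finset.range N, LL (w / ((n : ℝ) + 1))) :=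
    hasSum_sum_of_ne_finset_zero hz
  have h2 : ∑ n ∈ Finset.range N, LL (w / ((n : ℝ) + 1)) = (⌊Real.sqrt w⌋₊ : ℝ) := by
    have h3 : ∀ n ∈ Finset.range N, LL (w / ((n : ℝ) + 1)) =
        ((∑ m ∈ Finset.Ioc 0 (N / (n + 1)), lamA m : ℤ) : ℝ) := by
      intro n _
      unfold LL
      have h4 : ⌊w / ((n : ℝ) + 1)⌋₊ = N / (n + 1) := by
        have := Nat.floor_div_natCast w (n + 1)
        push_cast at this
        exact this
      rw [h4, Int.cast_sum]
      refine Finset.sum_congr rfl fun m hm => ?_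
      rw [lamA_apply (by
        have := (Finset.mem_Ioc.1 hm).1
        omega)]
      push_cast
      rfl
    rw [Finset.sum_congr rfl h3, ← Int.cast_sum]
    have h5 := ArithmeticFunction.sum_Ioc_mul_eq_sum_sum (R := ℤ)
      ((ArithmeticFunction.zeta : ArithmeticFunction ℕ) : ArithmeticFunction ℤ) lamA N
    rw [zeta_lam, sum_sqA] at h5
    have h6 : ∑ n ∈ Finset.range N, ∑ m ∈ Finset.Ioc 0 (N / (n + 1)), lamA m =
        ∑ n ∈ Finset.Ioc 0 N, (((ArithmeticFunction.zeta : ArithmeticFunction ℕ) : ArithmeticFunction ℤ) n) *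
          ∑ m ∈ Finset.Ioc 0 (N / n), lamA m := by
      rw [Finset.range_eq_Ico, Finset.sum_Ico_add' (fun n => ∑ m ∈ Finset.Ioc 0 (N / n), lamA m) 0 N 1]
      have h7 : Finset.Ico (0 + 1) (N + 1) = Finset.Ioc 0 N := by
        ext k
        simp only [Finset.mem_Ico, Finset.mem_Ioc]
        omega
      rw [h7]
      refine Finset.sum_congr rfl fun n hn => ?_
      rw [Finset.mem_Ioc] at hn
      have h8 : (((ArithmeticFunction.zeta : ArithmeticFunction ℕ) : ArithmeticFunction ℤ) n) = 1 := by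
        rw [ArithmeticFunction.natCoe_apply, ArithmeticFunction.zeta_apply, if_neg (by omega)]
        simp
      rw [h8, one_mul]
    rw [h6, ← h5, ← sqrt_floor w hw]
    push_cast
    rfl
  rwa [h2] at h1

end

end TH299.LV
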