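import Pool.Agent.TH299.LV.L1

/-!
# Averages of the summatory Liouville function
-/

open Complex MeasureTheory Filter Topology Set Metric H313.TK

set_option linter.unusedSectionVars false
set_option linter.unusedVariables false
set_option autoImplicit false

namespace TH299.LV

noncomputable section

/-- the identity behind the method -/
theorem moebG {Ph : ℝ → ℝ} (h : PP Ph) (R : ℝ → ℝ)
    (hR : ∀ w, 0 ≤ w → HasSum (fun n : ℕ => Ph (w / ((n : ℝ) + 1))) (R w))
    {g : ℝ → ℂ} (hg : QQ g) (t : ℝ) :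
    ∫ v : ℝ, (ff Ph (t - v) : ℂ) * Sg g v = ∫ z : ℝ, (R (Real.exp (t - z)) : ℂ) * g z := by
  obtain ⟨C, hC, hb⟩ := hg.term t
  have hc := hg.cont
  have hcm := hc.measurable
  have hm := ff_meas h.meas
  set F : ℕ → ℝ → ℂ := fun n v => (ff Ph (t - v) : ℂ) * g (v - Real.log ((n : ℝ) + 1)) with hF
  have hz : ∀ n v, t < v → F n v = 0 := by
    intro n v hv
    simp only [hF]
    rw [h.zero _ (by linarith)]
    simp
  have hFb : ∀ n : ℕ, ∀ v : ℝ, ‖F n v‖ ≤ (Iic t).indicator (fun v => C * Real.exp t * (1 / ((n : ℝ) + 1) ^ 2) * Real.exp (1 * v)) v := by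
    intro n v
    by_cases hv : v ≤ t
    · rw [indicator_of_mem (show v ∈ Iic t from hv)]
      simp only [hF]
      rw [norm_mul, Complex.norm_real, Real.norm_eq_abs]
      calc |ff Ph (t - v)| * ‖g (v - Real.log ((n : ℝ) + 1))‖ ≤
            Real.exp (t - v) * (C * Real.exp (2 * v) * (1 / ((n : ℝ) + 1) ^ 2)) :=
            mul_le_mul (h.bd _) (hb v hv n) (norm_nonneg _) (Real.exp_pos _).le
        _ = C * (1 / ((n : ℝ) + 1) ^ 2) * (Real.exp (t - v) * Real.exp (2 * v)) := by ring
        _ = C * (1 / ((n : ℝ) + 1) ^ 2) * (Real.exp t * Real.exp (1 * v)) := by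
            rw [← Real.exp_add, ← Real.exp_add]; congr 2; ring
        _ = _ := by ring
    · rw [hz n v (not_le.1 hv), norm_zero, indicator_of_notMem (show v ∉ Iic t from hv)]
  have hFm : ∀ n, AEStronglyMeasurable (F n) volume := fun n => by
    simp only [hF]
    exact (by fun_prop : Measurable fun v => (ff Ph (t - v) : ℂ) * g (v - Real.log ((n : ℝ) + 1))).aestronglyMeasurable
  have hdom : ∀ n : ℕ, Integrable ((Iic t).indicator (fun v => C * Real.exp t * (1 / ((n : ℝ) + 1) ^ 2) * Real.exp (1 * v))) := by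
    intro n
    rw [integrable_indicator_iff measurableSet_Iic]
    exact (integrableOn_exp_mul_Iic one_pos t).const_mul _
  have hFi : ∀ n, Integrable (F n) := fun n => (hdom n).mono' (hFm n) (ae_of_all _ (hFb n))
  have hFs : Summable (fun n => ∫ z, ‖F n z‖) := by
    refine Summable.of_nonneg_of_le (fun n => integral_nonneg fun z => norm_nonneg _) (fun n => ?_)
      (sum_sq.mul_left (C * Real.exp t * (Real.exp (1 * t) / 1)))
    have h1 := integral_mono (hFi n).norm (hdom n) (hFb n)
    rw [integral_indicator measurableSet_Iic, integral_const_mul, integral_exp_mul_Iic one_pos] at h1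
    refine h1.trans (le_of_eq ?_)
    ring
  have key := hasSum_integral_of_summable_integral_norm hFi hFs
  have e1 : ∫ v, ∑' n, F n v = ∫ v : ℝ, (ff Ph (t - v) : ℂ) * Sg g v := by
    refine integral_congr_ae (ae_of_all _ fun z => ?_)
    simp only [hF, Sg]
    exact tsum_mul_left
  rw [e1] at key
  set F' : ℕ → ℝ → ℂ := fun n z => (ff Ph (t - z - Real.log ((n : ℝ) + 1)) : ℂ) * g z with hF'
  have hsh : ∀ n, F' n = fun z => F n (z + Real.log ((n : ℝ) + 1)) := by
    intro n
    funext z
    simp only [hF, hF']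
    congr 2
    · congr 1
      ring
    · ring
  have hFi' : ∀ n, Integrable (F' n) := fun n => by
    rw [hsh]
    exact (hFi n).comp_add_right _
  have hI' : ∀ n, ∫ z, F' n z = ∫ z, F n z := by
    intro n
    rw [hsh]
    exact integral_add_right_eq_self (F n) _
  have hIn' : ∀ n, ∫ z, ‖F' n z‖ = ∫ z, ‖F n z‖ := by
    intro n
    rw [hsh]
    exact integral_add_right_eq_self (fun z => ‖F n z‖) _
  have key' := hasSum_integral_of_summable_integral_norm hFi' (by simpa only [hIn'] using hFs)
  simp only [hI'] at key'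
  rw [key.unique key']
  refine integral_congr_ae (ae_of_all _ fun z => ?_)
  simp only [hF']
  have h5 := hR (Real.exp (t - z)) (Real.exp_pos _).le
  have h6 : ∀ n : ℕ, ff Ph (t - z - Real.log ((n : ℝ) + 1)) = Ph (Real.exp (t - z) / ((n : ℝ) + 1)) := by
    intro n
    unfold ff
    rw [Real.exp_sub, Real.exp_log (by positivity)]
  simp_rw [h6]
  rw [tsum_mul_right, ← Complex.ofReal_tsum, h5.tsum_eq]

/-- the count of squares, exponential scale -/
def fl (u : ℝ) : ℂ := ((⌊Real.sqrt (Real.exp u)⌋₊ : ℝ) : ℂ)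

/-- the unit step, exponential scale -/
def un (u : ℝ) : ℂ := (((if 1 ≤ Real.exp u then 1 else 0 : ℝ)) : ℂ)

/-- the square root for `y ≥ 1` -/
def EE (y : ℝ) : ℝ := if 1 ≤ y then Real.sqrt y else 0

theorem av_LL (t : ℝ) : av LL kc t = ∫ z : ℝ, fl (t - z) * qc z := by
  unfold av
  rw [kc_eq]
  exact moebG LL_PP (fun w => (⌊Real.sqrt w⌋₊ : ℝ)) LL_hasSum qc_QQ t

theorem av_MM (t : ℝ) : av MM kc t = ∫ z : ℝ, un (t - z) * qc z := by
  unfold av
  rw [kc_eq]
  exact moebG MM_PP (fun w => if 1 ≤ w then 1 else 0) MM_hasSum qc_QQ t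

theorem EE_meas : Measurable EE := by
  unfold EE
  exact Measurable.ite measurableSet_Ici Real.continuous_sqrt.measurable measurable_const

theorem EE_PP : PP EE := by
  refine ⟨EE_meas, fun u => ?_, fun u hu => ?_⟩
  · unfold ff EE
    split_ifs with h
    · rw [abs_of_nonneg (Real.sqrt_nonneg _)]
      rw [Real.sqrt_le_left (Real.exp_pos _).le]
      nlinarith
    · rw [abs_zero]
      exact (Real.exp_pos u).le
  · unfold ff EE
    rw [if_neg]
    rw [not_le]
    rwa [Real.exp_lt_one_iff]

theorem sqrt_exp (u : ℝ) : Real.sqrt (Real.exp u) = Real.exp (u / 2) := by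
  rw [show Real.exp u = (Real.exp (u / 2)) ^ 2 by
    rw [← Real.exp_nat_mul]
    congr 1
    push_cast
    ring]
  exact Real.sqrt_sq (Real.exp_pos _).le

/-- transforms of convolutions -/
theorem tr_conv (s : ℂ) {F G : ℝ → ℂ} (hF : Integrable fun z : ℝ => cexp (-s * z) * F z)
    (hG : Integrable fun z : ℝ => cexp (-s * z) * G z) :
    Integrable (fun t : ℝ => cexp (-s * t) * ∫ z : ℝ, F (t - z) * G z) ∧
    ∫ t : ℝ, cexp (-s * t) * ∫ z : ℝ, F (t - z) * G z =
      (∫ z : ℝ, cexp (-s * z) * F z) * ∫ z : ℝ, cexp (-s * z) * G z := by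
  have e : (fun t : ℝ => cexp (-s * t) * ∫ z : ℝ, F (t - z) * G z) =
      convolution (fun z : ℝ => cexp (-s * z) * G z) (fun z : ℝ => cexp (-s * z) * F z) (ContinuousLinearMap.mul ℂ ℂ) volume := by
    funext t
    rw [convolution_def, ← integral_const_mul]
    refine integral_congr_ae (ae_of_all _ fun z => ?_)
    simp only [ContinuousLinearMap.mul_apply']
    have h1 : cexp (-s * t) = cexp (-s * z) * cexp (-s * ((t - z : ℝ) : ℂ)) := by
      rw [← Complex.exp_add]
      congr 1
      push_cast
      ring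
    rw [h1]
    ring
  constructor
  · rw [e]
    exact hG.integrable_convolution _ hF
  · rw [e, integral_convolution _ hG hF, ContinuousLinearMap.mul_apply']
    ring

theorem qc_int (s : ℂ) (h0 : 0 < s.re) (h2 : s.re < 2) : Integrable (fun z : ℝ => cexp (-s * z) * qc z) := by
  refine int_tw ?_ 48 (fun t ht => ?_) (fun t ht => ?_) s h0 h2
  · exact (Complex.continuous_ofReal.comp qq_cont).measurable
  · refine (qq_bd t).trans ?_
    have : Real.exp (-(2 * |t|)) ≤ 1 := Real.exp_le_one_iff.2 (by have := abs_nonneg t; linarith)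
    linarith
  · refine (qq_bd t).trans ?_
    rw [abs_of_nonpos ht]
    exact le_of_eq (by congr 2; ring)

theorem kc_int (s : ℂ) (h2 : |s.re| ≤ 2) : Integrable (fun z : ℝ => cexp (-s * z) * kc z) := tw_int kc_DK s h2

theorem ind_int (s : ℂ) (b : ℝ) (a : ℂ) (ha : a.re < s.re) :
    Integrable (fun z : ℝ => cexp (-s * z) * (Ici b).indicator (fun z : ℝ => cexp (a * z)) z) ∧
    ∫ z : ℝ, cexp (-s * z) * (Ici b).indicator (fun z : ℝ => cexp (a * z)) z = cexp ((a - s) * b) / (s - a) := by
  have e : (fun z : ℝ => cexp (-s * z) * (Ici b).indicator (fun z : ℝ => cexp (a * z)) z) =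
      (Ici b).indicator (fun z : ℝ => cexp ((a - s) * z)) := by
    funext z
    by_cases h : z ∈ Ici b
    · rw [indicator_of_mem h, indicator_of_mem h, ← Complex.exp_add]
      congr 1
      ring
    · rw [indicator_of_notMem h, indicator_of_notMem h, mul_zero]
  have hre : (a - s).re < 0 := by rw [Complex.sub_re]; linarith
  rw [e]
  constructor
  · rw [integrable_indicator_iff measurableSet_Ici, integrableOn_Ici_iff_integrableOn_Ioi]
    exact integrableOn_exp_mul_complex_Ioi hre b
  · rw [integral_indicator measurableSet_Ici, integral_Ici_eq_integral_Ioi, integral_exp_mul_complex_Ioi hre]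
    rw [show s - a = -(a - s) by ring, div_neg, neg_div]

end

end TH299.LV
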