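import Pool.Agent.TH299.LV.L2

/-!
# Transforms of the averages
-/

open Complex MeasureTheory Filter Topology Set Metric H313.TK

set_option linter.unusedSectionVars false
set_option linter.unusedVariables false
set_option autoImplicit false

namespace TH299.LV

noncomputable section

theorem fl_eq (u : ℝ) : fl u = ((⌊Real.exp (u / 2)⌋₊ : ℝ) : ℂ) := by
  unfold fl
  rw [sqrt_exp]

theorem fl_meas : Measurable fl := by
  unfold fl
  have h1 : Measurable fun u : ℝ => ((⌊Real.sqrt (Real.exp u)⌋₊ : ℕ) : ℝ) :=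
    (measurable_of_countable (fun n : ℕ => (n : ℝ))).comp (Nat.measurable_floor.comp (by fun_prop))
  exact Complex.measurable_ofReal.comp h1

theorem fl_hasSum (u : ℝ) :
    HasSum (fun n : ℕ => (Ici (2 * Real.log ((n : ℝ) + 1))).indicator (fun z : ℝ => cexp (0 * z)) u) (fl u) := by
  set N := ⌊Real.exp (u / 2)⌋₊ with hN
  have hmem : ∀ n : ℕ, u ∈ Ici (2 * Real.log ((n : ℝ) + 1)) ↔ n ∈ Finset.range N := by
    intro n
    have h0 : (0:ℝ) < (n : ℝ) + 1 := by positivity
    rw [Finset.mem_range, mem_Ici, ← Nat.succ_le_iff, hN, Nat.le_floor_iff (Real.exp_pos _).le]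
    have h1 : (((Nat.succ n : ℕ)) : ℝ) = (n : ℝ) + 1 := by push_cast; rfl
    rw [h1, ← Real.log_le_iff_le_exp h0]
    constructor
    · intro h; linarith
    · intro h; linarith
  have h1 : fl u = ∑ n ∈ Finset.range N, (Ici (2 * Real.log ((n : ℝ) + 1))).indicator (fun z : ℝ => cexp (0 * z)) u := by
    rw [fl_eq, ← hN]
    have h2 : ∀ n ∈ Finset.range N, (Ici (2 * Real.log ((n : ℝ) + 1))).indicator (fun z : ℝ => cexp (0 * z)) u = 1 := by
      intro n hn
      rw [indicator_of_mem ((hmem n).2 hn)]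
      simp
    rw [Finset.sum_congr rfl h2]
    simp
  rw [h1]
  refine hasSum_sum_of_ne_finset_zero fun n hn => ?_
  exact indicator_of_notMem (fun h => hn ((hmem n).1 h)) _

theorem fl_bd (u : ℝ) (hu : 0 ≤ u) : ‖fl u‖ ≤ Real.exp (u / 2) := by
  rw [fl_eq, Complex.norm_real, Real.norm_eq_abs, abs_of_nonneg (Nat.cast_nonneg _)]
  exact Nat.floor_le (Real.exp_pos _).le

theorem fl_neg (u : ℝ) (hu : u < 0) : fl u = 0 := by
  rw [fl_eq, Nat.floor_eq_zero.2 (by rw [Real.exp_lt_one_iff]; linarith)]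
  simp

theorem fl_int (s : ℂ) (hs : 1 / 2 < s.re) : Integrable (fun z : ℝ => cexp (-s * z) * fl z) := by
  refine Integrable.mono' (g := (Ici (0:ℝ)).indicator (fun z => Real.exp ((1 / 2 - s.re) * z))) ?_ ?_
    (ae_of_all _ fun z => ?_)
  · rw [integrable_indicator_iff measurableSet_Ici, integrableOn_Ici_iff_integrableOn_Ioi]
    exact integrableOn_exp_mul_Ioi (by linarith) 0
  · have := fl_meas
    exact (by fun_prop : Measurable fun z : ℝ => cexp (-s * z) * fl z).aestronglyMeasurable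
  · by_cases hz : 0 ≤ z
    · rw [indicator_of_mem (show z ∈ Ici (0:ℝ) from hz), norm_mul, norm_tw]
      calc Real.exp (-s.re * z) * ‖fl z‖ ≤ Real.exp (-s.re * z) * Real.exp (z / 2) :=
            mul_le_mul_of_nonneg_left (fl_bd z hz) (Real.exp_pos _).le
        _ = _ := by rw [← Real.exp_add]; congr 1; ring
    · rw [fl_neg z (not_le.1 hz), indicator_of_notMem (show z ∉ Ici (0:ℝ) from hz)]
      simp

theorem fl_tr (s : ℂ) (hs : 1 / 2 < s.re) : ∫ z : ℝ, cexp (-s * z) * fl z = riemannZeta (2 * s) / s := by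
  have hs0 : (0:ℂ).re < s.re := by simp; linarith
  set F : ℕ → ℝ → ℂ := fun n z => cexp (-s * z) * (Ici (2 * Real.log ((n : ℝ) + 1))).indicator (fun z : ℝ => cexp (0 * z)) z with hF
  have hFi : ∀ n, Integrable (F n) := fun n => (ind_int s _ 0 hs0).1
  have hFI : ∀ n, ∫ z, F n z = (1 / ((n : ℂ) + 1) ^ (2 * s)) * (1 / s) := by
    intro n
    rw [(ind_int s _ 0 hs0).2, sub_zero, div_eq_mul_one_div]
    congr 1
    have hn : ((n : ℂ) + 1) = ((((n : ℝ) + 1 : ℝ)) : ℂ) := by push_cast; rfl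
    rw [hn, Complex.cpow_def_of_ne_zero (by
      rw [Complex.ofReal_ne_zero]; positivity), one_div, ← Complex.exp_neg, ← Complex.ofReal_log (by positivity)]
    congr 1
    push_cast
    ring
  have hnorm : ∀ n, ∫ z, ‖F n z‖ = ((n : ℝ) + 1) ^ (-(2 * s.re)) * (1 / s.re) := by
    intro n
    have e : (fun z => ‖F n z‖) = (Ici (2 * Real.log ((n : ℝ) + 1))).indicator (fun z : ℝ => Real.exp (-s.re * z)) := by
      funext z
      simp only [hF]
      by_cases h : z ∈ Ici (2 * Real.log ((n : ℝ) + 1))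
      · rw [indicator_of_mem h, indicator_of_mem h, norm_mul, norm_tw]
        simp
      · rw [indicator_of_notMem h, indicator_of_notMem h]
        simp
    rw [e, integral_indicator measurableSet_Ici, integral_Ici_eq_integral_Ioi, integral_exp_mul_Ioi (by linarith),
      neg_div_neg_eq, div_eq_mul_one_div]
    congr 1
    rw [Real.rpow_def_of_pos (by positivity)]
    congr 1
    ring
  have hFs : Summable (fun n => ∫ z, ‖F n z‖) := by
    simp only [hnorm]
    refine Summable.mul_right _ ?_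
    have h3 : Summable (fun n : ℕ => (n : ℝ) ^ (-(2 * s.re))) := Real.summable_nat_rpow.2 (by linarith)
    have h4 := (summable_nat_add_iff 1).2 h3
    refine h4.congr fun n => ?_
    push_cast
    rfl
  have key := hasSum_integral_of_summable_integral_norm hFi hFs
  have e1 : ∫ z, ∑' n, F n z = ∫ z : ℝ, cexp (-s * z) * fl z := by
    refine integral_congr_ae (ae_of_all _ fun z => ?_)
    simp only [hF]
    rw [tsum_mul_left, (fl_hasSum z).tsum_eq]
  rw [e1] at key
  simp only [hFI] at key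
  rw [← key.tsum_eq, tsum_mul_right, zeta_eq_tsum_one_div_nat_add_one_cpow (by simp; linarith)]
  ring

theorem un_eq : un = (Ici (0:ℝ)).indicator (fun z : ℝ => cexp (0 * z)) := by
  funext u
  unfold un
  by_cases h : 0 ≤ u
  · rw [indicator_of_mem (show u ∈ Ici (0:ℝ) from h), if_pos (Real.one_le_exp h)]
    simp
  · rw [indicator_of_notMem (show u ∉ Ici (0:ℝ) from h), if_neg (by
      rw [not_le, Real.exp_lt_one_iff]
      exact not_le.1 h)]
    simp

theorem EE_eq (u : ℝ) : (ff EE u : ℂ) = (Ici (0:ℝ)).indicator (fun z : ℝ => cexp ((1 / 2 : ℂ) * z)) u := by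
  unfold ff EE
  by_cases h : 0 ≤ u
  · rw [indicator_of_mem (show u ∈ Ici (0:ℝ) from h), if_pos (Real.one_le_exp h), sqrt_exp, Complex.ofReal_exp]
    congr 1
    push_cast
    ring
  · rw [indicator_of_notMem (show u ∉ Ici (0:ℝ) from h), if_neg (by
      rw [not_le, Real.exp_lt_one_iff]
      exact not_le.1 h)]
    simp

/-- transform for the Mertens function -/
theorem T_M (s : ℂ) (h0 : 0 < s.re) (h2 : s.re < 2) :
    Integrable (fun t : ℝ => cexp (-s * t) * av MM kc t) ∧
    ∫ t : ℝ, cexp (-s * t) * av MM kc t = qh s / s := by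
  have hs0 : (0:ℂ).re < s.re := by simpa using h0
  have h1 := ind_int s 0 0 hs0
  rw [← un_eq] at h1
  have h3 := tr_conv s (F := un) (G := qc) h1.1 (qc_int s h0 h2)
  simp only [← av_MM] at h3
  refine ⟨h3.1, ?_⟩
  rw [h3.2, h1.2]
  have : ∫ z : ℝ, cexp (-s * z) * qc z = qh s := rfl
  rw [this]
  simp
  ring

/-- transform for the Liouville function -/
theorem T_L (s : ℂ) (h0 : 1 / 2 < s.re) (h2 : s.re < 2) :
    Integrable (fun t : ℝ => cexp (-s * t) * av LL kc t) ∧
    ∫ t : ℝ, cexp (-s * t) * av LL kc t = riemannZeta (2 * s) / s * qh s := by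
  have h3 := tr_conv s (F := fl) (G := qc) (fl_int s h0) (qc_int s (by linarith) h2)
  simp only [← av_LL] at h3
  refine ⟨h3.1, ?_⟩
  rw [h3.2, fl_tr s h0]
  rfl

/-- transform for the square root -/
theorem T_E (s : ℂ) (h0 : 1 / 2 < s.re) (h2 : s.re < 2) :
    Integrable (fun t : ℝ => cexp (-s * t) * av EE kc t) ∧
    ∫ t : ℝ, cexp (-s * t) * av EE kc t = Kh s / (s - 1 / 2) := by
  have hre : ((1 / 2 : ℂ)).re < s.re := by
    have : ((1 / 2 : ℂ)).re = 1 / 2 := by norm_num
    rw [this]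
    exact h0
  have h1 := ind_int s 0 (1 / 2) hre
  have h4 : (fun u : ℝ => (ff EE u : ℂ)) = (Ici (0:ℝ)).indicator (fun z : ℝ => cexp ((1 / 2 : ℂ) * z)) := funext EE_eq
  rw [← h4] at h1
  have h3 := tr_conv s (F := fun u : ℝ => (ff EE u : ℂ)) (G := kc) h1.1 (kc_int s (by rw [abs_of_pos (by linarith)]; linarith))
  have h5 : ∀ t : ℝ, ∫ z : ℝ, (ff EE (t - z) : ℂ) * kc z = av EE kc t := fun t => rfl
  simp only [h5] at h3
  refine ⟨h3.1, ?_⟩
  rw [h3.2, h1.2]
  have : ∫ z : ℝ, cexp (-s * z) * kc z = Kh s := rfl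
  rw [this]
  simp
  ring

end

end TH299.LV
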