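import Pool.Agent.TH299.LV.L3

/-!
# The corrected average is bounded; its transform at a zero
-/

open Complex MeasureTheory Filter Topology Set Metric H313.TK

set_option linter.unusedSectionVars false
set_option linter.unusedVariables false
set_option autoImplicit false

namespace TH299.LV

noncomputable section

theorem kp_int1 : Integrable kp := by
  have h := (mass_le 0 le_rfl (by norm_num)).1
  refine h.congr (ae_of_all _ fun v => ?_)
  simp

/-- the value at `1/2` -/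
def zh : ℝ := (riemannZeta (1 / 2)).re

theorem zh_eq : riemannZeta (1 / 2) = (zh : ℂ) := by
  have h1 := riemannZeta_conj (1 / 2)
  have h2 : (starRingEnd ℂ) (1 / 2 : ℂ) = 1 / 2 := by
    rw [map_div₀, map_one]
    congr 1
    exact map_ofNat _ 2
  rw [h2] at h1
  exact (Complex.conj_eq_iff_re.1 h1.symm).symm

theorem Kh_half : Kh (1 / 2) ≠ 0 := by
  have h1 : Kh (1 / 2) = ((∫ v : ℝ, Real.exp (-(1 / 2 * v)) * kp v : ℝ) : ℂ) := by
    unfold Kh
    rw [← integral_complex_ofReal]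
    refine integral_congr_ae (ae_of_all _ fun v => ?_)
    simp only
    push_cast
    congr 2
    ring
  rw [h1, Ne, Complex.ofReal_eq_zero]
  have hi := (mass_le (1 / 2) (by norm_num) (by norm_num)).1
  have hpos : ∀ v, 0 < Real.exp (-(1 / 2 * v)) * kp v := by
    intro v
    have h2 := (kp_bounds v).1
    have h3 := W_pos v
    have h4 : 0 < kp v := by linarith
    positivity
  have h2 : 0 < ∫ v : ℝ, Real.exp (-(1 / 2 * v)) * kp v := by
    rw [integral_pos_iff_support_of_nonneg (fun v => (hpos v).le) hi]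
    have h3 : Function.support (fun v => Real.exp (-(1 / 2 * v)) * kp v) = univ := by
      ext v
      simp only [Function.mem_support, mem_univ, iff_true]
      exact (hpos v).ne'
    rw [h3]
    simp
  exact h2.ne'

theorem Kh_half_eq : Kh (1 / 2) = riemannZeta (1 / 2) * qh (1 / 2) :=
  Kh_eq (1 / 2) (by norm_num) (by norm_num) (by norm_num)

theorem zeta_half_ne : riemannZeta (1 / 2) ≠ 0 := by
  intro h
  apply Kh_half
  rw [Kh_half_eq, h, zero_mul]

theorem zh_ne : zh ≠ 0 := by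
  have h := zeta_half_ne
  rw [zh_eq] at h
  exact_mod_cast h

/-- the corrected average -/
def BB (t : ℝ) : ℂ := av LL kc t - (1 / (zh : ℂ)) * av EE kc t

theorem BB_meas : Measurable BB :=
  (av_meas LL_PP kc_DK.cont).sub ((av_meas EE_PP kc_DK.cont).const_mul _)

theorem BB_decay : ∃ C : ℝ, 0 ≤ C ∧ ∀ t ≤ 0, ‖BB t‖ ≤ C * Real.exp (2 * t) := by
  obtain ⟨C1, hC1, h1⟩ := av_decay LL_PP kc_DK
  obtain ⟨C2, hC2, h2⟩ := av_decay EE_PP kc_DK
  refine ⟨C1 + ‖1 / (zh : ℂ)‖ * C2, by positivity, fun t ht => ?_⟩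
  unfold BB
  refine (norm_sub_le _ _).trans ?_
  rw [norm_mul, add_mul]
  refine add_le_add (h1 t ht) ?_
  rw [mul_assoc]
  exact mul_le_mul_of_nonneg_left (h2 t ht) (norm_nonneg _)

theorem fr_bd (u : ℝ) : ‖cexp ((1 / 2 : ℂ) * u) - fl u‖ ≤ 1 := by
  have h1 : cexp ((1 / 2 : ℂ) * u) = ((Real.exp (u / 2) : ℝ) : ℂ) := by
    rw [Complex.ofReal_exp]
    congr 1
    push_cast
    ring
  rw [h1, fl_eq, ← Complex.ofReal_sub, Complex.norm_real, Real.norm_eq_abs]
  have h2 := Nat.floor_le (Real.exp_pos (u / 2)).le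
  have h3 := Nat.lt_floor_add_one (Real.exp (u / 2))
  rw [abs_of_nonneg (by linarith)]
  linarith

theorem av_LL_eq (t : ℝ) : ‖av LL kc t - cexp ((1 / 2 : ℂ) * t) * qh (1 / 2)‖ ≤ 48 * ∫ x : ℝ, Real.exp (-(2 * |x|)) := by
  have hq0 : Integrable qc := by
    refine ((int_exp_abs 2 (by norm_num)).const_mul 48).mono' ?_ (ae_of_all _ fun v => qq_bd v)
    exact (Complex.continuous_ofReal.comp qq_cont).aestronglyMeasurable
  have hq := qc_int (1 / 2) (by norm_num) (by norm_num)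
  have hflm := fl_meas
  have hqm : Measurable qc := (Complex.continuous_ofReal.comp qq_cont).measurable
  have hd : Integrable (fun z : ℝ => (cexp ((1 / 2 : ℂ) * ((t - z : ℝ) : ℂ)) - fl (t - z)) * qc z) := by
    refine hq0.norm.mono' ?_ (ae_of_all _ fun z => ?_)
    · exact (by fun_prop : Measurable fun z : ℝ => (cexp ((1 / 2 : ℂ) * ((t - z : ℝ) : ℂ)) - fl (t - z)) * qc z).aestronglyMeasurable
    · rw [norm_mul]
      calc ‖cexp ((1 / 2 : ℂ) * ((t - z : ℝ) : ℂ)) - fl (t - z)‖ * ‖qc z‖ ≤ 1 * ‖qc z‖ :=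
            mul_le_mul_of_nonneg_right (fr_bd _) (norm_nonneg _)
        _ = _ := one_mul _
  have e0 : ∀ z : ℝ, cexp ((1 / 2 : ℂ) * ((t - z : ℝ) : ℂ)) * qc z =
      cexp ((1 / 2 : ℂ) * t) * (cexp (-(1 / 2) * z) * qc z) := by
    intro z
    rw [← mul_assoc, ← Complex.exp_add]
    congr 2
    push_cast
    ring
  have e1 : Integrable (fun z : ℝ => cexp ((1 / 2 : ℂ) * ((t - z : ℝ) : ℂ)) * qc z) := by
    refine (hq.const_mul (cexp ((1 / 2 : ℂ) * t))).congr (ae_of_all _ fun z => ?_)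
    simp only
    rw [e0]
  have e2 : cexp ((1 / 2 : ℂ) * t) * qh (1 / 2) = ∫ z : ℝ, cexp ((1 / 2 : ℂ) * ((t - z : ℝ) : ℂ)) * qc z := by
    unfold qh
    rw [← integral_const_mul]
    refine integral_congr_ae (ae_of_all _ fun z => ?_)
    simp only
    rw [e0]
    rfl
  have e3 : cexp ((1 / 2 : ℂ) * t) * qh (1 / 2) - av LL kc t =
      ∫ z : ℝ, (cexp ((1 / 2 : ℂ) * ((t - z : ℝ) : ℂ)) - fl (t - z)) * qc z := by
    have e4 : Integrable (fun z : ℝ => fl (t - z) * qc z) := by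
      refine (e1.sub hd).congr (ae_of_all _ fun z => ?_)
      simp only [Pi.sub_apply]
      ring
    rw [e2, av_LL, ← integral_sub e1 e4]
    refine integral_congr_ae (ae_of_all _ fun z => ?_)
    simp only
    ring
  rw [norm_sub_rev, e3, ← integral_const_mul]
  refine norm_integral_le_of_norm_le ((int_exp_abs 2 (by norm_num)).const_mul 48) (ae_of_all _ fun z => ?_)
  rw [norm_mul]
  calc ‖cexp ((1 / 2 : ℂ) * ((t - z : ℝ) : ℂ)) - fl (t - z)‖ * ‖qc z‖ ≤ 1 * ‖qc z‖ :=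
        mul_le_mul_of_nonneg_right (fr_bd _) (norm_nonneg _)
    _ ≤ _ := by rw [one_mul]; exact qq_bd z

theorem av_EE_eq (t : ℝ) : ‖av EE kc t - cexp ((1 / 2 : ℂ) * t) * Kh (1 / 2)‖ ≤ ∫ x : ℝ, kp x := by
  have hk := kc_int (1 / 2) (by norm_num)
  have e0 : ∀ z : ℝ, cexp ((1 / 2 : ℂ) * ((t - z : ℝ) : ℂ)) * kc z =
      cexp ((1 / 2 : ℂ) * t) * (cexp (-(1 / 2) * z) * kc z) := by
    intro z
    rw [← mul_assoc, ← Complex.exp_add]
    congr 2
    push_cast
    ring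
  have e1 : Integrable (fun z : ℝ => cexp ((1 / 2 : ℂ) * ((t - z : ℝ) : ℂ)) * kc z) := by
    refine (hk.const_mul (cexp ((1 / 2 : ℂ) * t))).congr (ae_of_all _ fun z => ?_)
    simp only
    rw [e0]
  have e2 : cexp ((1 / 2 : ℂ) * t) * Kh (1 / 2) = ∫ z : ℝ, cexp ((1 / 2 : ℂ) * ((t - z : ℝ) : ℂ)) * kc z := by
    unfold Kh
    rw [← integral_const_mul]
    refine integral_congr_ae (ae_of_all _ fun z => ?_)
    simp only
    rw [e0]
    rfl
  have e3 : av EE kc t - cexp ((1 / 2 : ℂ) * t) * Kh (1 / 2) =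
      ∫ z : ℝ, ((ff EE (t - z) : ℂ) * kc z - cexp ((1 / 2 : ℂ) * ((t - z : ℝ) : ℂ)) * kc z) := by
    rw [e2]
    unfold av
    rw [← integral_sub (av_int EE_PP kc_DK t) e1]
  rw [e3]
  refine norm_integral_le_of_norm_le kp_int1 (ae_of_all _ fun z => ?_)
  rw [← sub_mul, norm_mul]
  have h1 : ‖kc z‖ = kp z := by
    unfold kc
    rw [Complex.norm_real, Real.norm_eq_abs, abs_of_nonneg (kp_nonneg z)]
  rw [h1]
  have h2 : ‖(ff EE (t - z) : ℂ) - cexp ((1 / 2 : ℂ) * ((t - z : ℝ) : ℂ))‖ ≤ 1 := by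
    rw [EE_eq]
    by_cases h : 0 ≤ t - z
    · rw [indicator_of_mem (show t - z ∈ Ici (0:ℝ) from h), sub_self, norm_zero]
      norm_num
    · rw [indicator_of_notMem (show t - z ∉ Ici (0:ℝ) from h), zero_sub, norm_neg, norm_tw']
      refine Real.exp_le_one_iff.2 ?_
      have h3 : ((1 / 2 : ℂ)).re = 1 / 2 := by norm_num
      rw [h3]
      linarith [not_le.1 h]
  calc ‖(ff EE (t - z) : ℂ) - cexp ((1 / 2 : ℂ) * ((t - z : ℝ) : ℂ))‖ * kp z ≤ 1 * kp z :=
        mul_le_mul_of_nonneg_right h2 (kp_nonneg z)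
    _ = _ := one_mul _

theorem BB_bd : ∃ C : ℝ, 0 ≤ C ∧ ∀ t, ‖BB t‖ ≤ C := by
  have hi0 : 0 ≤ ∫ x : ℝ, Real.exp (-(2 * |x|)) := integral_nonneg fun x => (Real.exp_pos _).le
  have hi1 : 0 ≤ ∫ x : ℝ, kp x := integral_nonneg fun x => kp_nonneg x
  refine ⟨48 * (∫ x : ℝ, Real.exp (-(2 * |x|))) + ‖1 / (zh : ℂ)‖ * ∫ x : ℝ, kp x, by positivity, fun t => ?_⟩
  have h1 := av_LL_eq t
  have h2 := av_EE_eq t
  have h3 : (1 / (zh : ℂ)) * Kh (1 / 2) = qh (1 / 2) := by
    rw [Kh_half_eq, zh_eq]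
    have : (zh : ℂ) ≠ 0 := by exact_mod_cast zh_ne
    field_simp
  have e : BB t = (av LL kc t - cexp ((1 / 2 : ℂ) * t) * qh (1 / 2)) -
      (1 / (zh : ℂ)) * (av EE kc t - cexp ((1 / 2 : ℂ) * t) * Kh (1 / 2)) := by
    unfold BB
    linear_combination (-cexp ((1 / 2 : ℂ) * t)) * h3
  rw [e]
  refine (norm_sub_le _ _).trans ?_
  rw [norm_mul]
  exact add_le_add h1 (mul_le_mul_of_nonneg_left h2 (norm_nonneg _))

theorem BB_tr (s : ℂ) (h0 : 1 / 2 < s.re) (h2 : s.re < 2) :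
    ∫ t : ℝ, cexp (-s * t) * BB t = riemannZeta (2 * s) / s * qh s - (1 / (zh : ℂ)) * (Kh s / (s - 1 / 2)) := by
  obtain ⟨i1, e1⟩ := T_L s h0 h2
  obtain ⟨i2, e2⟩ := T_E s h0 h2
  rw [← e1, ← e2, ← integral_const_mul, ← integral_sub i1 (i2.const_mul _)]
  refine integral_congr_ae (ae_of_all _ fun t => ?_)
  simp only
  unfold BB
  ring

/-- the transform at a zero -/
theorem BB_zero (ρ : ℂ) (hz : riemannZeta ρ = 0) (h0 : 1 / 2 ≤ ρ.re) (h1 : ρ.re < 1) :
    ∫ t : ℝ, cexp (-ρ * t) * BB t = riemannZeta (2 * ρ) / ρ * qh ρ := by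
  have hρ : ρ ≠ 0 := by rintro rfl; simp at h0; linarith
  have hρ2 : ρ - 1 / 2 ≠ 0 := by
    intro h
    have : ρ = 1 / 2 := by linear_combination h
    rw [this] at hz
    exact zeta_half_ne hz
  have hρ3 : 2 * ρ ≠ 1 := by
    intro h
    apply hρ2
    linear_combination h / 2
  obtain ⟨C1, hC1, hb⟩ := BB_bd
  obtain ⟨C2, hC2, hd⟩ := BB_decay
  have hBm := BB_meas
  -- the limit of the left-hand side
  have hL : Tendsto (fun σ : ℝ => ∫ t : ℝ, cexp (-(ρ + σ) * t) * BB t) (𝓝[>] 0) (𝓝 (∫ t : ℝ, cexp (-ρ * t) * BB t)) := by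
    refine tendsto_integral_filter_of_dominated_convergence (fun t => (C1 + C2) * Real.exp (-(1 / 2 * |t|))) ?_ ?_
      ((int_exp_abs (1 / 2) (by norm_num)).const_mul _) ?_
    · exact Eventually.of_forall fun σ => (by fun_prop : Measurable fun t : ℝ => cexp (-(ρ + σ) * t) * BB t).aestronglyMeasurable
    · have hev : ∀ᶠ σ : ℝ in 𝓝[>] 0, σ ∈ Ioo (0:ℝ) (1 / 2) := Ioo_mem_nhdsGT (by norm_num)
      filter_upwards [hev] with σ hσ
      refine ae_of_all _ fun t => ?_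
      rw [norm_mul, norm_tw]
      have hre : (ρ + (σ : ℂ)).re = ρ.re + σ := by simp
      rw [hre]
      rcases le_total 0 t with ht | ht
      · rw [abs_of_nonneg ht]
        have h3 : Real.exp (-(ρ.re + σ) * t) ≤ Real.exp (-(1 / 2 * t)) := by
          refine Real.exp_le_exp.2 ?_
          have := hσ.1
          nlinarith
        calc Real.exp (-(ρ.re + σ) * t) * ‖BB t‖ ≤ Real.exp (-(1 / 2 * t)) * C1 :=
              mul_le_mul h3 (hb t) (norm_nonneg _) (Real.exp_pos _).le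
          _ ≤ _ := by
            have := Real.exp_pos (-(1 / 2 * t))
            nlinarith
      · rw [abs_of_nonpos ht]
        have h3 : Real.exp (-(ρ.re + σ) * t) * Real.exp (2 * t) ≤ Real.exp (-(1 / 2 * -t)) := by
          rw [← Real.exp_add]
          refine Real.exp_le_exp.2 ?_
          have := hσ.2
          nlinarith
        calc Real.exp (-(ρ.re + σ) * t) * ‖BB t‖ ≤ Real.exp (-(ρ.re + σ) * t) * (C2 * Real.exp (2 * t)) :=
              mul_le_mul_of_nonneg_left (hd t ht) (Real.exp_pos _).le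
          _ = C2 * (Real.exp (-(ρ.re + σ) * t) * Real.exp (2 * t)) := by ring
          _ ≤ C2 * Real.exp (-(1 / 2 * -t)) := mul_le_mul_of_nonneg_left h3 hC2
          _ ≤ _ := by
            have := Real.exp_pos (-(1 / 2 * -t))
            nlinarith
    · refine ae_of_all _ fun t => ?_
      have hc : Continuous fun σ : ℝ => cexp (-(ρ + σ) * t) * BB t := by fun_prop
      have := hc.tendsto 0
      simp only [Complex.ofReal_zero, add_zero] at this
      exact this.mono_left nhdsWithin_le_nhds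
  -- the limit of the right-hand side
  have hR : Tendsto (fun σ : ℝ => riemannZeta (2 * (ρ + σ)) / (ρ + σ) * qh (ρ + σ) -
      (1 / (zh : ℂ)) * (Kh (ρ + σ) / ((ρ + σ) - 1 / 2))) (𝓝[>] 0)
      (𝓝 (riemannZeta (2 * ρ) / ρ * qh ρ - (1 / (zh : ℂ)) * (Kh ρ / (ρ - 1 / 2)))) := by
    have hre2 : |ρ.re| < 2 := by rw [abs_of_pos (by linarith)]; linarith
    have hre3 : |ρ.re| < 3 := by linarith
    have c1 : ContinuousAt riemannZeta (2 * ρ) := (differentiableAt_riemannZeta hρ3).continuousAt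
    have c2 : ContinuousAt qh ρ := (qh_deriv ρ hre2).continuousAt
    have c3 : ContinuousAt Kh ρ := (Kh_deriv ρ hre3).continuousAt
    have c4 : ContinuousAt (fun s : ℂ => riemannZeta (2 * s) / s * qh s - (1 / (zh : ℂ)) * (Kh s / (s - 1 / 2))) ρ := by
      have c5 : ContinuousAt (fun s : ℂ => riemannZeta (2 * s)) ρ :=
        ContinuousAt.comp (f := fun s : ℂ => 2 * s) (g := riemannZeta) c1 (by fun_prop)
      exact ((c5.div continuousAt_id hρ).mul c2).sub (continuousAt_const.mul (c3.div (by fun_prop) hρ2))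
    have c6 : Tendsto (fun σ : ℝ => ρ + (σ : ℂ)) (𝓝[>] 0) (𝓝 ρ) := by
      have hc : Continuous fun σ : ℝ => ρ + (σ : ℂ) := by fun_prop
      have := hc.tendsto 0
      simp only [Complex.ofReal_zero, add_zero] at this
      exact this.mono_left nhdsWithin_le_nhds
    exact c4.tendsto.comp c6
  have hEq : (fun σ : ℝ => ∫ t : ℝ, cexp (-(ρ + σ) * t) * BB t) =ᶠ[𝓝[>] 0]
      (fun σ : ℝ => riemannZeta (2 * (ρ + σ)) / (ρ + σ) * qh (ρ + σ) -
      (1 / (zh : ℂ)) * (Kh (ρ + σ) / ((ρ + σ) - 1 / 2))) := by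
    have hev : ∀ᶠ σ : ℝ in 𝓝[>] 0, σ ∈ Ioo (0:ℝ) (1 / 2) := Ioo_mem_nhdsGT (by norm_num)
    filter_upwards [hev] with σ hσ
    have hre : (ρ + (σ : ℂ)).re = ρ.re + σ := by simp
    exact BB_tr (ρ + σ) (by rw [hre]; linarith [hσ.1]) (by rw [hre]; linarith [hσ.2])
  have := tendsto_nhds_unique hL (hR.congr' hEq.symm)
  rw [this, Kh_zero ρ hz (by linarith) h1, zero_div, mul_zero, sub_zero]

end

end TH299.LV
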