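import Pool.Agent.H313R3.TK.I

/-!
# Windows `[x, x log x]` for a general function (port of `H313R3/TK`)
-/

open Complex MeasureTheory Filter Topology Set Metric H313.TK

set_option linter.unusedSectionVars false
set_option linter.unusedVariables false
set_option autoImplicit false

namespace TH299.LV

noncomputable section

/-- a function in the exponential scale -/
def ff (Ph : ℝ → ℝ) (u : ℝ) : ℝ := Ph (Real.exp u)

theorem ff_meas {Ph : ℝ → ℝ} (h : Measurable Ph) : Measurable (ff Ph) := h.comp Real.measurable_exp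

/-- restriction to the window -/
theorem win (Ph : ℝ → ℝ) (hPh : Measurable Ph) (hPb : ∀ u, |ff Ph u| ≤ Real.exp u) (β : ℝ) (hβ : 1 / 2 ≤ β) (Lf : ℝ → ℝ) (hL : ∀ᶠ t in atTop, 1 ≤ Lf t)
    (hcore : ∃ c : ℝ, 0 < c ∧ ∀ᶠ t : ℝ in atTop, ∀ s : ℝ, s = 1 ∨ s = -1 →
      c * (Lf t * Real.exp (β * t)) ≤ ∫ v : ℝ, max (s * ff Ph (t - v)) 0 * kp v) :
    ∃ c : ℝ, 0 < c ∧ ∀ᶠ l : ℝ in atTop, ∀ s : ℝ, s = 1 ∨ s = -1 →
      c * (Lf (ct l) * Real.exp (β * ct l)) ≤
        ∫ v in Icc (-(Real.log l / 2)) (Real.log l / 2), max (s * ff Ph (ct l - v)) 0 * kp v := by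
  obtain ⟨c, hc, hev⟩ := hcore
  refine ⟨c / 2, by positivity, ?_⟩
  have hC0 := C0_nonneg
  have hD1 := D1_nonneg
  set B : ℝ := 8 * C0 * D1 with hB
  have hB0 : 0 ≤ B := by positivity
  -- the elementary asymptotic inequality
  have hlim : ∀ᶠ l : ℝ in atTop, B * (l * Real.exp (-(l / 4))) ≤ c / 2 := by
    have h1 : Tendsto (fun l : ℝ => l * Real.exp (-(l / 4))) atTop (𝓝 0) := by
      have h2 : Tendsto (fun l : ℝ => l / 4) atTop atTop := tendsto_id.atTop_div_const (by norm_num)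
      have h3 := (Real.tendsto_pow_mul_exp_neg_atTop_nhds_zero 1).comp h2
      have h4 : Tendsto (fun l : ℝ => 4 * ((l / 4) ^ 1 * Real.exp (-(l / 4)))) atTop (𝓝 (4 * 0)) := h3.const_mul 4
      rw [mul_zero] at h4
      refine h4.congr fun l => ?_
      ring
    have h5 : Tendsto (fun l : ℝ => B * (l * Real.exp (-(l / 4)))) atTop (𝓝 (B * 0)) := h1.const_mul B
    rw [mul_zero] at h5
    exact h5.eventually (ge_mem_nhds (by positivity))
  filter_upwards [ct_tendsto.eventually hev, ct_tendsto.eventually hL, hlim, eventually_ge_atTop (1:ℝ)]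
    with l h1 h2 h3 h4 s hs
  set a : ℝ := Real.log l / 2 with ha
  have hl0 : 0 < l := by linarith
  have ha0 : 0 ≤ a := by rw [ha]; have := Real.log_nonneg h4; positivity
  have hm := (ff_meas hPh)
  have k1 := h1 s hs
  have k2 := tail (fun u => max (s * ff Ph u) 0) (by fun_prop) (fun u => le_max_right _ _)
    (fun u => (le_abs_self _).trans ((part_le s hs _).trans (hPb u))) (ct l) a ha0
  have k3 : Real.exp (ct l + a) * W (-a) ≤ l * Real.exp (l / 4) := by
    have e1 : Real.exp (ct l + a) = l * Real.exp l := by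
      have : ct l + a = Real.log l + l := by unfold ct; rw [ha]; ring
      rw [this, Real.exp_add, Real.exp_log hl0]
    have e2 : W (-a) ≤ Real.exp (-(3 / 4 * l)) := by
      unfold W
      refine Real.exp_le_exp.2 ?_
      rw [max_eq_right (by linarith), abs_neg, abs_of_nonneg ha0]
      have e3 : 2 * a = Real.log l := by rw [ha]; ring
      rw [e3, Real.exp_log hl0]
      have := Real.pi_gt_three
      nlinarith
    rw [e1]
    calc l * Real.exp l * W (-a) ≤ l * Real.exp l * Real.exp (-(3 / 4 * l)) :=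
          mul_le_mul_of_nonneg_left e2 (by positivity)
      _ = l * (Real.exp l * Real.exp (-(3 / 4 * l))) := by ring
      _ = _ := by rw [← Real.exp_add]; congr 2; ring
  have k4 : B * (Real.exp (ct l + a) * W (-a)) ≤ c / 2 * Real.exp (β * ct l) := by
    have e1 : B * (Real.exp (ct l + a) * W (-a)) ≤ B * (l * Real.exp (l / 4)) := mul_le_mul_of_nonneg_left k3 hB0
    have e2 : B * (l * Real.exp (l / 4)) = (B * (l * Real.exp (-(l / 4)))) * Real.exp (l / 2) := by
      have : Real.exp (l / 4) = Real.exp (-(l / 4)) * Real.exp (l / 2) := by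
        rw [← Real.exp_add]; congr 1; ring
      rw [this]
      ring
    have e3 : Real.exp (l / 2) ≤ Real.exp (β * ct l) := by
      refine Real.exp_le_exp.2 ?_
      have : l ≤ ct l := by unfold ct; linarith
      nlinarith
    calc B * (Real.exp (ct l + a) * W (-a)) ≤ (B * (l * Real.exp (-(l / 4)))) * Real.exp (l / 2) := by rw [← e2]; exact e1
      _ ≤ c / 2 * Real.exp (l / 2) := mul_le_mul_of_nonneg_right h3 (Real.exp_pos _).le
      _ ≤ _ := mul_le_mul_of_nonneg_left e3 (by positivity)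
  have k5 : Real.exp (β * ct l) ≤ Lf (ct l) * Real.exp (β * ct l) := le_mul_of_one_le_left (Real.exp_pos _).le h2
  have k6 := mul_le_mul_of_nonneg_left k5 (by positivity : 0 ≤ c / 2)
  linarith

/-- sup version -/
theorem win_sup (Ph : ℝ → ℝ) (hPh : Measurable Ph) (hPb : ∀ u, |ff Ph u| ≤ Real.exp u) (β : ℝ) (hβ : 1 / 2 ≤ β) (hβ1 : β ≤ 1) (Lf : ℝ → ℝ) (hL : ∀ᶠ t in atTop, 1 ≤ Lf t)
    (hcore : ∃ c : ℝ, 0 < c ∧ ∀ᶠ t : ℝ in atTop, ∀ s : ℝ, s = 1 ∨ s = -1 →
      c * (Lf t * Real.exp (β * t)) ≤ ∫ v : ℝ, max (s * ff Ph (t - v)) 0 * kp v) :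
    ∃ c : ℝ, 0 < c ∧ ∀ᶠ l : ℝ in atTop, ∀ s : ℝ, s = 1 ∨ s = -1 →
      ∃ u ∈ Icc l (l + Real.log l), c * (Lf (ct l) * Real.exp (β * u)) ≤ s * ff Ph u := by
  obtain ⟨c, hc, hev⟩ := win Ph hPh hPb β hβ Lf hL hcore
  have hC0 := C0_nonneg
  have hD1 := D1_nonneg
  obtain ⟨hmi, hmass⟩ := mass_le β (by linarith) (by linarith)
  refine ⟨c / (4 * C0 * D1 + 1), by positivity, ?_⟩
  filter_upwards [hev, ct_tendsto.eventually hL, eventually_ge_atTop (1:ℝ)] with l h1 h2 h3 s hs
  by_contra hcon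
  push Not at hcon
  set a : ℝ := Real.log l / 2 with ha
  set δ : ℝ := c / (4 * C0 * D1 + 1) * Lf (ct l) with hδ
  have hδ0 : 0 < δ := by positivity
  have ha0 : 0 ≤ a := by rw [ha]; have := Real.log_nonneg h3; positivity
  have k1 := h1 s hs
  have hm := (ff_meas hPh)
  have hi := avg_int (fun u => max (s * ff Ph u) 0) (by fun_prop) (fun u => (part_le s hs _).trans (hPb u)) (ct l)
  have k2 : ∫ v in Icc (-a) a, max (s * ff Ph (ct l - v)) 0 * kp v ≤
      ∫ v in Icc (-a) a, δ * Real.exp (β * ct l) * (Real.exp (-(β * v)) * kp v) := by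
    refine setIntegral_mono_on hi.integrableOn ((hmi.const_mul _).integrableOn) measurableSet_Icc fun v hv => ?_
    have hu : ct l - v ∈ Icc l (l + Real.log l) := by
      unfold ct
      constructor <;> linarith [hv.1, hv.2]
    have h5 : max (s * ff Ph (ct l - v)) 0 ≤ δ * Real.exp (β * (ct l - v)) := by
      refine max_le ?_ (by positivity)
      refine (hcon _ hu).le.trans (le_of_eq ?_)
      rw [hδ]
      ring
    calc max (s * ff Ph (ct l - v)) 0 * kp v ≤ δ * Real.exp (β * (ct l - v)) * kp v :=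
          mul_le_mul_of_nonneg_right h5 (kp_nonneg v)
      _ = δ * (Real.exp (β * ct l) * Real.exp (-(β * v))) * kp v := by
          rw [← Real.exp_add]; congr 3; ring
      _ = _ := by ring
  have k3 : ∫ v in Icc (-a) a, δ * Real.exp (β * ct l) * (Real.exp (-(β * v)) * kp v) ≤
      δ * Real.exp (β * ct l) * (4 * C0 * D1) := by
    rw [integral_const_mul]
    refine mul_le_mul_of_nonneg_left ?_ (by positivity)
    refine (setIntegral_le_integral hmi (ae_of_all _ fun v => ?_)).trans hmass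
    exact mul_nonneg (Real.exp_pos _).le (kp_nonneg v)
  have k4 := (k1.trans k2).trans k3
  have k5 : δ * Real.exp (β * ct l) * (4 * C0 * D1) = c * (Lf (ct l) * Real.exp (β * ct l)) * ((4 * C0 * D1) / (4 * C0 * D1 + 1)) := by
    rw [hδ]
    field_simp
  rw [k5] at k4
  have k6 : (4 * C0 * D1) / (4 * C0 * D1 + 1) < 1 := by
    rw [div_lt_one (by positivity)]
    linarith
  have k7 : 0 < c * (Lf (ct l) * Real.exp (β * ct l)) := by positivity
  nlinarith

/-- mean square version -/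
theorem win_sq (Ph : ℝ → ℝ) (hPh : Measurable Ph) (hPb : ∀ u, |ff Ph u| ≤ Real.exp u) (β : ℝ) (hβ : 1 / 2 ≤ β) (hβ1 : β ≤ 1) (Lf : ℝ → ℝ) (hL : ∀ᶠ t in atTop, 1 ≤ Lf t)
    (hcore : ∃ c : ℝ, 0 < c ∧ ∀ᶠ t : ℝ in atTop, ∀ s : ℝ, s = 1 ∨ s = -1 →
      c * (Lf t * Real.exp (β * t)) ≤ ∫ v : ℝ, max (s * ff Ph (t - v)) 0 * kp v) :
    ∃ c : ℝ, 0 < c ∧ ∀ᶠ l : ℝ in atTop, ∀ s : ℝ, s = 1 ∨ s = -1 →
      c * (Lf (ct l)) ^ 2 ≤ ∫ u in Icc l (l + Real.log l), (max (s * ff Ph u) 0) ^ 2 * Real.exp (-(2 * β * u)) := by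
  obtain ⟨c, hc, hev⟩ := win Ph hPh hPb β hβ Lf hL hcore
  have hC0 := C0_nonneg
  have hD1 := D1_nonneg
  obtain ⟨hmi, hmass⟩ := mass_le 0 le_rfl (by norm_num)
  set K : ℝ := 4 * C0 * D1 + 1 with hK
  have hK0 : 0 < K := by positivity
  refine ⟨c ^ 2 / (K * (4 * C0 + 1)), by positivity, ?_⟩
  filter_upwards [hev, ct_tendsto.eventually hL, eventually_ge_atTop (1:ℝ)] with l h1 h2 h3 s hs
  set a : ℝ := Real.log l / 2 with ha
  have ha0 : 0 ≤ a := by rw [ha]; have := Real.log_nonneg h3; positivity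
  set t : ℝ := ct l with ht
  have hta : t - a = l := by rw [ht, ha]; unfold ct; ring
  have hta2 : t + a = l + Real.log l := by rw [ht, ha]; unfold ct; ring
  have hm := (ff_meas hPh)
  have hk := kp_cont
  set F : ℝ → ℝ := fun u => max (s * ff Ph u) 0 with hF
  have hF0 : ∀ u, 0 ≤ F u := fun u => le_max_right _ _
  have hFm : Measurable F := by simp only [hF]; fun_prop
  have hFb : ∀ u, F u ≤ Real.exp u := fun u => (le_abs_self _).trans ((part_le s hs _).trans (hPb u))
  set X : ℝ := ∫ v in Icc (-a) a, F (t - v) * kp v with hX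
  have hXlow : c * (Lf t * Real.exp (β * t)) ≤ X := h1 s hs
  have hLt : 1 ≤ Lf t := h2
  have hX0 : 0 < X := lt_of_lt_of_le (by positivity) hXlow
  have hbd : ∀ v ∈ Icc (-a) a, F (t - v) ≤ Real.exp (t + a) := fun v hv =>
    (hFb _).trans (Real.exp_le_exp.2 (by linarith [hv.1]))
  have i1 : IntegrableOn (fun v => F (t - v) * kp v) (Icc (-a) a) :=
    (avg_int F hFm (fun u => by rw [abs_of_nonneg (hF0 u)]; exact hFb u) t).integrableOn
  have i0 : IntegrableOn kp (Icc (-a) a) := hk.continuousOn.integrableOn_compact isCompact_Icc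
  have i2 : IntegrableOn (fun v => (F (t - v)) ^ 2 * kp v) (Icc (-a) a) := by
    refine Integrable.mono' (g := fun v => Real.exp (t + a) ^ 2 * kp v) (i0.const_mul _) ?_ ?_
    · exact (by fun_prop : Measurable fun v => (F (t - v)) ^ 2 * kp v).aestronglyMeasurable
    · refine (ae_restrict_iff' measurableSet_Icc).2 (ae_of_all _ fun v hv => ?_)
      rw [Real.norm_eq_abs, abs_of_nonneg (mul_nonneg (sq_nonneg _) (kp_nonneg v))]
      exact mul_le_mul_of_nonneg_right (pow_le_pow_left₀ (hF0 _) (hbd v hv) 2) (kp_nonneg v)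
  set Y : ℝ := ∫ v in Icc (-a) a, (F (t - v)) ^ 2 * kp v with hY
  have hmass' : ∫ v in Icc (-a) a, kp v ≤ K := by
    have h5 : ∫ v in Icc (-a) a, kp v ≤ ∫ v, kp v := by
      refine setIntegral_le_integral ?_ (ae_of_all _ fun v => kp_nonneg v)
      refine hmi.congr (ae_of_all _ fun v => ?_)
      simp
    have h6 : ∫ v, kp v ≤ 4 * C0 * D1 := by
      refine le_trans (le_of_eq ?_) hmass
      refine integral_congr_ae (ae_of_all _ fun v => ?_)
      simp
    linarith
  -- Cauchy-Schwarz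
  have hCS : X ^ 2 ≤ K * Y := by
    set lam : ℝ := K / X with hlam
    have hlam0 : 0 < lam := by positivity
    have h5 : X ≤ lam / 2 * Y + 1 / (2 * lam) * ∫ v in Icc (-a) a, kp v := by
      rw [hX, hY, ← integral_const_mul, ← integral_const_mul, ← integral_add (i2.const_mul _) (i0.const_mul _)]
      refine setIntegral_mono_on i1 ((i2.const_mul _).add (i0.const_mul _)) measurableSet_Icc fun v hv => ?_
      have h6 : F (t - v) ≤ lam / 2 * (F (t - v)) ^ 2 + 1 / (2 * lam) := by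
        have h7 := sq_nonneg (lam * F (t - v) - 1)
        have h8 : F (t - v) * (2 * lam) ≤ (lam / 2 * (F (t - v)) ^ 2 + 1 / (2 * lam)) * (2 * lam) := by
          have h9 : 1 / (2 * lam) * (2 * lam) = 1 := by field_simp
          nlinarith
        exact le_of_mul_le_mul_right h8 (by positivity)
      calc F (t - v) * kp v ≤ (lam / 2 * (F (t - v)) ^ 2 + 1 / (2 * lam)) * kp v :=
            mul_le_mul_of_nonneg_right h6 (kp_nonneg v)
        _ = _ := by ring
    have h6 : 1 / (2 * lam) * ∫ v in Icc (-a) a, kp v ≤ 1 / (2 * lam) * K :=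
      mul_le_mul_of_nonneg_left hmass' (by positivity)
    have h7 : 1 / (2 * lam) * K = X / 2 := by
      rw [hlam]
      field_simp
    have h8 : lam / 2 * Y = K * Y / (2 * X) := by
      rw [hlam]
      field_simp
    have h9 : X / 2 ≤ K * Y / (2 * X) := by linarith
    rw [le_div_iff₀ (by positivity)] at h9
    nlinarith
  -- remove the kernel
  have hYle : Y ≤ 4 * C0 * Real.exp (2 * β * t) * ∫ u in Icc l (l + Real.log l), (F u) ^ 2 * Real.exp (-(2 * β * u)) := by
    have hrefl := refl_Icc (fun u => (F u) ^ 2 * Real.exp (-(2 * β * u))) t a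
    rw [hta, hta2] at hrefl
    rw [← hrefl, ← integral_const_mul]
    refine setIntegral_mono_on i2 ?_ measurableSet_Icc fun v hv => ?_
    · refine Integrable.mono' (g := fun v => 4 * C0 * Real.exp (2 * β * t) * (Real.exp (t + a) ^ 2 * Real.exp (-(2 * β * (t - v))))) ?_ ?_ ?_
      · exact (by fun_prop : Continuous fun v => 4 * C0 * Real.exp (2 * β * t) * (Real.exp (t + a) ^ 2 * Real.exp (-(2 * β * (t - v))))).continuousOn.integrableOn_compact isCompact_Icc
      · exact (by fun_prop : Measurable fun v => 4 * C0 * Real.exp (2 * β * t) * ((F (t - v)) ^ 2 * Real.exp (-(2 * β * (t - v))))).aestronglyMeasurable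
      · refine (ae_restrict_iff' measurableSet_Icc).2 (ae_of_all _ fun v hv => ?_)
        rw [Real.norm_eq_abs, abs_of_nonneg (by positivity)]
        refine mul_le_mul_of_nonneg_left ?_ (by positivity)
        exact mul_le_mul_of_nonneg_right (pow_le_pow_left₀ (hF0 _) (hbd v hv) 2) (Real.exp_pos _).le
    · have h5 := kp_le_exp β v (by linarith) hβ1
      calc (F (t - v)) ^ 2 * kp v ≤ (F (t - v)) ^ 2 * (4 * C0 * Real.exp (2 * β * v)) :=
            mul_le_mul_of_nonneg_left h5 (sq_nonneg _)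
        _ = 4 * C0 * ((F (t - v)) ^ 2 * (Real.exp (2 * β * t) * Real.exp (-(2 * β * (t - v))))) := by
            rw [← Real.exp_add]
            have : 2 * β * t + -(2 * β * (t - v)) = 2 * β * v := by ring
            rw [this]
            ring
        _ = _ := by ring
  set I : ℝ := ∫ u in Icc l (l + Real.log l), (F u) ^ 2 * Real.exp (-(2 * β * u)) with hI
  have hI0 : 0 ≤ I := integral_nonneg fun u => by positivity
  have hE : Real.exp (2 * β * t) = Real.exp (β * t) ^ 2 := by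
    rw [← Real.exp_nat_mul]
    congr 1
    push_cast
    ring
  have hE0 := Real.exp_pos (β * t)
  have h5 : (c * (Lf t * Real.exp (β * t))) ^ 2 ≤ X ^ 2 := pow_le_pow_left₀ (by positivity) hXlow 2
  have h6 : K * Y ≤ K * (4 * C0 * Real.exp (β * t) ^ 2 * I) := by
    rw [hE] at hYle
    exact mul_le_mul_of_nonneg_left hYle hK0.le
  have h7 : c ^ 2 * (Lf t) ^ 2 * Real.exp (β * t) ^ 2 ≤ (K * (4 * C0) * I) * Real.exp (β * t) ^ 2 := by
    calc c ^ 2 * (Lf t) ^ 2 * Real.exp (β * t) ^ 2 = (c * (Lf t * Real.exp (β * t))) ^ 2 := by ring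
      _ ≤ K * (4 * C0 * Real.exp (β * t) ^ 2 * I) := (h5.trans hCS).trans h6
      _ = _ := by ring
  have h8 : c ^ 2 * (Lf t) ^ 2 ≤ K * (4 * C0) * I := le_of_mul_le_mul_right h7 (by positivity)
  rw [div_mul_eq_mul_div, div_le_iff₀ (by positivity)]
  calc c ^ 2 * (Lf t) ^ 2 ≤ K * (4 * C0) * I := h8
    _ ≤ K * (4 * C0 + 1) * I := by
        refine mul_le_mul_of_nonneg_right (mul_le_mul_of_nonneg_left (by linarith) hK0.le) hI0
    _ = I * (K * (4 * C0 + 1)) := by ring

/-- the window in the original variable -/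
theorem sq_window (Ph : ℝ → ℝ) (hPh : Measurable Ph) (hPb : ∀ u, |ff Ph u| ≤ Real.exp u) (β l s : ℝ) (hβ : 1 / 2 ≤ β) (hl : 1 ≤ l) :
    ∫ u in Icc l (l + Real.log l), (max (s * ff Ph u) 0) ^ 2 * Real.exp (-(2 * β * u)) ≤
      Real.exp (-((2 * β - 1) * l)) * ∫ y in (Real.exp l)..(Real.exp l * l), (max (s * Ph y) 0 / y) ^ 2 := by
  have hll := Real.log_nonneg hl
  have hl0 : 0 < l := by linarith
  have e2 : Real.exp (l + Real.log l) = Real.exp l * l := by rw [Real.exp_add, Real.exp_log hl0]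
  have himg : Real.exp '' Icc l (l + Real.log l) = Icc (Real.exp l) (Real.exp l * l) := by
    rw [← e2]
    ext y
    constructor
    · rintro ⟨u, hu, rfl⟩
      exact ⟨Real.exp_le_exp.2 hu.1, Real.exp_le_exp.2 hu.2⟩
    · intro hy
      have hy0 : 0 < y := (Real.exp_pos _).trans_le hy.1
      refine ⟨Real.log y, ⟨?_, ?_⟩, Real.exp_log hy0⟩
      · rw [Real.le_log_iff_exp_le hy0]; exact hy.1
      · rw [Real.log_le_iff_le_exp hy0]; exact hy.2
  have hM := hPh
  have hm := (ff_meas hPh)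
  have key := integral_image_eq_integral_abs_deriv_smul (s := Icc l (l + Real.log l)) measurableSet_Icc
    (f := Real.exp) (f' := Real.exp) (fun x _ => (Real.hasDerivAt_exp x).hasDerivWithinAt)
    Real.exp_injective.injOn (fun y => (max (s * Ph y) 0 / y) ^ 2)
  rw [himg] at key
  have hle : Real.exp l ≤ Real.exp l * l := le_mul_of_one_le_right (Real.exp_pos _).le hl
  rw [intervalIntegral.integral_of_le hle, ← integral_Icc_eq_integral_Ioc, key, ← integral_const_mul]
  have hb : ∀ u, max (s * ff Ph u) 0 ≤ |s| * Real.exp u := by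
    intro u
    refine max_le ?_ (by positivity)
    refine (le_abs_self _).trans ?_
    rw [abs_mul]
    exact mul_le_mul_of_nonneg_left (hPb u) (abs_nonneg _)
  refine setIntegral_mono_on ?_ ?_ measurableSet_Icc fun u hu => ?_
  · refine Integrable.mono' (g := fun u => (|s| * Real.exp u) ^ 2 * Real.exp (-(2 * β * u))) ?_ ?_ ?_
    · exact (by fun_prop : Continuous fun u => (|s| * Real.exp u) ^ 2 * Real.exp (-(2 * β * u))).continuousOn.integrableOn_compact isCompact_Icc
    · exact (by fun_prop : Measurable fun u => (max (s * ff Ph u) 0) ^ 2 * Real.exp (-(2 * β * u))).aestronglyMeasurable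
    · refine ae_of_all _ fun u => ?_
      rw [Real.norm_eq_abs, abs_of_nonneg (by positivity)]
      exact mul_le_mul_of_nonneg_right (pow_le_pow_left₀ (le_max_right _ _) (hb u) 2) (Real.exp_pos _).le
  · refine Integrable.mono' (g := fun u => Real.exp (-((2 * β - 1) * l)) * (Real.exp u * (|s|) ^ 2)) ?_ ?_ ?_
    · exact (by fun_prop : Continuous fun u => Real.exp (-((2 * β - 1) * l)) * (Real.exp u * (|s|) ^ 2)).continuousOn.integrableOn_compact isCompact_Icc
    · exact (by fun_prop : Measurable fun u => Real.exp (-((2 * β - 1) * l)) * (|Real.exp u| • (max (s * Ph (Real.exp u)) 0 / Real.exp u) ^ 2)).aestronglyMeasurable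
    · refine ae_of_all _ fun u => ?_
      rw [Real.norm_eq_abs, abs_of_nonneg (by positivity), smul_eq_mul, abs_of_pos (Real.exp_pos u)]
      refine mul_le_mul_of_nonneg_left (mul_le_mul_of_nonneg_left ?_ (Real.exp_pos _).le) (Real.exp_pos _).le
      refine pow_le_pow_left₀ (by positivity) ?_ 2
      rw [div_le_iff₀ (Real.exp_pos u)]
      exact hb u
  · rw [smul_eq_mul, abs_of_pos (Real.exp_pos u), div_pow]
    have e3 : Real.exp (-(2 * β * u)) ≤ Real.exp (-((2 * β - 1) * l)) * (Real.exp u * (1 / (Real.exp u) ^ 2)) := by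
      have e4 : Real.exp u * (1 / (Real.exp u) ^ 2) = Real.exp (-u) := by
        rw [Real.exp_neg]
        field_simp
      rw [e4, ← Real.exp_add]
      refine Real.exp_le_exp.2 ?_
      nlinarith [hu.1]
    have e5 : ff Ph u = Ph (Real.exp u) := rfl
    rw [e5]
    calc (max (s * Ph (Real.exp u)) 0) ^ 2 * Real.exp (-(2 * β * u))
        ≤ (max (s * Ph (Real.exp u)) 0) ^ 2 * (Real.exp (-((2 * β - 1) * l)) * (Real.exp u * (1 / (Real.exp u) ^ 2))) :=
          mul_le_mul_of_nonneg_left e3 (sq_nonneg _)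
      _ = _ := by ring

/-- the sup version in the original variable -/
theorem sup_log (Ph : ℝ → ℝ) {β : ℝ} {Lf : ℝ → ℝ} (h : ∃ c : ℝ, 0 < c ∧ ∀ᶠ l : ℝ in atTop, ∀ s : ℝ, s = 1 ∨ s = -1 →
      ∃ u ∈ Icc l (l + Real.log l), c * (Lf (ct l) * Real.exp (β * u)) ≤ s * ff Ph u) :
    ∃ c : ℝ, 0 < c ∧ ∀ᶠ x : ℝ in atTop, ∀ s : ℝ, s = 1 ∨ s = -1 →
      ∃ y ∈ Icc x (x * Real.log x), c * (Lf (ct (Real.log x)) * y ^ β) ≤ s * Ph y := by
  obtain ⟨c, hc, hev⟩ := h
  refine ⟨c, hc, ?_⟩
  filter_upwards [Real.tendsto_log_atTop.eventually hev, eventually_ge_atTop (Real.exp 1)] with x hx hx1 s hs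
  have hx0 : 0 < x := (Real.exp_pos 1).trans_le hx1
  have hl1 : 1 ≤ Real.log x := by rwa [Real.le_log_iff_exp_le hx0]
  obtain ⟨u, hu, hu2⟩ := hx s hs
  refine ⟨Real.exp u, ⟨?_, ?_⟩, ?_⟩
  · rw [← Real.log_le_iff_le_exp hx0]; exact hu.1
  · have h2 : Real.log (x * Real.log x) = Real.log x + Real.log (Real.log x) :=
      Real.log_mul hx0.ne' (by linarith)
    rw [← Real.le_log_iff_exp_le (by positivity), h2]
    exact hu.2
  · rw [← Real.exp_mul, mul_comm u β]
    exact hu2

/-- mean squares over the windows, original variable -/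
theorem sq_low (Ph : ℝ → ℝ) (hPh : Measurable Ph) (hPb : ∀ u, |ff Ph u| ≤ Real.exp u) {β : ℝ} (hβ : 1 / 2 ≤ β) {Lf : ℝ → ℝ} (h : ∃ c : ℝ, 0 < c ∧ ∀ᶠ l : ℝ in atTop, ∀ s : ℝ, s = 1 ∨ s = -1 →
      c * (Lf (ct l)) ^ 2 ≤ ∫ u in Icc l (l + Real.log l), (max (s * ff Ph u) 0) ^ 2 * Real.exp (-(2 * β * u))) :
    ∃ c : ℝ, 0 < c ∧ ∀ᶠ x : ℝ in atTop, ∀ s : ℝ, s = 1 ∨ s = -1 →
      c * ((Lf (ct (Real.log x))) ^ 2 * x ^ (2 * β - 1)) ≤ ∫ y in x..(x * Real.log x), (max (s * Ph y) 0 / y) ^ 2 := by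
  obtain ⟨c, hc, hev⟩ := h
  refine ⟨c, hc, ?_⟩
  filter_upwards [Real.tendsto_log_atTop.eventually hev, eventually_ge_atTop (Real.exp 1)] with x hx hx1 s hs
  have hx0 : 0 < x := (Real.exp_pos 1).trans_le hx1
  have hl1 : 1 ≤ Real.log x := by rwa [Real.le_log_iff_exp_le hx0]
  have h2 := sq_window Ph hPh hPb β (Real.log x) s hβ hl1
  rw [Real.exp_log hx0] at h2
  have h3 := (hx s hs).trans h2
  have h4 : Real.exp (-((2 * β - 1) * Real.log x)) * x ^ (2 * β - 1) = 1 := by
    rw [Real.rpow_def_of_pos hx0, ← Real.exp_add]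
    rw [show -((2 * β - 1) * Real.log x) + Real.log x * (2 * β - 1) = 0 by ring, Real.exp_zero]
  have h5 : 0 < x ^ (2 * β - 1) := Real.rpow_pos_of_pos hx0 _
  calc c * ((Lf (ct (Real.log x))) ^ 2 * x ^ (2 * β - 1)) = (c * (Lf (ct (Real.log x))) ^ 2) * x ^ (2 * β - 1) := by ring
    _ ≤ (Real.exp (-((2 * β - 1) * Real.log x)) * ∫ y in x..(x * Real.log x), (max (s * Ph y) 0 / y) ^ 2) * x ^ (2 * β - 1) :=
        mul_le_mul_of_nonneg_right h3 h5.le
    _ = (Real.exp (-((2 * β - 1) * Real.log x)) * x ^ (2 * β - 1)) * ∫ y in x..(x * Real.log x), (max (s * Ph y) 0 / y) ^ 2 := by ring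
    _ = _ := by rw [h4, one_mul]

end

end TH299.LV
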